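import Pool.Agent.N84.AF.Det

/-!
# Differences of forms in two sets of variables
-/

namespace Pool.Agent.N84.AF

open MvPolynomial Matrix

section

variable {τ : Type*} {R : Type*} [CommRing R]

theorem hc_mul {i j : ℕ} (a : MvPolynomial τ R) {b : MvPolynomial τ R} (hb : b.IsHomogeneous j) :
    homogeneousComponent (i + j) (a * b) = homogeneousComponent i a * b := by
  induction a using MvPolynomial.induction_on' with
  | monomial s c =>
    have h1 : (monomial s c : MvPolynomial τ R).IsHomogeneous s.degree :=
      isHomogeneous_monomial c rfl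
    rw [homogeneousComponent_of_mem (h1.mul hb),
      homogeneousComponent_of_mem h1]
    by_cases h : i = s.degree
    · simp [h]
    · have : ¬ (i + j = s.degree + j) := by omega
      simp [h, this]
  | add p q hp hq => rw [add_mul, map_add, hp, hq, map_add, add_mul]

theorem hc_mul_of_lt {i j : ℕ} (hij : i < j) (a : MvPolynomial τ R) {b : MvPolynomial τ R}
    (hb : b.IsHomogeneous j) : homogeneousComponent i (a * b) = 0 := by
  induction a using MvPolynomial.induction_on' with
  | monomial s c =>
    have h1 : (monomial s c : MvPolynomial τ R).IsHomogeneous s.degree :=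
      isHomogeneous_monomial c rfl
    rw [homogeneousComponent_of_mem (h1.mul hb), if_neg (by omega)]
  | add p q hp hq => rw [add_mul, map_add, hp, hq, add_zero]

end

section

variable {σ : Type*} {K : Type*} [Field K]

theorem rename_sub_mem (F : MvPolynomial σ K) :
    rename Sum.inl F - rename Sum.inr F ∈
      Ideal.span (Set.range fun j : σ => (X (Sum.inl j) - X (Sum.inr j) : MvPolynomial (σ ⊕ σ) K)) := by
  rw [← Ideal.Quotient.eq]
  set I := Ideal.span (Set.range fun j : σ => (X (Sum.inl j) - X (Sum.inr j) : MvPolynomial (σ ⊕ σ) K))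
  have : (Ideal.Quotient.mkₐ K I).comp (rename Sum.inl) = (Ideal.Quotient.mkₐ K I).comp (rename Sum.inr) := by
    apply MvPolynomial.algHom_ext
    intro j
    simp only [AlgHom.comp_apply, rename_X, Ideal.Quotient.mkₐ_eq_mk]
    rw [Ideal.Quotient.eq]
    exact Ideal.subset_span ⟨j, rfl⟩
  exact DFunLike.congr_fun this F

theorem exists_bez [Fintype σ] (k : ℕ) (F : MvPolynomial σ K) (hF : F.IsHomogeneous (k + 1)) :
    ∃ b : σ → MvPolynomial (σ ⊕ σ) K, (∀ j, (b j).IsHomogeneous k) ∧
      ∑ j, b j * (X (Sum.inl j) - X (Sum.inr j)) = rename Sum.inl F - rename Sum.inr F := by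
  obtain ⟨c, hc⟩ := Ideal.mem_span_range_iff_exists_fun.1 (rename_sub_mem F)
  refine ⟨fun j => homogeneousComponent k (c j), fun j => homogeneousComponent_isHomogeneous _ _, ?_⟩
  have h1 : (rename Sum.inl F - rename Sum.inr F : MvPolynomial (σ ⊕ σ) K).IsHomogeneous (k + 1) :=
    (hF.rename_isHomogeneous).sub (hF.rename_isHomogeneous)
  rw [← homogeneousComponent_eq_self h1, ← hc, map_sum]
  refine Finset.sum_congr rfl fun j _ => ?_
  rw [hc_mul]
  exact (isHomogeneous_X _ _).sub (isHomogeneous_X _ _)

end

end Pool.Agent.N84.AF
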