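import Pool.Agent.N84.AF.First

/-!
# The square of the discriminant does not divide the denominator
-/

namespace Pool.Agent.N84.AF

open MvPolynomial Matrix

noncomputable section

set_option linter.unusedSectionVars false

variable {σ : Type*} [Fintype σ] [DecidableEq σ] {K : Type*} [Field K] {k : ℕ}

/-- At a degenerate form with one functional only, the Hessian matrix has corank one. -/
theorem hess_kernel {N : ℕ} (hN : 1 ≤ N) (f : MvPolynomial σ K) (hf : f.IsHomogeneous (k + 2))
    (z : σ → K) (hz : z ≠ 0) (h : ∀ i, eval z (pderiv i f) = 0) (m₀ : Expo σ N)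
    (hQ : ∀ v : Expo σ N → K, (∀ p ∈ gradIdeal f, Lf v p = 0) → v m₀ = 0 → v = 0)
    (w : σ → K) (hw : ∀ i, ∑ j, w j * eval z (pderiv j (pderiv i f)) = 0) :
    ∃ a : K, w = a • z := by
  have hkz := evv_kill N f hf z h
  have hkw := dvv_kill (N := N) f hf z w h hw
  have hz0 : evv N z m₀ ≠ 0 := fun h0 => evv_ne_zero N hz (hQ _ hkz h0)
  set a := dvv N z w m₀ / evv N z m₀ with ha
  have h1 : dvv N z w - a • evv N z = 0 := by
    apply hQ
    · intro p hp
      have : Lf (dvv N z w - a • evv N z) p = Lf (dvv N z w) p - a * Lf (evv N z) p := by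
        rw [Lf_apply, Lf_apply, Lf_apply, Finset.mul_sum, ← Finset.sum_sub_distrib]
        exact Finset.sum_congr rfl fun m _ => by simp; ring
      rw [this, hkz p hp, hkw p hp, mul_zero, sub_zero]
    · rw [Pi.sub_apply, Pi.smul_apply, smul_eq_mul, ha, div_mul_cancel₀ _ hz0, sub_self]
  have h2 : dvv N z w = a • evv N z := sub_eq_zero.1 h1
  have h3 : ∀ q : MvPolynomial σ K, q.IsHomogeneous N →
      ∑ j, w j * eval z (pderiv j q) = a * eval z q := by
    intro q hq
    have e1 := Lf_dvv (N := N) z w q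
    have e2 := Lf_evv N z q
    rw [homogeneousComponent_eq_self hq] at e1 e2
    rw [← e1, ← e2, h2, Lf_apply, Lf_apply, Finset.mul_sum]
    exact Finset.sum_congr rfl fun m _ => by simp; ring
  obtain ⟨j, hj⟩ := Function.ne_iff.1 hz
  rw [Pi.zero_apply] at hj
  refine ⟨w j / z j, ?_⟩
  funext i
  obtain ⟨M, rfl⟩ := Nat.exists_eq_add_of_le' hN
  have h4 := h3 (X j ^ M * (C (z j) * X i - C (z i) * X j))
    ((isHomogeneous_X_pow _ _).mul ((isHomogeneous_C_mul_X _ _).sub (isHomogeneous_C_mul_X _ _)))
  have h5 : eval z (X j ^ M * (C (z j) * X i - C (z i) * X j)) = 0 := by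
    simp; right; ring
  have h6 : ∀ l, w l * eval z (pderiv l (X j ^ M * (C (z j) * X i - C (z i) * X j)))
      = z j ^ M * (z j * (w l * (Pi.single i 1 : σ → K) l) - z i * (w l * (Pi.single j 1 : σ → K) l)) := by
    intro l
    have e1 : ∀ a b : σ, eval z (pderiv a (X b : MvPolynomial σ K)) = (Pi.single b 1 : σ → K) a := by
      intro a b
      rw [pderiv_X]
      by_cases hab : a = b
      · subst hab; simp
      · rw [Pi.single_eq_of_ne hab, Pi.single_eq_of_ne (Ne.symm hab), map_zero]
    rw [Derivation.leibniz, map_sub, pderiv_C_mul, pderiv_C_mul, smul_eq_mul, smul_eq_mul]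
    simp only [map_add, map_mul, map_sub, map_pow, eval_X, eval_C, e1]
    ring
  rw [h5, mul_zero, Finset.sum_congr rfl fun l _ => h6 l, ← Finset.mul_sum, Finset.sum_sub_distrib,
    ← Finset.mul_sum, ← Finset.mul_sum] at h4
  have e2 : ∀ b : σ, ∑ l, w l * (Pi.single b 1 : σ → K) l = w b := by
    intro b
    rw [Finset.sum_eq_single b]
    · simp
    · intro l _ hl
      rw [Pi.single_eq_of_ne hl, mul_zero]
    · simp
  rw [e2, e2] at h4
  have h7 := (mul_eq_zero.1 h4).resolve_left (pow_ne_zero _ hj)
  rw [Pi.smul_apply, smul_eq_mul, div_mul_eq_mul_div, eq_div_iff hj]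
  linear_combination h7

/-- The matrix `B₀` with `B₀ z = ∇ f` and `B₀ p = 0`, at a singular point `p`. -/
theorem exists_B0 [CharZero K] (f : MvPolynomial σ K) (hf : f.IsHomogeneous (k + 2)) (z : σ → K) (j : σ)
    (hj : z j ≠ 0) (h : ∀ i, eval z (pderiv i f) = 0) :
    ∃ B : Matrix σ σ (MvPolynomial σ K), (∀ i a, (B i a).IsHomogeneous k) ∧
      (∀ i, ∑ a, B i a * X a = pderiv i f) ∧ B.det = 0 ∧
      ∀ i a, eval z (B i a) = eval z (pderiv a (pderiv i f)) := by
  have hF : ∀ i, (pderiv i f).IsHomogeneous (k + 1) := fun i => hf.pderiv (i := i)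
  choose b hb hbF using fun i => exists_bez k (pderiv i f) (hF i)
  set u : σ → K := fun l => z l / z j with hu
  let s : MvPolynomial (σ ⊕ σ) K →ₐ[K] MvPolynomial σ K := aeval (Sum.elim X (fun l => C (u l) * X j))
  have hsl : ∀ l, s (X (Sum.inl l)) = X l := fun l => by simp [s]
  have hsr : ∀ l, s (X (Sum.inr l)) = C (u l) * X j := fun l => by simp [s]
  have hs1 : ∀ q : MvPolynomial σ K, s (rename Sum.inl q) = q := by
    intro q
    simp only [s, aeval_rename]
    exact aeval_X_left_apply q
  have hs2 : ∀ i, s (rename Sum.inr (pderiv i f)) = 0 := by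
    intro i
    simp only [s, aeval_rename]
    have e1 : (Sum.elim X (fun l => C (u l) * X j) ∘ Sum.inr : σ → MvPolynomial σ K)
        = fun l => C (u l) * X j := rfl
    rw [e1, aeval_scaled u (X j) (k + 1) _ (hF i)]
    have e2 : eval u (pderiv i f) = 0 := by
      have e3 := aeval_scaled (τ := σ) z (C (z j)⁻¹) (k + 1) _ (hF i)
      have e4 := congrArg (eval z) e3
      rw [h i, map_zero, zero_mul, map_zero] at e4
      have e5 : eval z (aeval (fun l => C (z l) * C (z j)⁻¹) (pderiv i f)) = eval u (pderiv i f) := by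
        have e6 : (fun l => C (z l) * C (z j)⁻¹ : σ → MvPolynomial σ K) = fun l => C (u l) := by
          funext l
          rw [← map_mul, hu]
          simp only [div_eq_mul_inv]
        rw [e6]
        have e7 : (aeval (fun l => C (u l)) (pderiv i f) : MvPolynomial σ K)
            = C (eval u (pderiv i f)) := by
          have := aeval_scaled (τ := σ) u 1 (k + 1) _ (hF i)
          simpa using this
        rw [e7, eval_C]
      rw [← e5, e4]
    rw [e2, map_zero, zero_mul]
  set Km : Matrix σ σ (MvPolynomial σ K) := Matrix.of fun l a =>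
    (if l = a then 1 else 0) - C (u l) * (if a = j then 1 else 0) with hKm
  set Bb : Matrix σ σ (MvPolynomial σ K) := Matrix.of fun i l => s (b i l) with hBb
  have hBbh : ∀ i l, (Bb i l).IsHomogeneous k := by
    intro i l
    have := (hb i l).aeval (n := 1) (Sum.elim X (fun l => C (u l) * X j) : σ ⊕ σ → MvPolynomial σ K) (by
      rintro (i | i)
      · exact isHomogeneous_X _ _
      · exact isHomogeneous_C_mul_X _ _)
    rw [one_mul] at this
    exact this
  have hKmh : ∀ l a, (Km l a).IsHomogeneous 0 := by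
    intro l a
    rw [hKm, Matrix.of_apply]
    refine IsHomogeneous.sub ?_ (IsHomogeneous.C_mul ?_ _)
    · split_ifs
      · exact isHomogeneous_one _ _
      · exact isHomogeneous_zero _ _ _
    · split_ifs
      · exact isHomogeneous_one _ _
      · exact isHomogeneous_zero _ _ _
  have hKz : ∀ l, ∑ a, Km l a * X a = X l - C (u l) * X j := by
    intro l
    simp only [hKm, Matrix.of_apply, sub_mul, Finset.sum_sub_distrib, ite_mul, one_mul, zero_mul,
      Finset.sum_ite_eq, Finset.mem_univ, if_true, mul_ite, mul_one, mul_zero, Finset.sum_ite_eq']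
  have hpt : ∀ i l, eval z (Bb i l) = eval z (pderiv l (pderiv i f)) := by
    intro i l
    rw [← bez_diag _ _ (hbF i) z l]
    rw [hBb, Matrix.of_apply]
    have e1 : (eval z).comp s.toRingHom = eval (Sum.elim z z) := by
      apply MvPolynomial.ringHom_ext
      · intro a; simp [s]
      · rintro (a | a)
        · simp [s]
        · simp [s, hu, div_mul_cancel₀ _ hj]
    exact DFunLike.congr_fun e1 (b i l)
  refine ⟨Bb * Km, ?_, ?_, ?_, ?_⟩
  · intro i a
    rw [Matrix.mul_apply]
    refine IsHomogeneous.sum _ _ _ fun l _ => ?_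
    have := (hBbh i l).mul (hKmh l a)
    rwa [add_zero] at this
  · intro i
    simp only [Matrix.mul_apply, Finset.sum_mul]
    rw [Finset.sum_comm]
    have e1 : ∀ l, ∑ a, Bb i l * Km l a * X a = s (b i l * (X (Sum.inl l) - X (Sum.inr l))) := by
      intro l
      rw [map_mul, map_sub, hsl, hsr, ← hKz l, Finset.mul_sum]
      exact Finset.sum_congr rfl fun a _ => by rw [hBb, Matrix.of_apply]; ring
    rw [Finset.sum_congr rfl fun l _ => e1 l, ← map_sum, hbF i, map_sub, hs1, hs2, sub_zero]
  · rw [Matrix.det_mul]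
    have : Km.det = 0 := by
      apply Matrix.det_eq_zero_of_row_eq_zero j
      intro a
      rw [hKm, Matrix.of_apply, hu]
      by_cases ha : j = a
      · subst ha
        simp [div_self hj]
      · simp [ha, Ne.symm ha]
    rw [this, mul_zero]
  · intro i a
    rw [Matrix.mul_apply, map_sum]
    simp only [map_mul, hpt]
    have e1 : ∀ l, eval z (Km l a) = (if l = a then 1 else 0) - u l * (if a = j then 1 else 0) := by
      intro l
      rw [hKm, Matrix.of_apply, map_sub, map_mul, eval_C]
      congr 1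
      · split_ifs <;> simp
      · split_ifs <;> simp
    simp only [e1, mul_sub, Finset.sum_sub_distrib, mul_ite, mul_one, mul_zero, Finset.sum_ite_eq',
      Finset.mem_univ, if_true]
    have e2 : ∑ l, eval z (pderiv l (pderiv i f)) * u l = 0 := by
      have e3 := congrArg (eval z) (hF i).sum_X_mul_pderiv
      rw [map_sum, map_nsmul, h i, smul_zero] at e3
      have e4 : ∀ l, eval z (pderiv l (pderiv i f)) * u l
          = (z j)⁻¹ * eval z (X l * pderiv l (pderiv i f)) := by
        intro l
        rw [map_mul, eval_X, hu]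
        simp only
        rw [div_eq_mul_inv]; ring
      rw [Finset.sum_congr rfl fun l _ => e4 l, ← Finset.mul_sum, e3, mul_zero]
    split_ifs with haj
    · rw [e2, sub_zero]
    · simp

/-- The coefficients of `f + t X_j ^ (k + 2)`, as polynomials in `t`. -/
def ctil (c₀ : Expo σ (k + 2) → K) (j : σ) : Expo σ (k + 2) → Polynomial K :=
  fun m => Polynomial.C (c₀ m) + if m.1 = Finsupp.single j (k + 2) then Polynomial.X else 0

/-- The coefficients of `f + t X_j ^ (k + 2)`. -/
def ct (c₀ : Expo σ (k + 2) → K) (j : σ) (t : K) : Expo σ (k + 2) → K :=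
  fun m => c₀ m + if m.1 = Finsupp.single j (k + 2) then t else 0

theorem eval_aeval_ctil (c₀ : Expo σ (k + 2) → K) (j : σ) (t : K)
    (P : MvPolynomial (Expo σ (k + 2)) K) :
    Polynomial.eval t (aeval (ctil c₀ j) P) = eval (ct c₀ j t) P := by
  have : (Polynomial.evalRingHom t).comp (aeval (ctil c₀ j) : MvPolynomial _ K →ₐ[K] _).toRingHom
      = eval (ct c₀ j t) := by
    apply MvPolynomial.ringHom_ext
    · intro a; simp
    · intro m
      simp only [AlgHom.toRingHom_eq_coe, RingHom.coe_comp, RingHom.coe_coe, Function.comp_apply,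
        aeval_X, ctil, Polynomial.coe_evalRingHom, Polynomial.eval_add, Polynomial.eval_C, eval_X, ct]
      congr 1
      split_ifs <;> simp
  exact DFunLike.congr_fun this P

theorem ct_zero (c₀ : Expo σ (k + 2) → K) (j : σ) : ct c₀ j 0 = c₀ := by
  funext m; simp [ct]

theorem form_ct (c₀ : Expo σ (k + 2) → K) (j : σ) (t : K) :
    form (ct c₀ j t) = form c₀ + C t * X j ^ (k + 2) := by
  ext s
  by_cases hs : s.degree = k + 2
  · have h1 := coeff_form (ct c₀ j t) ⟨s, hs⟩
    have h2 := coeff_form c₀ ⟨s, hs⟩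
    simp only at h1 h2
    rw [h1, coeff_add, h2, ct, coeff_C_mul, coeff_X_pow]
    simp only [eq_comm (a := s)]
    split_ifs <;> simp
  · rw [(form_homogeneous _).coeff_eq_zero hs]
    have : (form c₀ + C t * X j ^ (k + 2)).IsHomogeneous (k + 2) :=
      (form_homogeneous _).add (isHomogeneous_C_mul_X_pow _ _ _)
    rw [this.coeff_eq_zero hs]

theorem pderiv_form_ct (c₀ : Expo σ (k + 2) → K) (j : σ) (t : K) (i : σ) :
    pderiv i (form (ct c₀ j t)) = pderiv i (form c₀) +
      if i = j then C (t * (k + 2 : K)) * X j ^ (k + 1) else 0 := by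
  rw [form_ct, map_add, pderiv_C_mul]
  congr 1
  by_cases hi : i = j
  · subst hi
    rw [if_pos rfl, Derivation.leibniz_pow, pderiv_X_self, smul_eq_mul, mul_one, nsmul_eq_mul]
    have : ((k + 2 : ℕ) : MvPolynomial σ K) = C (k + 2 : K) := by
      rw [map_add, map_ofNat]; simp
    rw [this, map_mul, mul_assoc]
    rfl
  · rw [if_neg hi, Derivation.leibniz_pow, pderiv_X_of_ne (Ne.symm hi)]
    simp

/-- **The key step**: the square of a polynomial vanishing at the chosen form does not divide `D`. -/
theorem not_sq_dvd [CharZero K] [IsAlgClosed K] (hk : 1 ≤ k) {N : ℕ} (hN : N = Fintype.card σ * k)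
    (P : Expo σ N → MvPolynomial (Expo σ (k + 2)) K)
    (D : MvPolynomial (Expo σ (k + 2)) K)
    (hker : ∀ c, ∀ p ∈ gradIdeal (form c), Lf (fun m => eval c (P m)) p = 0)
    (hval : ∀ c, Lf (fun m => eval c (P m)) (hessian (form c)) = eval c D)
    (c₀ : Expo σ (k + 2) → K) (hdeg : Degenerate (form c₀)) (m₀ : Expo σ N)
    (hQ : ∀ v : Expo σ N → K, (∀ p ∈ gradIdeal (form c₀), Lf v p = 0) →
      v m₀ = 0 → v = 0)
    (hP : (fun m => eval c₀ (P m)) ≠ 0) (Δ : MvPolynomial (Expo σ (k + 2)) K)
    (hΔ : eval c₀ Δ = 0) (hdvd : Δ ^ 2 ∣ D) : False := by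
  obtain ⟨z, hz, hsing⟩ := hdeg
  set f := form c₀ with hf
  have hfh : f.IsHomogeneous (k + 2) := form_homogeneous c₀
  obtain ⟨j, hj⟩ := Function.ne_iff.1 hz
  rw [Pi.zero_apply] at hj
  have hcard : 1 ≤ Fintype.card σ := Fintype.card_pos_iff.2 ⟨j⟩
  have hN1 : 1 ≤ N := Nat.one_le_iff_ne_zero.2 (by
    rw [hN]; exact Nat.mul_ne_zero (by omega) (by omega))
  have hk1 : (k + 1 : K) ≠ 0 := by exact_mod_cast Nat.succ_ne_zero k
  have hk2 : (k + 2 : K) ≠ 0 := by exact_mod_cast Nat.succ_ne_zero (k + 1)
  -- the vector of the presentation is proportional to the evaluation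
  have hkz := evv_kill N f hfh z hsing
  have hkP := hker c₀
  have hz0 : evv N z m₀ ≠ 0 := fun h0 => evv_ne_zero N hz (hQ _ hkz h0)
  set v : Expo σ N → K := fun m => eval c₀ (P m) with hv
  set lam := v m₀ / evv N z m₀ with hlam
  have h1 : v - lam • evv N z = 0 := by
    apply hQ
    · intro p hp
      have : Lf (v - lam • evv N z) p = Lf v p - lam * Lf (evv N z) p := by
        rw [Lf_apply, Lf_apply, Lf_apply, Finset.mul_sum, ← Finset.sum_sub_distrib]
        exact Finset.sum_congr rfl fun m _ => by simp; ring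
      rw [this, hkz p hp, hkP p hp, mul_zero, sub_zero]
    · rw [Pi.sub_apply, Pi.smul_apply, smul_eq_mul, hlam, div_mul_cancel₀ _ hz0, sub_self]
  have h2 : v = lam • evv N z := sub_eq_zero.1 h1
  have hlam0 : lam ≠ 0 := by
    intro h0
    apply hP
    rw [h2, h0, zero_smul]
  -- the matrices
  obtain ⟨B, hBh, hBz, hBdet, hBe⟩ := exists_B0 f hfh z j hj hsing
  set G : MvPolynomial σ K := (B.updateRow j (Pi.single j 1)).det with hG
  set h : MvPolynomial σ K := C (k + 2 : K) * X j ^ k * G with hh
  let Bt : K → Matrix σ σ (MvPolynomial σ K) := fun t =>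
    B.updateRow j (B j + (C (t * (k + 2 : K)) * X j ^ k) • Pi.single j 1)
  have hBtdet : ∀ t, (Bt t).det = C t * h := by
    intro t
    simp only [Bt]
    rw [Matrix.det_updateRow_add, Matrix.updateRow_eq_self, hBdet, zero_add, Matrix.det_updateRow_smul,
      hh, hG, map_mul]
    ring
  have hBth : ∀ t i a, (Bt t i a).IsHomogeneous k := by
    intro t i a
    by_cases hi : i = j
    · subst hi
      simp only [Bt, Matrix.updateRow_self, Pi.add_apply, Pi.smul_apply, smul_eq_mul]
      refine (hBh i a).add ?_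
      by_cases ha : a = i
      · subst ha
        rw [Pi.single_eq_same, mul_one]
        exact isHomogeneous_C_mul_X_pow _ _ _
      · rw [Pi.single_eq_of_ne ha, mul_zero]
        exact isHomogeneous_zero _ _ _
    · simp only [Bt, Matrix.updateRow_ne hi]
      exact hBh i a
  have hBtz : ∀ t i, ∑ a, Bt t i a * X a = pderiv i (form (ct c₀ j t)) := by
    intro t i
    rw [pderiv_form_ct, ← hf, ← hBz i]
    by_cases hi : i = j
    · subst hi
      rw [if_pos rfl]
      simp only [Bt, Matrix.updateRow_self, Pi.add_apply, Pi.smul_apply, smul_eq_mul, add_mul,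
        Finset.sum_add_distrib]
      congr 1
      rw [Finset.sum_eq_single i]
      · rw [Pi.single_eq_same, pow_succ]; ring
      · intro a _ ha
        rw [Pi.single_eq_of_ne ha]; ring
      · simp
    · rw [if_neg hi, add_zero]
      simp only [Bt, Matrix.updateRow_ne hi]
  have hhh : h.IsHomogeneous N := by
    have e1 := isHomogeneous_det k (Bt 1) (hBth 1)
    rw [hBtdet, map_one, one_mul] at e1
    rw [hN]
    exact e1
  set κ : K := (k + 1 : K)⁻¹ ^ Fintype.card σ with hκ
  -- the identity for every `t`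
  have hmain : ∀ t, t * Lf (fun m => eval (ct c₀ j t) (P m)) h = κ * eval (ct c₀ j t) D := by
    intro t
    have hfth := form_homogeneous (ct c₀ j t)
    have e1 : (Bt t).det - (hessB k (form (ct c₀ j t))).det ∈ gradIdeal (form (ct c₀ j t)) :=
      det_sub_mem k _ _ _ (hessB_homogeneous k hfth) (hBth t) (hessB_mul k hfth) (hBtz t)
    have e2 := hker (ct c₀ j t) _ e1
    rw [map_sub, sub_eq_zero, hBtdet, hessB_det, ← map_pow, ← smul_eq_C_mul, ← smul_eq_C_mul,
      map_smul, map_smul, smul_eq_mul, smul_eq_mul, hval] at e2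
    exact e2
  -- polynomials in `t`
  set φ : Polynomial K := ∑ m : Expo σ N, aeval (ctil c₀ j) (P m) * Polynomial.C (coeff m.1 h) with hφ
  set ψ : Polynomial K := aeval (ctil c₀ j) Δ with hψ
  set δ : Polynomial K := aeval (ctil c₀ j) D with hδ
  have hφe : ∀ t, Polynomial.eval t φ = Lf (fun m => eval (ct c₀ j t) (P m)) h := by
    intro t
    rw [hφ, Polynomial.eval_finsetSum, Lf_apply]
    exact Finset.sum_congr rfl fun m _ => by
      rw [Polynomial.eval_mul, Polynomial.eval_C, eval_aeval_ctil]
  have hpoly : Polynomial.X * φ = Polynomial.C κ * δ := by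
    apply Polynomial.funext
    intro t
    rw [Polynomial.eval_mul, Polynomial.eval_X, Polynomial.eval_mul, Polynomial.eval_C, hφe,
      hδ, eval_aeval_ctil, hmain]
  have hψX : Polynomial.X ∣ ψ := by
    rw [Polynomial.X_dvd_iff, Polynomial.coeff_zero_eq_eval_zero, hψ, eval_aeval_ctil, ct_zero, hΔ]
  have hψδ : ψ ^ 2 ∣ δ := by
    rw [hψ, hδ, ← map_pow]
    exact map_dvd _ hdvd
  have hX2 : Polynomial.X ^ 2 ∣ Polynomial.X * φ := by
    rw [hpoly]
    exact Dvd.dvd.mul_left ((pow_dvd_pow_of_dvd hψX 2).trans hψδ) _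
  have hXφ : Polynomial.X ∣ φ := by
    rw [pow_two] at hX2
    exact (mul_dvd_mul_iff_left Polynomial.X_ne_zero).1 hX2
  rw [Polynomial.X_dvd_iff, Polynomial.coeff_zero_eq_eval_zero, hφe, ct_zero] at hXφ
  have hLf : Lf v h = lam * eval z h := by
    have e1 : Lf v h = lam * Lf (evv N z) h := by
      rw [h2, Lf_apply, Lf_apply, Finset.mul_sum]
      exact Finset.sum_congr rfl fun m _ => by simp; ring
    rw [e1, Lf_evv, homogeneousComponent_eq_self hhh]
  have hzh : eval z h = 0 := by
    have : lam * eval z h = 0 := by rw [← hLf]; exact hXφ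
    exact (mul_eq_zero.1 this).resolve_left hlam0
  -- hence the minor of the Hessian matrix vanishes
  rw [hh, map_mul, map_mul, eval_C, map_pow, eval_X] at hzh
  have hGz : eval z G = 0 := by
    rcases mul_eq_zero.1 hzh with h5 | h5
    · exact absurd h5 (mul_ne_zero hk2 (pow_ne_zero _ hj))
    · exact h5
  rw [hG, RingHom.map_det] at hGz
  obtain ⟨w, hw0, hw⟩ := Matrix.exists_mulVec_eq_zero_iff.2 hGz
  have hwj : w j = 0 := by
    have := congrFun hw j
    simp only [Matrix.mulVec, dotProduct, RingHom.mapMatrix_apply, Matrix.map_apply,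
      Matrix.updateRow_self, Pi.zero_apply] at this
    rw [Finset.sum_eq_single j] at this
    · simpa using this
    · intro a _ ha
      rw [Pi.single_eq_of_ne ha, map_zero, zero_mul]
    · simp
  have hwi : ∀ i, i ≠ j → ∑ a, w a * eval z (pderiv a (pderiv i f)) = 0 := by
    intro i hi
    have := congrFun hw i
    simp only [Matrix.mulVec, dotProduct, RingHom.mapMatrix_apply, Matrix.map_apply,
      Matrix.updateRow_ne hi, Pi.zero_apply, hBe] at this
    rw [← this]
    exact Finset.sum_congr rfl fun a _ => mul_comm _ _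
  have hwj2 : ∑ a, w a * eval z (pderiv a (pderiv j f)) = 0 := by
    have e1 : ∑ i, z i * ∑ a, w a * eval z (pderiv a (pderiv i f)) = 0 := by
      have e2 : ∀ a, ∑ i, z i * eval z (pderiv i (pderiv a f)) = 0 := by
        intro a
        have h3 : (pderiv a f).IsHomogeneous (k + 1) := hfh.pderiv (i := a)
        have h4 := congrArg (eval z) h3.sum_X_mul_pderiv
        rw [map_sum, map_nsmul, hsing a, smul_zero] at h4
        rw [← h4]
        exact Finset.sum_congr rfl fun i _ => by rw [map_mul, eval_X]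
      have e3 : ∀ i, z i * ∑ a, w a * eval z (pderiv a (pderiv i f))
          = ∑ a, w a * (z i * eval z (pderiv i (pderiv a f))) := by
        intro i
        rw [Finset.mul_sum]
        exact Finset.sum_congr rfl fun a _ => by rw [pderiv_comm' i a]; ring
      rw [Finset.sum_congr rfl fun i _ => e3 i, Finset.sum_comm]
      refine Finset.sum_eq_zero fun a _ => ?_
      rw [← Finset.mul_sum, e2, mul_zero]
    rw [Finset.sum_eq_single j] at e1
    · exact (mul_eq_zero.1 e1).resolve_left hj
    · intro i _ hi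
      rw [hwi i hi, mul_zero]
    · simp
  obtain ⟨a, ha⟩ := hess_kernel hN1 f hfh z hz hsing m₀ hQ w (fun i => by
    by_cases hi : i = j
    · subst hi; exact hwj2
    · exact hwi i hi)
  have ha0 : a = 0 := by
    rw [ha, Pi.smul_apply, smul_eq_mul] at hwj
    exact (mul_eq_zero.1 hwj).resolve_right hj
  exact hw0 (by rw [ha, ha0, zero_smul])

end

end Pool.Agent.N84.AF
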