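import Mathlib

/-!
# Associated forms: definitions

`V` is the space of the forms of degree `d` in the variables indexed by `σ`; a polynomial function
on `V` is a polynomial in the coefficients of the form.
-/

namespace Pool.Agent.N84.AF

open MvPolynomial

noncomputable section

/-- The exponent vectors of degree `d`. -/
abbrev Expo (σ : Type*) (d : ℕ) : Type _ := {m : σ →₀ ℕ // m.degree = d}

/-- The value at the form `f` of degree `d` of the polynomial function `P` on the space of the forms
of degree `d`. Here `P` is a polynomial in variables indexed by the exponent vectors of degree `d`,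
which stand for the coefficients of the form. -/
def value {σ : Type*} {d : ℕ} {K : Type*} [CommRing K] (P : MvPolynomial (Expo σ d) K)
    (f : MvPolynomial σ K) : K :=
  eval (fun m : Expo σ d => coeff m.1 f) P

/-- The form `f` is degenerate: its partial derivatives have a common zero different from `0`. -/
def Degenerate {σ : Type*} {K : Type*} [Field K] (f : MvPolynomial σ K) : Prop :=
  ∃ z : σ → K, z ≠ 0 ∧ ∀ i, eval z (pderiv i f) = 0

/-- `Δ` is the discriminant (up to a constant factor) of the forms of degree `d`: an irreducible
polynomial function vanishing exactly at the degenerate forms. -/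
def IsDiscriminant {σ : Type*} {K : Type*} [Field K] (d : ℕ) (Δ : MvPolynomial (Expo σ d) K) : Prop :=
  Irreducible Δ ∧ ∀ f : MvPolynomial σ K, f.IsHomogeneous d → (value Δ f = 0 ↔ Degenerate f)

/-- The Hessian determinant. -/
def hessian {σ : Type*} [Fintype σ] [DecidableEq σ] {K : Type*} [CommRing K]
    (f : MvPolynomial σ K) : MvPolynomial σ K :=
  (Matrix.of fun i j => pderiv j (pderiv i f)).det

/-- The ideal generated by the partial derivatives. -/
def gradIdeal {σ : Type*} {K : Type*} [CommRing K] (f : MvPolynomial σ K) :
    Ideal (MvPolynomial σ K) :=
  Ideal.span (Set.range fun i => pderiv i f)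

end

end Pool.Agent.N84.AF
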