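import Mathlib

/-!
# The determinant of a matrix expressing forms through the variables

If `B z = B' z = F`, the entries of `B` and `B'` being forms of degree `k`, then
`det B - det B'` lies in the ideal generated by the components of `F`.
-/

namespace Pool.Agent.N84.AF

open MvPolynomial Matrix

section ring

variable {σ : Type*} [Fintype σ] [DecidableEq σ] {R : Type*} [CommRing R]

/-- Cramer's rule for a matrix with all rows but one orthogonal to `z`. -/
theorem cross (N : Matrix σ σ R) (z : σ → R) (j : σ) (h : ∀ k, k ≠ j → N k ⬝ᵥ z = 0) (a b : σ) :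
    z b * (N.updateRow j (Pi.single a 1)).det = z a * (N.updateRow j (Pi.single b 1)).det := by
  set T := N.updateRow j (Pi.single a (1 : R)) with hT
  have h1 : T *ᵥ z = Pi.single j (z a) := by
    ext k
    by_cases hk : k = j
    · subst hk
      simp [hT, Matrix.mulVec]
    · simp [hT, Matrix.mulVec, hk, h k hk]
  have h2 : T.adjugate *ᵥ (T *ᵥ z) = T.det • z := by
    rw [Matrix.mulVec_mulVec, Matrix.adjugate_mul, Matrix.smul_mulVec, Matrix.one_mulVec]
  have h3 := congrFun h2 b
  rw [h1] at h3
  have h4 : T.updateRow j (Pi.single b (1 : R)) = N.updateRow j (Pi.single b 1) := by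
    rw [hT, Matrix.updateRow_idem]
  simp [Matrix.adjugate_apply, h4] at h3
  rw [mul_comm (z b), ← h3, mul_comm]

theorem det_updateRow_eq_sum (M : Matrix σ σ R) (j : σ) (ρ : σ → R) :
    (M.updateRow j ρ).det = ∑ a, ρ a * (M.updateRow j (Pi.single a 1)).det := by
  rw [Matrix.det_eq_sum_mul_adjugate_row _ j]
  refine Finset.sum_congr rfl fun a _ => ?_
  rw [Matrix.adjugate_apply, Matrix.updateRow_idem]
  simp

/-- A row which is an antisymmetric combination of the variables makes the determinant vanish. -/
theorem det_koszul_eq_zero (h2 : ∀ x : R, x + x = 0 → x = 0) (M : Matrix σ σ R) (z : σ → R) (j : σ)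
    (h : ∀ k, k ≠ j → M k ⬝ᵥ z = 0) (r : σ → σ → R) (hr : ∀ a b, r a b = - r b a) :
    (M.updateRow j (fun a => ∑ b, r a b * z b)).det = 0 := by
  apply h2
  have e1 : (M.updateRow j (fun a => ∑ b, r a b * z b)).det
      = ∑ a, ∑ b, r a b * (z b * (M.updateRow j (Pi.single a 1)).det) := by
    rw [det_updateRow_eq_sum]
    refine Finset.sum_congr rfl fun a _ => ?_
    rw [Finset.sum_mul]
    exact Finset.sum_congr rfl fun b _ => by ring
  have e2 : ∑ a, ∑ b, r a b * (z b * (M.updateRow j (Pi.single a 1)).det)
      = - ∑ a, ∑ b, r a b * (z b * (M.updateRow j (Pi.single a 1)).det) := by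
    conv_lhs => rw [Finset.sum_comm]
    rw [← Finset.sum_neg_distrib]
    refine Finset.sum_congr rfl fun a _ => ?_
    rw [← Finset.sum_neg_distrib]
    refine Finset.sum_congr rfl fun b _ => ?_
    rw [cross M z j h b a, hr b a]
    ring
  rw [e1]
  nth_rewrite 1 [e2]
  simp

end ring

section poly

variable {σ : Type*} [Fintype σ] [DecidableEq σ] {K : Type*} [Field K] [CharZero K]

/-- Homogeneous relations between the variables are of Koszul type. -/
theorem koszul_rep (k : ℕ) (ρ : σ → MvPolynomial σ K) (hρ : ∀ a, (ρ a).IsHomogeneous k)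
    (h0 : ∑ a, ρ a * X a = 0) :
    ∃ r : σ → σ → MvPolynomial σ K, (∀ a b, r a b = - r b a) ∧
      ρ = fun a => ∑ b, r a b * X b := by
  refine ⟨fun a b => C ((k + 1 : K)⁻¹) * (pderiv b (ρ a) - pderiv a (ρ b)), ?_, ?_⟩
  · intro a b; ring
  · have hk : (k + 1 : K) ≠ 0 := by exact_mod_cast Nat.succ_ne_zero k
    funext a
    have e1 : ∑ b, X b * pderiv b (ρ a) = (k : MvPolynomial σ K) * ρ a := by
      rw [(hρ a).sum_X_mul_pderiv]; simp
    have e2 : ∑ b, pderiv a (ρ b) * X b + ρ a = 0 := by
      have := congrArg (pderiv a) h0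
      rw [map_sum, map_zero] at this
      rw [← this]
      simp only [Derivation.leibniz, pderiv_X, smul_eq_mul]
      rw [Finset.sum_add_distrib, add_comm]
      congr 1
      · rw [Finset.sum_eq_single a] <;> simp +contextual
      · exact Finset.sum_congr rfl fun b _ => by ring
    have e3 : ∑ b, C ((k + 1 : K)⁻¹) * (pderiv b (ρ a) - pderiv a (ρ b)) * X b
        = C ((k + 1 : K)⁻¹) * ((∑ b, X b * pderiv b (ρ a)) - ∑ b, pderiv a (ρ b) * X b) := by
      rw [← Finset.sum_sub_distrib, Finset.mul_sum]
      exact Finset.sum_congr rfl fun b _ => by ring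
    rw [e3, e1]
    have e4 : ∑ b, pderiv a (ρ b) * X b = - ρ a := by linear_combination e2
    rw [e4]
    have e5 : (k : MvPolynomial σ K) = C (k : K) := by simp
    rw [e5, sub_neg_eq_add]
    have e6 : C (k : K) * ρ a + ρ a = C ((k : K) + 1) * ρ a := by
      rw [map_add, map_one]; ring
    rw [e6, ← mul_assoc, ← map_mul, inv_mul_cancel₀ hk, map_one, one_mul]

theorem det_updateRow_mem (k : ℕ) (M : Matrix σ σ (MvPolynomial σ K)) (F : σ → MvPolynomial σ K)
    (j : σ) (h : ∀ i, i ≠ j → ∑ a, M i a * X a = F i) (ρ : σ → MvPolynomial σ K)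
    (hρ : ∀ a, (ρ a).IsHomogeneous k) (h0 : ∑ a, ρ a * X a = 0) :
    (M.updateRow j ρ).det ∈ Ideal.span (Set.range F) := by
  set I := Ideal.span (Set.range F) with hI
  obtain ⟨r, hr, hρr⟩ := koszul_rep k ρ hρ h0
  let q := Ideal.Quotient.mk I
  rw [← Ideal.Quotient.eq_zero_iff_mem]
  change q _ = 0
  rw [RingHom.map_det]
  have e1 : q.mapMatrix (M.updateRow j ρ)
      = (q.mapMatrix M).updateRow j (fun a => ∑ b, q (r a b) * q (X b)) := by
    ext a b
    by_cases ha : a = j
    · subst ha
      simp only [RingHom.mapMatrix_apply, Matrix.map_apply, Matrix.updateRow_self]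
      rw [hρr]
      simp only [map_sum, map_mul]
    · simp [ha]
  rw [e1]
  apply det_koszul_eq_zero
  · intro x hx
    obtain ⟨y, rfl⟩ := Ideal.Quotient.mk_surjective x
    have h3 : q (C (2 : K)⁻¹ * (y + y)) = 0 := by
      rw [map_mul]
      have : q (y + y) = 0 := by rw [map_add]; exact hx
      rw [this, mul_zero]
    have h4 : C (2 : K)⁻¹ * (y + y) = y := by
      have : y + y = C (2 : K) * y := by
        have : (C (2 : K) : MvPolynomial σ K) = 2 := map_ofNat C 2
        rw [this]; ring
      rw [this, ← mul_assoc, ← map_mul, inv_mul_cancel₀ two_ne_zero, map_one, one_mul]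
    rwa [h4] at h3
  · intro i hi
    have : (q.mapMatrix M) i ⬝ᵥ (fun b => q (X b)) = q (F i) := by
      rw [← h i hi]
      simp [dotProduct]
    rw [this]
    exact Ideal.Quotient.eq_zero_iff_mem.2 (Ideal.subset_span ⟨i, rfl⟩)
  · intro a b
    rw [hr a b, map_neg]

/-- The determinant of a matrix expressing forms through the variables does not depend on the
matrix, modulo the forms. -/
theorem det_sub_mem (k : ℕ) (B B' : Matrix σ σ (MvPolynomial σ K)) (F : σ → MvPolynomial σ K)
    (hB : ∀ i j, (B i j).IsHomogeneous k) (hB' : ∀ i j, (B' i j).IsHomogeneous k)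
    (h : ∀ i, ∑ a, B i a * X a = F i) (h' : ∀ i, ∑ a, B' i a * X a = F i) :
    B'.det - B.det ∈ Ideal.span (Set.range F) := by
  classical
  let T : Finset σ → Matrix σ σ (MvPolynomial σ K) := fun s i => if i ∈ s then B' i else B i
  have hT : ∀ s i, ∑ a, T s i a * X a = F i := by
    intro s i
    by_cases hi : i ∈ s
    · simp only [T, hi, if_true]; exact h' i
    · simp only [T, hi, if_false]; exact h i
  have key : ∀ s : Finset σ, (T s).det - B.det ∈ Ideal.span (Set.range F) := by
    intro s
    induction s using Finset.induction_on with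
    | empty => simp [T]
    | insert j s hj ih =>
      have e1 : T (insert j s) = (T s).updateRow j (B j + fun a => B' j a - B j a) := by
        funext i
        by_cases hi : i = j
        · subst hi
          refine Eq.trans ?_ (Matrix.updateRow_self (M := T s)).symm
          simp only [T, Finset.mem_insert_self, if_true]
          funext a
          change B' i a = B i a + (B' i a - B i a)
          ring
        · rw [Matrix.updateRow_ne hi]
          simp [T, hi]
      have e2 : (T s).updateRow j (B j) = T s := by
        funext i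
        by_cases hi : i = j
        · subst hi
          refine Eq.trans (Matrix.updateRow_self (M := T s)) ?_
          simp [T, hj]
        · rw [Matrix.updateRow_ne hi]
      rw [e1, Matrix.det_updateRow_add, e2]
      have e3 := det_updateRow_mem k (T s) F j (fun i _ => hT s i) (fun a => B' j a - B j a)
        (fun a => (hB' j a).sub (hB j a)) (by
          have : ∀ a, (B' j a - B j a) * X a = B' j a * X a - B j a * X a := fun a => by ring
          simp only [this, Finset.sum_sub_distrib, h, h', sub_self])
      have e4 : (T s).det + ((T s).updateRow j fun a => B' j a - B j a).det - B.det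
          = ((T s).det - B.det) + ((T s).updateRow j fun a => B' j a - B j a).det := by ring
      rw [e4]
      exact Ideal.add_mem _ ih e3
  have := key Finset.univ
  have e5 : T Finset.univ = B' := by
    funext i; simp [T]
  rwa [e5] at this

end poly

end Pool.Agent.N84.AF
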