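import Pool.Agent.N84.AF.Scale

/-!
# Existence and uniqueness of the discriminant
-/

namespace Pool.Agent.N84.AF

open MvPolynomial

noncomputable section

set_option linter.unusedSectionVars false

variable {σ : Type*} [Fintype σ] [DecidableEq σ] {K : Type*} [Field K] {k : ℕ}

theorem exists_linear (z₁ z₂ : σ → K) (h₁ : z₁ ≠ 0) (h₂ : z₂ ≠ 0) :
    ∃ m : σ → K, ∑ i, m i * z₁ i ≠ 0 ∧ ∑ i, m i * z₂ i ≠ 0 := by
  obtain ⟨i, hi⟩ := Function.ne_iff.1 h₁
  obtain ⟨j, hj⟩ := Function.ne_iff.1 h₂
  rw [Pi.zero_apply] at hi hj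
  have e : ∀ (a : σ) (z : σ → K), ∑ l, (Pi.single a 1 : σ → K) l * z l = z a := by
    intro a z
    rw [Finset.sum_eq_single a]
    · simp
    · intro l _ hl
      rw [Pi.single_eq_of_ne hl, zero_mul]
    · simp
  by_cases h3 : z₁ j = 0
  · by_cases h4 : z₂ i = 0
    · refine ⟨Pi.single i 1 + Pi.single j 1, ?_, ?_⟩
      · simp only [Pi.add_apply, add_mul, Finset.sum_add_distrib, e, h3, add_zero]
        exact hi
      · simp only [Pi.add_apply, add_mul, Finset.sum_add_distrib, e, h4, zero_add]
        exact hj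
    · exact ⟨Pi.single i 1, by rw [e]; exact hi, by rw [e]; exact h4⟩
  · exact ⟨Pi.single j 1, by rw [e]; exact h3, by rw [e]; exact hj⟩

theorem eval_scaled (z : σ → K) (s : K) (r : ℕ) (F : MvPolynomial σ K) (hF : F.IsHomogeneous r) :
    eval (fun l => z l * s) F = eval z F * s ^ r := by
  have h := aeval_scaled (τ := σ) z (C s) r F hF
  have h2 := congrArg (eval (0 : σ → K)) h
  rw [map_mul, eval_C, map_pow, eval_C] at h2
  rw [← h2]
  have : (eval (0 : σ → K)).comp (aeval (fun l => C (z l) * C s) : MvPolynomial σ K →ₐ[K] MvPolynomial σ K).toRingHom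
      = eval (fun l => z l * s) := by
    apply MvPolynomial.ringHom_ext
    · intro a; simp
    · intro l; simp
  exact (DFunLike.congr_fun this F).symm

/-- The set of the degenerate forms is irreducible. -/
theorem path [CharZero K] (c₁ c₂ : Expo σ (k + 2) → K) (h₁ : Degenerate (form c₁))
    (h₂ : Degenerate (form c₂)) (a b : MvPolynomial (Expo σ (k + 2)) K) (ha : eval c₁ a ≠ 0)
    (hb : eval c₂ b ≠ 0) : ∃ c, Degenerate (form c) ∧ eval c a ≠ 0 ∧ eval c b ≠ 0 := by
  obtain ⟨y₁, hy₁, hs₁⟩ := h₁
  obtain ⟨y₂, hy₂, hs₂⟩ := h₂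
  obtain ⟨m, hm₁, hm₂⟩ := exists_linear y₁ y₂ hy₁ hy₂
  have hh : ∀ (c : Expo σ (k + 2) → K) i, (pderiv i (form c)).IsHomogeneous (k + 1) :=
    fun c i => (form_homogeneous c).pderiv (i := i)
  set z₁ : σ → K := fun l => y₁ l * (∑ i, m i * y₁ i)⁻¹ with hz₁
  set z₂ : σ → K := fun l => y₂ l * (∑ i, m i * y₂ i)⁻¹ with hz₂
  have hz₁m : ∑ i, m i * z₁ i = 1 := by
    simp only [hz₁, ← mul_assoc, ← Finset.sum_mul]
    exact mul_inv_cancel₀ hm₁
  have hz₂m : ∑ i, m i * z₂ i = 1 := by
    simp only [hz₂, ← mul_assoc, ← Finset.sum_mul]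
    exact mul_inv_cancel₀ hm₂
  have hs₁' : ∀ i, eval z₁ (pderiv i (form c₁)) = 0 := by
    intro i
    rw [hz₁, eval_scaled y₁ _ (k + 1) _ (hh c₁ i), hs₁ i, zero_mul]
  have hs₂' : ∀ i, eval z₂ (pderiv i (form c₂)) = 0 := by
    intro i
    rw [hz₂, eval_scaled y₂ _ (k + 1) _ (hh c₂ i), hs₂ i, zero_mul]
  -- the path
  let CC : K →+* Polynomial K := Polynomial.C
  set p : σ → Polynomial K := fun i => CC (z₁ i) + Polynomial.X * CC (z₂ i - z₁ i) with hp
  have hpm : ∑ i, CC (m i) * p i = 1 := by
    have e1 : ∀ i, CC (m i) * p i = CC (m i * z₁ i)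
        + Polynomial.X * (CC (m i * z₂ i) - CC (m i * z₁ i)) := by
      intro i
      rw [hp]
      simp only [map_sub, map_mul]
      ring
    rw [Finset.sum_congr rfl fun i _ => e1 i, Finset.sum_add_distrib, ← Finset.mul_sum,
      Finset.sum_sub_distrib, ← map_sum, ← map_sum, hz₁m, hz₂m, sub_self, mul_zero, add_zero, map_one]
  set F : MvPolynomial σ (Polynomial K) :=
    map CC (form c₁) + C Polynomial.X * (map CC (form c₂) - map CC (form c₁)) with hF
  have hFh : F.IsHomogeneous (k + 2) := by
    have e1 := (form_homogeneous c₁).map CC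
    have e2 := (form_homogeneous c₂).map CC
    exact e1.add ((e2.sub e1).C_mul _)
  set u : σ → Polynomial K := fun i => eval p (pderiv i F) with hu
  set w : Polynomial K := ∑ i, u i * p i with hw
  set q : K := (k + 1) / (k + 2) with hq
  have hk2 : (k + 2 : K) ≠ 0 := by exact_mod_cast Nat.succ_ne_zero (k + 1)
  set l : σ → Polynomial K := fun i => u i - CC q * w * CC (m i) with hl
  set Mf : MvPolynomial σ (Polynomial K) := ∑ i, C (CC (m i)) * X i with hMf
  set Lf' : MvPolynomial σ (Polynomial K) := ∑ i, C (l i) * X i with hLf'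
  set G : MvPolynomial σ (Polynomial K) := F - Mf ^ (k + 1) * Lf' with hG
  have hlin : ∀ v : σ → Polynomial K, (∑ i, C (v i) * X i : MvPolynomial σ (Polynomial K)).IsHomogeneous 1 :=
    fun v => IsHomogeneous.sum _ _ _ fun i _ => (isHomogeneous_C_mul_X _ _)
  have hGh : G.IsHomogeneous (k + 2) := by
    have e1 := ((hlin fun i => CC (m i)).pow (k + 1)).mul (hlin l)
    rw [one_mul] at e1
    exact hFh.sub e1
  have hdl : ∀ (v : σ → Polynomial K) (j : σ),
      pderiv j (∑ i, C (v i) * X i : MvPolynomial σ (Polynomial K)) = C (v j) := by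
    intro v j
    rw [map_sum, Finset.sum_eq_single j]
    · rw [pderiv_C_mul, pderiv_X_self, mul_one]
    · intro i _ hi
      rw [pderiv_C_mul, pderiv_X_of_ne hi, mul_zero]
    · simp
  have hMe : eval p Mf = 1 := by
    rw [hMf, map_sum, ← hpm]
    exact Finset.sum_congr rfl fun i _ => by rw [map_mul, eval_C, eval_X]
  have hLe : eval p Lf' = CC ((k + 2 : K)⁻¹) * w := by
    have e1 : eval p Lf' = ∑ i, l i * p i := by
      rw [hLf', map_sum]
      exact Finset.sum_congr rfl fun i _ => by rw [map_mul, eval_C, eval_X]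
    have e2 : ∑ i, l i * p i = w - CC q * w * ∑ i, CC (m i) * p i := by
      rw [hw, Finset.mul_sum, ← Finset.sum_sub_distrib, ← hw]
      exact Finset.sum_congr rfl fun i _ => by rw [hl]; ring
    have e3 : (1 : K) - q = (k + 2 : K)⁻¹ := by
      rw [hq]; field_simp; ring
    rw [e1, e2, hpm, mul_one, ← e3, map_sub, map_one]
    ring
  have hsing : ∀ j, eval p (pderiv j G) = 0 := by
    intro j
    rw [hG, map_sub, Derivation.leibniz, Derivation.leibniz_pow, hMf, hLf', hdl, hdl, ← hMf, ← hLf']
    simp only [smul_eq_mul, nsmul_eq_mul, map_sub, map_add, map_mul, map_pow, eval_C, hMe, hLe,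
      one_pow, one_mul]
    have e4 : eval p (pderiv j F) = u j := rfl
    have e5 : l j = u j - CC q * w * CC (m j) := rfl
    rw [e4, e5]
    have e6 : ((k + 1 : ℕ) : MvPolynomial σ (Polynomial K)) = C (CC (k + 1 : K)) := by
      simp [CC]
    rw [e6, eval_C, hq, div_eq_mul_inv, map_mul]
    ring
  set ct' : Expo σ (k + 2) → Polynomial K := fun e => coeff e.1 G with hct'
  have hform : ∀ t : K, form (fun e => Polynomial.eval t (ct' e)) = map (Polynomial.evalRingHom t) G := by
    intro t
    have e1 : (fun e : Expo σ (k + 2) => Polynomial.eval t (ct' e))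
        = fun e => coeff e.1 (map (Polynomial.evalRingHom t) G) := by
      funext e
      rw [coeff_map]; rfl
    rw [e1]
    exact form_coeff (hGh.map _)
  have heval : ∀ (t : K) (Q : MvPolynomial σ (Polynomial K)),
      eval (fun i => Polynomial.eval t (p i)) (map (Polynomial.evalRingHom t) Q)
        = Polynomial.eval t (eval p Q) := by
    intro t Q
    have : (eval (fun i => Polynomial.eval t (p i))).comp (map (Polynomial.evalRingHom t))
        = (Polynomial.evalRingHom t).comp (eval p) := by
      apply MvPolynomial.ringHom_ext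
      · intro a; simp
      · intro i; simp
    exact DFunLike.congr_fun this Q
  have hdegen : ∀ t : K, Degenerate (form fun e => Polynomial.eval t (ct' e)) := by
    intro t
    refine ⟨fun i => Polynomial.eval t (p i), ?_, fun i => ?_⟩
    · intro h0
      have e1 := congrArg (Polynomial.eval t) hpm
      rw [Polynomial.eval_finsetSum, Polynomial.eval_one] at e1
      have e2 : ∀ i, Polynomial.eval t (p i) = 0 := fun i => congrFun h0 i
      rw [Finset.sum_eq_zero fun i _ => by rw [Polynomial.eval_mul, e2 i, mul_zero]] at e1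
      exact zero_ne_one e1
    · rw [hform, pderiv_map, heval, hsing, Polynomial.eval_zero]
  have hends : ∀ (t : K) (c : Expo σ (k + 2) → K), map (Polynomial.evalRingHom t) F = form c →
      (∀ i, eval (fun i => Polynomial.eval t (p i)) (pderiv i (form c)) = 0) →
      (fun e => Polynomial.eval t (ct' e)) = c := by
    intro t c hc hs
    have hu0 : ∀ i, Polynomial.eval t (u i) = 0 := by
      intro i
      have := heval t (pderiv i F)
      rw [← pderiv_map, hc, hs i] at this
      exact this.symm
    have hw0 : Polynomial.eval t w = 0 := by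
      rw [hw, Polynomial.eval_finsetSum]
      exact Finset.sum_eq_zero fun i _ => by rw [Polynomial.eval_mul, hu0, zero_mul]
    have hl0 : ∀ i, Polynomial.eval t (l i) = 0 := by
      intro i
      rw [hl]
      simp only [Polynomial.eval_sub, Polynomial.eval_mul, hu0, hw0]
      ring
    have hL0 : map (Polynomial.evalRingHom t) Lf' = 0 := by
      rw [hLf', map_sum]
      refine Finset.sum_eq_zero fun i _ => ?_
      rw [map_mul, map_C]
      have : (Polynomial.evalRingHom t) (l i) = 0 := hl0 i
      rw [this, map_zero, zero_mul]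
    have e1 := hform t
    rw [hG, map_sub, map_mul, hL0, mul_zero, sub_zero, hc] at e1
    funext e
    have e2 := congrArg (coeff e.1) e1
    rwa [coeff_form, coeff_form] at e2
  have hmapid : ∀ (t : K) (Q : MvPolynomial σ K), map (Polynomial.evalRingHom t) (map CC Q) = Q := by
    intro t Q
    rw [MvPolynomial.map_map]
    have : (Polynomial.evalRingHom t).comp CC = RingHom.id K := by
      ext a; simp [CC]
    rw [this, MvPolynomial.map_id]
  have h0 : (fun e => Polynomial.eval 0 (ct' e)) = c₁ := by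
    apply hends
    · rw [hF, map_add, map_mul, hmapid, map_C]; simp
    · intro i
      have : (fun i => Polynomial.eval (0 : K) (p i)) = z₁ := by
        funext i; simp [hp, CC]
      rw [this]; exact hs₁' i
  have h1 : (fun e => Polynomial.eval 1 (ct' e)) = c₂ := by
    apply hends
    · rw [hF, map_add, map_mul, map_sub, hmapid, hmapid, map_C]; simp
    · intro i
      have : (fun i => Polynomial.eval (1 : K) (p i)) = z₂ := by
        funext i; simp [hp, CC]
      rw [this]; exact hs₂' i
  have hpoly : ∀ (t : K) (R : MvPolynomial (Expo σ (k + 2)) K),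
      Polynomial.eval t (aeval ct' R) = eval (fun e => Polynomial.eval t (ct' e)) R := by
    intro t R
    have : (Polynomial.evalRingHom t).comp (aeval ct' : MvPolynomial _ K →ₐ[K] _).toRingHom
        = eval (fun e => Polynomial.eval t (ct' e)) := by
      apply MvPolynomial.ringHom_ext
      · intro a; simp
      · intro e; simp
    exact DFunLike.congr_fun this R
  have hane : (aeval ct' a : Polynomial K) ≠ 0 := by
    intro h
    have := hpoly 0 a
    rw [h, Polynomial.eval_zero, h0] at this
    exact ha this.symm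
  have hbne : (aeval ct' b : Polynomial K) ≠ 0 := by
    intro h
    have := hpoly 1 b
    rw [h, Polynomial.eval_zero, h1] at this
    exact hb this.symm
  obtain ⟨t, ht⟩ : ∃ t : K, Polynomial.eval t (aeval ct' a * aeval ct' b) ≠ 0 := by
    by_contra hcon
    push Not at hcon
    exact mul_ne_zero hane hbne (Polynomial.funext fun t => by rw [hcon t, Polynomial.eval_zero])
  rw [Polynomial.eval_mul, hpoly, hpoly] at ht
  exact ⟨_, hdegen t, left_ne_zero_of_mul ht, right_ne_zero_of_mul ht⟩

/-- There is a discriminant. -/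
theorem exists_disc [CharZero K] [IsAlgClosed K] (hσ : 1 ≤ Fintype.card σ) :
    ∃ Δ : MvPolynomial (Expo σ (k + 2)) K, Irreducible Δ ∧
      ∀ c, eval c Δ = 0 ↔ Degenerate (form c) := by
  classical
  obtain ⟨c₂, hc₂⟩ := fermat (σ := σ) (K := K) (k := k)
  obtain ⟨P, D, hprim, hD, hPD, hker, hval⟩ := global_pres c₂ hc₂
  have hD0 : D ≠ 0 := by
    rintro rfl
    exact hD c₂ hc₂ (map_zero _)
  have hDu : ¬ IsUnit D := by
    intro hu
    obtain ⟨a, ha, haD⟩ := (MvPolynomial.isUnit_iff_eq_C_of_isReduced).1 hu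
    obtain ⟨v, hv, -⟩ := exists_mu (form_homogeneous c₂) hc₂
    have hv0 : ∀ j, v j = 0 := by
      intro j
      apply no_poly hσ j (C a⁻¹ * P j) _ c₂ hc₂ v hv
      intro c hc w hw
      rw [map_mul, eval_C, ← hPD c hc w hw j, haD, eval_C, ← mul_assoc, inv_mul_cancel₀ ha.ne_zero,
        one_mul]
    have := hv.2
    rw [Lf_apply, Finset.sum_eq_zero fun j _ => by rw [hv0 j, zero_mul]] at this
    exact zero_ne_one this
  obtain ⟨Δ, hΔ, hΔD⟩ := WfDvdMonoid.exists_irreducible_factor hDu hD0
  have hΔp : Prime Δ := UniqueFactorizationMonoid.irreducible_iff_prime.1 hΔ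
  have hdeg : ∀ c, eval c Δ = 0 → Degenerate (form c) := by
    intro c hc
    by_contra hn
    obtain ⟨E, hE⟩ := hΔD
    apply hD c hn
    rw [hE, map_mul, hc, zero_mul]
  have htd : 1 ≤ Δ.totalDegree := by
    by_contra h
    have h0 : Δ.totalDegree = 0 := by omega
    have ha := (totalDegree_eq_zero_iff_eq_C).1 h0
    apply hΔp.not_isUnit
    rw [ha]
    have ha0 : coeff 0 Δ ≠ 0 := by
      intro h1
      apply hΔp.ne_zero
      rw [ha, h1, map_zero]
    exact (isUnit_iff_ne_zero.2 ha0).map C
  have hvan : ∀ n : ℕ, ∀ R : MvPolynomial (Expo σ (k + 2)) K, R ≠ 0 → R.totalDegree ≤ n →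
      (∀ c, Degenerate (form c) → eval c R = 0) → ∀ c, Degenerate (form c) → eval c Δ = 0 := by
    intro n
    induction n with
    | zero =>
      intro R hR hRn hRv
      obtain ⟨R', hR'⟩ := dvd_of_vanish Δ R hΔp fun c hc => hRv c (hdeg c hc)
      have hR'0 : R' ≠ 0 := by rintro rfl; rw [mul_zero] at hR'; exact hR hR'
      rw [hR', totalDegree_mul_of_isDomain hΔp.ne_zero hR'0] at hRn
      omega
    | succ n ih =>
      intro R hR hRn hRv
      obtain ⟨R', hR'⟩ := dvd_of_vanish Δ R hΔp fun c hc => hRv c (hdeg c hc)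
      have hR'0 : R' ≠ 0 := by rintro rfl; rw [mul_zero] at hR'; exact hR hR'
      by_cases hv' : ∀ c, Degenerate (form c) → eval c R' = 0
      · refine ih R' hR'0 ?_ hv'
        rw [hR', totalDegree_mul_of_isDomain hΔp.ne_zero hR'0] at hRn
        omega
      · push Not at hv'
        obtain ⟨b, hb, hb'⟩ := hv'
        intro c hc
        by_contra hne
        obtain ⟨e, he, he1, he2⟩ := path c b hc hb Δ R' hne hb'
        have := hRv e he
        rw [hR', map_mul] at this
        exact (mul_ne_zero he1 he2) this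
  obtain ⟨P₂, D₂, h1, -, h3⟩ := local_pres c₂ hc₂
  have hD₂ : D₂ ≠ 0 := by
    rintro rfl
    rw [map_zero] at h1
    exact zero_ne_one h1
  exact ⟨Δ, hΔ, fun c => ⟨hdeg c, hvan _ D₂ hD₂ le_rfl h3 c⟩⟩

/-- The discriminant is unique up to a constant factor. -/
theorem disc_unique [IsAlgClosed K] (Δ Δ' : MvPolynomial (Expo σ (k + 2)) K) (h : Irreducible Δ)
    (h' : Irreducible Δ') (hh : ∀ c, eval c Δ = 0 ↔ eval c Δ' = 0) : Associated Δ Δ' := by
  have hp : Prime Δ := UniqueFactorizationMonoid.irreducible_iff_prime.1 h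
  have hp' : Prime Δ' := UniqueFactorizationMonoid.irreducible_iff_prime.1 h'
  exact associated_of_dvd_dvd (dvd_of_vanish Δ Δ' hp fun c hc => (hh c).1 hc)
    (dvd_of_vanish Δ' Δ hp' fun c hc => (hh c).2 hc)

end

end Pool.Agent.N84.AF
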