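import Pool.Agent.N84.AF.Lam

/-!
# Duality for forms without common zeros

`F i` are forms of degree `k + 1` and the matrix `A` expresses the powers `X j ^ (m + k + 1)`
through them. Then the functional `tau` (a coefficient of the product with `det A`) kills the ideal
of the `F i`, has the value `1` at `det B`, when `B z = F`, and every functional killing the ideal is
a multiple of it in the degree `card σ * k`.
-/

namespace Pool.Agent.N84.AF

open MvPolynomial Matrix

noncomputable section

variable {σ : Type*} [Fintype σ] [DecidableEq σ] {K : Type*} [Field K]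

set_option linter.unusedSectionVars false

theorem isHomogeneous_det {τ : Type*} {R : Type*} [CommRing R] (m : ℕ)
    (A : Matrix σ σ (MvPolynomial τ R)) (hA : ∀ i j, (A i j).IsHomogeneous m) :
    A.det.IsHomogeneous (Fintype.card σ * m) := by
  rw [Matrix.det_apply]
  refine IsHomogeneous.sum _ _ _ fun s _ => ?_
  have h1 : (∏ i, A (s i) i).IsHomogeneous (∑ _i : σ, m) :=
    IsHomogeneous.prod _ _ _ fun i _ => hA _ _
  rw [Finset.sum_const, Finset.card_univ, smul_eq_mul] at h1
  rcases Int.units_eq_one_or (Equiv.Perm.sign s) with h | h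
  · rw [h, one_smul]; exact h1
  · rw [h]
    have : ((-1 : ℤˣ) • ∏ i, A (s i) i) = - ∏ i, A (s i) i := by
      rw [Units.smul_def]; simp
    rw [this]; exact h1.neg

/-- the top exponent -/
def tt (σ : Type*) [Fintype σ] (N : ℕ) : σ →₀ ℕ := Finsupp.equivFunOnFinite.symm fun _ => N

theorem tt_apply (N : ℕ) (i : σ) : tt σ N i = N := rfl

theorem tt_degree (N : ℕ) : (tt σ N).degree = Fintype.card σ * N := by
  rw [Finsupp.degree_eq_sum]
  simp [tt_apply]

theorem coeff_tt_mul_pow (N : ℕ) (q : MvPolynomial σ K) (j : σ) (M : ℕ) (h : N < M) :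
    coeff (tt σ N) (q * X j ^ M) = 0 := by
  rw [X_pow_eq_monomial, coeff_mul_monomial', if_neg]
  intro hle
  have := hle j
  rw [tt_apply, Finsupp.single_eq_same] at this
  omega

theorem coeff_tt_of_mem (N : ℕ) (p : MvPolynomial σ K) (M : ℕ) (h : N < M)
    (hp : p ∈ Ideal.span (Set.range fun j : σ => (X j ^ M : MvPolynomial σ K))) :
    coeff (tt σ N) p = 0 := by
  obtain ⟨c, rfl⟩ := Ideal.mem_span_range_iff_exists_fun.1 hp
  rw [coeff_sum]
  exact Finset.sum_eq_zero fun j _ => coeff_tt_mul_pow N _ j M h

/-- the functional attached to a matrix -/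
def tau (N : ℕ) (A : Matrix σ σ (MvPolynomial σ K)) : MvPolynomial σ K →ₗ[K] K where
  toFun h := coeff (tt σ N) (h * A.det)
  map_add' p q := by rw [add_mul, coeff_add]
  map_smul' c p := by rw [smul_mul_assoc, coeff_smul]; rfl

theorem tau_apply (N : ℕ) (A : Matrix σ σ (MvPolynomial σ K)) (h : MvPolynomial σ K) :
    tau N A h = coeff (tt σ N) (h * A.det) := rfl

theorem adj_sum {R : Type*} [CommRing R] (A : Matrix σ σ R) (F : σ → R) (i : σ) :
    F i * A.det = ∑ j, A.adjugate i j * ∑ l, A j l * F l := by
  have h2 : A.adjugate *ᵥ (A *ᵥ F) = A.det • F := by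
    rw [Matrix.mulVec_mulVec, Matrix.adjugate_mul, Matrix.smul_mulVec, Matrix.one_mulVec]
  have h3 := congrFun h2 i
  rw [Pi.smul_apply, smul_eq_mul, mul_comm] at h3
  rw [← h3]; rfl

variable {k m : ℕ} {F : σ → MvPolynomial σ K} {A : Matrix σ σ (MvPolynomial σ K)}

theorem tau_kill (hAF : ∀ j, ∑ i, A j i * F i = X j ^ (m + k + 1)) (h : MvPolynomial σ K) (i : σ) :
    tau (m + k) A (h * F i) = 0 := by
  rw [tau_apply, mul_assoc, adj_sum A F i, Finset.mul_sum, coeff_sum]
  refine Finset.sum_eq_zero fun j _ => ?_
  rw [hAF j, ← mul_assoc]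
  exact coeff_tt_mul_pow _ _ j _ (by omega)

theorem tau_det [CharZero K] (hA : ∀ i j, (A i j).IsHomogeneous m)
    (hAF : ∀ j, ∑ i, A j i * F i = X j ^ (m + k + 1))
    (B : Matrix σ σ (MvPolynomial σ K)) (hB : ∀ i j, (B i j).IsHomogeneous k)
    (hBF : ∀ i, ∑ a, B i a * X a = F i) : tau (m + k) A B.det = 1 := by
  have h1 : B.det * A.det = (A * B).det := by rw [Matrix.det_mul, mul_comm]
  rw [tau_apply, h1]
  set G : σ → MvPolynomial σ K := fun j => X j ^ (m + k + 1) with hG
  have h2 : (A * B).det - (Matrix.diagonal fun j => (X j ^ (m + k) : MvPolynomial σ K)).det ∈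
      Ideal.span (Set.range G) := by
    apply det_sub_mem (m + k)
    · intro i j
      by_cases hij : i = j
      · subst hij
        rw [Matrix.diagonal_apply_eq]
        exact isHomogeneous_X_pow _ _
      · rw [Matrix.diagonal_apply_ne _ hij]
        exact isHomogeneous_zero _ _ _
    · intro i j
      rw [Matrix.mul_apply]
      exact IsHomogeneous.sum _ _ _ fun l _ => (hA i l).mul (hB l j)
    · intro i
      rw [Finset.sum_eq_single i]
      · rw [Matrix.diagonal_apply_eq, hG]
        simp only [pow_succ]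
      · intro j _ hj
        rw [Matrix.diagonal_apply_ne _ (Ne.symm hj), zero_mul]
      · simp
    · intro j
      rw [hG]
      simp only
      rw [← hAF j]
      simp only [Matrix.mul_apply, Finset.sum_mul]
      rw [Finset.sum_comm]
      refine Finset.sum_congr rfl fun i _ => ?_
      rw [← hBF i, Finset.mul_sum]
      exact Finset.sum_congr rfl fun a _ => by ring
  have h3 := coeff_tt_of_mem (m + k) _ (m + k + 1) (by omega) h2
  rw [coeff_sub, sub_eq_zero] at h3
  rw [h3, Matrix.det_diagonal]
  have h4 : (∏ j : σ, (X j ^ (m + k) : MvPolynomial σ K)) = monomial (tt σ (m + k)) 1 := by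
    rw [monomial_eq, map_one, one_mul, Finsupp.prod_fintype]
    · rfl
    · intro i; simp
  rw [h4, coeff_monomial, if_pos rfl]

theorem tau_deg (hA : ∀ i j, (A i j).IsHomogeneous m) {r : ℕ} {h : MvPolynomial σ K}
    (hh : h.IsHomogeneous r) (hr : r ≠ Fintype.card σ * k) : tau (m + k) A h = 0 := by
  rw [tau_apply]
  apply (hh.mul (isHomogeneous_det m A hA)).coeff_eq_zero
  rw [tt_degree, mul_add]
  omega

theorem kill_ideal (L : MvPolynomial σ K →ₗ[K] K) (hL : ∀ h i, L (h * F i) = 0)
    (p : MvPolynomial σ K) (hp : p ∈ Ideal.span (Set.range F)) : L p = 0 := by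
  obtain ⟨c, rfl⟩ := Ideal.mem_span_range_iff_exists_fun.1 hp
  rw [map_sum]
  exact Finset.sum_eq_zero fun j _ => hL _ _

/-- **Duality**: every functional killing the ideal is a multiple of `tau` in the top degree. -/
theorem duality [CharZero K] (hF : ∀ i, (F i).IsHomogeneous (k + 1))
    (hA : ∀ i j, (A i j).IsHomogeneous m)
    (hAF : ∀ j, ∑ i, A j i * F i = X j ^ (m + k + 1))
    (B : Matrix σ σ (MvPolynomial σ K)) (hB : ∀ i j, (B i j).IsHomogeneous k)
    (hBF : ∀ i, ∑ a, B i a * X a = F i)
    (L : MvPolynomial σ K →ₗ[K] K) (hL : ∀ h i, L (h * F i) = 0)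
    (h : MvPolynomial σ K) (hh : h.IsHomogeneous (Fintype.card σ * k)) :
    L h = tau (m + k) A h * L B.det := by
  set T := tau (m + k) A with hT
  choose b hb hbF using fun i => exists_bez k (F i) (hF i)
  set bm : Matrix σ σ (MvPolynomial (σ ⊕ σ) K) := Matrix.of b with hbm
  set q := bm.det with hq
  have hqh : q.IsHomogeneous (Fintype.card σ * k) := isHomogeneous_det k bm fun i j => hb i j
  -- first identity
  have h1 : Lam L T ((rename Sum.inl h - rename Sum.inr h) * q) = 0 := by
    obtain ⟨c, hc⟩ := Ideal.mem_span_range_iff_exists_fun.1 (rename_sub_mem h)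
    rw [← hc, Finset.sum_mul, map_sum]
    refine Finset.sum_eq_zero fun j _ => ?_
    rw [mul_assoc, adj_sum bm (fun j => X (Sum.inl j) - X (Sum.inr j)) j, Finset.mul_sum, map_sum]
    refine Finset.sum_eq_zero fun i _ => ?_
    have e : ∑ l, bm i l * (X (Sum.inl l) - X (Sum.inr l)) = rename Sum.inl (F i) - rename Sum.inr (F i) :=
      hbF i
    rw [e, ← mul_assoc, mul_sub, map_sub, Lam_left L T (F i) (fun h => hL h i),
      Lam_right L T (F i) (fun h => tau_kill hAF h i), sub_zero]
  have hdeg : ∀ s ∈ q.support, s.degree = Fintype.card σ * k := by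
    intro s hs
    by_contra hne
    exact (mem_support_iff.1 hs) (hqh.coeff_eq_zero hne)
  have hqs : q = ∑ s ∈ q.support, monomial s (coeff s q) := (support_sum_monomial_coeff q).symm
  have h2 : Lam L T (rename Sum.inl h * q) = L h * T (ev0l q) := by
    rw [hqs, Finset.mul_sum, map_sum, map_sum, map_sum, Finset.mul_sum]
    refine Finset.sum_congr rfl fun s hs => ?_
    rw [ev0l_monomial, monomial_parts, ← mul_assoc, ← map_mul, Lam_mul]
    by_cases hl : lpart s = 0
    · rw [if_pos hl, hl]
      have e1 : h * monomial 0 (coeff s q) = (coeff s q) • h := by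
        rw [mul_comm, smul_eq_C_mul]; rfl
      have e2 : (monomial (rpart s) (coeff s q) : MvPolynomial σ K)
          = (coeff s q) • monomial (rpart s) 1 := by
        rw [smul_monomial, smul_eq_mul, mul_one]
      rw [e1, e2, map_smul, map_smul, smul_eq_mul, smul_eq_mul]; ring
    · rw [if_neg hl, map_zero, mul_zero]
      have e3 : T (monomial (rpart s) 1) = 0 := by
        apply tau_deg hA (isHomogeneous_monomial 1 rfl)
        have h4 := degree_parts s
        rw [hdeg s hs] at h4
        have h5 : (lpart s).degree ≠ 0 := by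
          rw [Ne, Finsupp.degree_eq_zero_iff]; exact hl
        omega
      rw [e3, mul_zero]
  have h3 : Lam L T (rename Sum.inr h * q) = L (ev0r q) * T h := by
    rw [hqs, Finset.mul_sum, map_sum, map_sum, map_sum, Finset.sum_mul]
    refine Finset.sum_congr rfl fun s hs => ?_
    rw [ev0r_monomial, monomial_parts, mul_left_comm, ← map_mul, Lam_mul]
    by_cases hl : rpart s = 0
    · rw [if_pos hl, hl]
      have e1 : h * monomial 0 1 = h := by
        have : (monomial 0 1 : MvPolynomial σ K) = 1 := rfl
        rw [this, mul_one]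
      rw [e1]
    · rw [if_neg hl, map_zero, zero_mul]
      have e3 : T (h * monomial (rpart s) 1) = 0 := by
        apply tau_deg hA (hh.mul (isHomogeneous_monomial 1 rfl))
        have h5 : (rpart s).degree ≠ 0 := by
          rw [Ne, Finsupp.degree_eq_zero_iff]; exact hl
        omega
      rw [e3, mul_zero]
  have h4 : L h * T (ev0l q) = L (ev0r q) * T h := by
    rw [sub_mul, map_sub, h2, h3, sub_eq_zero] at h1
    exact h1
  have hF0 : ∀ i, coeff 0 (F i) = 0 := by
    intro i
    apply (hF i).coeff_eq_zero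
    simp
  have h5 : T (ev0l q) = 1 := by
    have : ev0l q = (ev0l.toRingHom.mapMatrix bm).det := by
      rw [hq]; exact RingHom.map_det ev0l.toRingHom bm
    rw [this]
    apply tau_det hA hAF
    · intro i j
      have := (hb i j).aeval (n := 1) (Sum.elim (0 : σ → MvPolynomial σ K) X) (by
        rintro (i | i)
        · exact isHomogeneous_zero _ _ _
        · exact isHomogeneous_X _ _)
      rw [one_mul] at this
      exact this
    · intro i
      have e := congrArg ev0l (hbF i)
      rw [map_sum, map_sub, ev0l_rename_inl, ev0l_rename_inr, hF0, map_zero, zero_sub] at e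
      simp only [map_mul, map_sub, ev0l_inl, ev0l_inr, zero_sub, mul_neg, Finset.sum_neg_distrib,
        neg_inj] at e
      exact e
  have h6 : L (ev0r q) = L B.det := by
    have : ev0r q = (ev0r.toRingHom.mapMatrix bm).det := by
      rw [hq]; exact RingHom.map_det ev0r.toRingHom bm
    rw [this, ← sub_eq_zero, ← map_sub]
    apply kill_ideal L hL
    apply det_sub_mem k _ _ _ hB _ hBF
    · intro i
      have e := congrArg ev0r (hbF i)
      rw [map_sum, map_sub, ev0r_rename_inl, ev0r_rename_inr, hF0, map_zero, sub_zero] at e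
      simp only [map_mul, map_sub, ev0r_inl, ev0r_inr, sub_zero] at e
      exact e
    · intro i j
      have := (hb i j).aeval (n := 1) (Sum.elim X (0 : σ → MvPolynomial σ K)) (by
        rintro (i | i)
        · exact isHomogeneous_X _ _
        · exact isHomogeneous_zero _ _ _)
      rw [one_mul] at this
      exact this
  rw [h5, mul_one, h6] at h4
  rw [h4, mul_comm]

/-- In the top degree, the ideal is the kernel of `tau`. -/
theorem mem_of_tau_eq_zero [CharZero K] (hF : ∀ i, (F i).IsHomogeneous (k + 1))
    (hA : ∀ i j, (A i j).IsHomogeneous m)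
    (hAF : ∀ j, ∑ i, A j i * F i = X j ^ (m + k + 1))
    (B : Matrix σ σ (MvPolynomial σ K)) (hB : ∀ i j, (B i j).IsHomogeneous k)
    (hBF : ∀ i, ∑ a, B i a * X a = F i)
    (h : MvPolynomial σ K) (hh : h.IsHomogeneous (Fintype.card σ * k))
    (h0 : tau (m + k) A h = 0) : h ∈ Ideal.span (Set.range F) := by
  by_contra hne
  have hne' : h ∉ (Ideal.span (Set.range F)).restrictScalars K := hne
  obtain ⟨L, hL1, hL2⟩ := Submodule.exists_le_ker_of_notMem hne'
  apply hL1
  have := duality hF hA hAF B hB hBF L (fun p i => by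
    have : p * F i ∈ (Ideal.span (Set.range F)).restrictScalars K :=
      Ideal.mul_mem_left _ _ (Ideal.subset_span ⟨i, rfl⟩)
    exact hL2 this) h hh
  rw [this, h0, zero_mul]

end

end Pool.Agent.N84.AF
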