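import Pool.Agent.N84.AF.Dual
import Pool.Agent.N84.AF.Defs

/-!
# Forms with given coefficients, the generic form, and nondegenerate forms
-/

namespace Pool.Agent.N84.AF

open MvPolynomial Matrix

noncomputable section

set_option linter.unusedSectionVars false

section expo

variable {σ : Type*} [Fintype σ]

instance (d : ℕ) : Finite (Expo σ d) := by
  have h : ({f : σ →₀ ℕ | f.degree ≤ d} : Set (σ →₀ ℕ)).Finite := Finsupp.finite_of_degree_le d
  have h2 : ({f : σ →₀ ℕ | f.degree = d} : Set (σ →₀ ℕ)).Finite := h.subset fun x hx => le_of_eq hx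
  exact h2.to_subtype

instance (d : ℕ) : Fintype (Expo σ d) := Fintype.ofFinite _

variable [DecidableEq σ] {R : Type*} [CommRing R] {d : ℕ}

/-- The form with the given coefficients. -/
def form (c : Expo σ d → R) : MvPolynomial σ R := ∑ m : Expo σ d, monomial m.1 (c m)

theorem coeff_form (c : Expo σ d → R) (m : Expo σ d) : coeff m.1 (form c) = c m := by
  rw [form, coeff_sum, Finset.sum_eq_single m]
  · rw [coeff_monomial, if_pos rfl]
  · intro m' _ hne
    rw [coeff_monomial, if_neg]
    intro h
    exact hne (Subtype.ext h)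
  · simp

theorem form_homogeneous (c : Expo σ d → R) : (form c).IsHomogeneous d :=
  IsHomogeneous.sum _ _ _ fun m _ => isHomogeneous_monomial _ m.2

theorem form_coeff {f : MvPolynomial σ R} (hf : f.IsHomogeneous d) :
    form (fun m : Expo σ d => coeff m.1 f) = f := by
  ext s
  by_cases hs : s.degree = d
  · exact coeff_form _ ⟨s, hs⟩
  · rw [(form_homogeneous _).coeff_eq_zero hs, hf.coeff_eq_zero hs]

theorem map_form {S : Type*} [CommRing S] (φ : R →+* S) (c : Expo σ d → R) :
    map φ (form c) = form (fun m => φ (c m)) := by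
  rw [form, form, map_sum]
  exact Finset.sum_congr rfl fun m _ => by rw [map_monomial]

theorem value_form (P : MvPolynomial (Expo σ d) R) (c : Expo σ d → R) :
    value P (form c) = eval c P := by
  rw [value]
  congr 1
  congr 1
  funext m
  exact coeff_form c m

/-- The functional on polynomials with the given values at the monomials of degree `d`, which kills
the monomials of other degrees. -/
def Lf (v : Expo σ d → R) : MvPolynomial σ R →ₗ[R] R where
  toFun h := ∑ m : Expo σ d, v m * coeff m.1 h
  map_add' p q := by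
    rw [← Finset.sum_add_distrib]
    exact Finset.sum_congr rfl fun m _ => by rw [coeff_add, mul_add]
  map_smul' c p := by
    rw [smul_eq_mul, Finset.mul_sum]
    exact Finset.sum_congr rfl fun m _ => by rw [coeff_smul, smul_eq_mul, RingHom.id_apply]; ring

theorem Lf_apply (v : Expo σ d → R) (h : MvPolynomial σ R) :
    Lf v h = ∑ m : Expo σ d, v m * coeff m.1 h := rfl

theorem Lf_monomial (v : Expo σ d → R) (m : Expo σ d) (c : R) : Lf v (monomial m.1 c) = v m * c := by
  rw [Lf_apply, Finset.sum_eq_single m]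
  · rw [coeff_monomial, if_pos rfl]
  · intro m' _ hne
    rw [coeff_monomial, if_neg, mul_zero]
    intro h
    exact hne (Subtype.ext h.symm)
  · simp

theorem Lf_map {S : Type*} [CommRing S] (φ : R →+* S) (v : Expo σ d → R) (h : MvPolynomial σ R) :
    φ (Lf v h) = Lf (fun m => φ (v m)) (map φ h) := by
  rw [Lf_apply, Lf_apply, map_sum]
  exact Finset.sum_congr rfl fun m _ => by rw [map_mul, coeff_map]

theorem Lf_of_linear (L : MvPolynomial σ R →ₗ[R] R) (h : MvPolynomial σ R)
    (hh : h.IsHomogeneous d) : Lf (fun m : Expo σ d => L (monomial m.1 1)) h = L h := by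
  conv_rhs => rw [← form_coeff hh]
  rw [form, map_sum, Lf_apply]
  refine Finset.sum_congr rfl fun m _ => ?_
  have : (monomial m.1 (coeff m.1 h) : MvPolynomial σ R) = coeff m.1 h • monomial m.1 1 := by
    rw [smul_monomial, smul_eq_mul, mul_one]
  rw [this, map_smul, smul_eq_mul, mul_comm]

end expo

section hess

variable {σ : Type*} [Fintype σ] [DecidableEq σ]

theorem map_hessian {R S : Type*} [CommRing R] [CommRing S] (φ : R →+* S) (f : MvPolynomial σ R) :
    map φ (hessian f) = hessian (map φ f) := by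
  rw [hessian, hessian, RingHom.map_det]
  congr 1
  ext i j
  simp [pderiv_map]

variable {K : Type*} [Field K]

theorem hessian_homogeneous (k : ℕ) {f : MvPolynomial σ K} (hf : f.IsHomogeneous (k + 2)) :
    (hessian f).IsHomogeneous (Fintype.card σ * k) :=
  isHomogeneous_det k _ fun i j => (hf.pderiv (i := i)).pderiv (i := j)

/-- the matrix expressing the gradient through the variables -/
def hessB (k : ℕ) (f : MvPolynomial σ K) : Matrix σ σ (MvPolynomial σ K) :=
  (C ((k + 1 : K)⁻¹) : MvPolynomial σ K) • Matrix.of fun i j => pderiv j (pderiv i f)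

theorem hessB_det (k : ℕ) (f : MvPolynomial σ K) :
    (hessB k f).det = C ((k + 1 : K)⁻¹) ^ Fintype.card σ * hessian f := by
  rw [hessB, Matrix.det_smul, hessian]

theorem hessB_homogeneous (k : ℕ) {f : MvPolynomial σ K} (hf : f.IsHomogeneous (k + 2)) (i j : σ) :
    (hessB k f i j).IsHomogeneous k := by
  have : hessB k f i j = C ((k + 1 : K)⁻¹) * pderiv j (pderiv i f) := rfl
  rw [this]
  exact ((hf.pderiv (i := i)).pderiv (i := j)).C_mul _

theorem hessB_mul [CharZero K] (k : ℕ) {f : MvPolynomial σ K} (hf : f.IsHomogeneous (k + 2)) (i : σ) :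
    ∑ a, hessB k f i a * X a = pderiv i f := by
  have hk : (k + 1 : K) ≠ 0 := by exact_mod_cast Nat.succ_ne_zero k
  have h1 : ∀ a, hessB k f i a * X a = C ((k + 1 : K)⁻¹) * (X a * pderiv a (pderiv i f)) := by
    intro a
    have : hessB k f i a = C ((k + 1 : K)⁻¹) * pderiv a (pderiv i f) := rfl
    rw [this]; ring
  rw [Finset.sum_congr rfl fun a _ => h1 a, ← Finset.mul_sum]
  have h2 : (pderiv i f).IsHomogeneous (k + 1) := hf.pderiv (i := i)
  rw [h2.sum_X_mul_pderiv, nsmul_eq_mul, ← mul_assoc]
  have h3 : (((k + 1 : ℕ) : MvPolynomial σ K)) = C (k + 1 : K) := by simp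
  rw [h3, ← map_mul, inv_mul_cancel₀ hk, map_one, one_mul]

/-- The powers of the variables belong to the ideal of forms without common zeros. -/
theorem exists_A [IsAlgClosed K] {k : ℕ} (F : σ → MvPolynomial σ K)
    (hF : ∀ i, (F i).IsHomogeneous (k + 1)) (hz : ∀ z : σ → K, (∀ i, eval z (F i) = 0) → z = 0) :
    ∃ (m : ℕ) (A : Matrix σ σ (MvPolynomial σ K)), (∀ i j, (A i j).IsHomogeneous m) ∧
      ∀ j, ∑ i, A j i * F i = X j ^ (m + k + 1) := by
  set I := Ideal.span (Set.range F) with hI
  have h1 : ∀ j : σ, ∃ N : ℕ, (X j ^ N : MvPolynomial σ K) ∈ I := by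
    intro j
    have : (X j : MvPolynomial σ K) ∈ I.radical := by
      rw [← vanishingIdeal_zeroLocus_eq_radical (K := K)]
      intro z hzI
      have hz0 : z = 0 := hz z fun i => by
        have := hzI (F i) (Ideal.subset_span ⟨i, rfl⟩)
        rw [← this]; rfl
      subst hz0
      simp
    exact this
  choose N hN using h1
  set M := ∑ j, N j with hM
  have h2 : ∀ j : σ, (X j ^ (M + k + 1) : MvPolynomial σ K) ∈ I := by
    intro j
    have hle : N j ≤ M + k + 1 := by
      have : N j ≤ M := Finset.single_le_sum (fun _ _ => Nat.zero_le _) (Finset.mem_univ j)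
      omega
    obtain ⟨r, hr⟩ := Nat.exists_eq_add_of_le hle
    rw [hr, pow_add]
    exact Ideal.mul_mem_right _ _ (hN j)
  choose c hc using fun j => Ideal.mem_span_range_iff_exists_fun.1 (h2 j)
  refine ⟨M, fun j i => homogeneousComponent M (c j i), fun _ _ =>
    homogeneousComponent_isHomogeneous _ _, fun j => ?_⟩
  have h3 : homogeneousComponent (M + (k + 1)) (X j ^ (M + k + 1) : MvPolynomial σ K)
      = X j ^ (M + k + 1) := homogeneousComponent_eq_self (isHomogeneous_X_pow _ _)
  rw [← h3, ← hc j, map_sum]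
  exact Finset.sum_congr rfl fun i _ => (hc_mul _ (hF i)).symm

/-- The functional attached to a nondegenerate form. -/
theorem exists_functional [CharZero K] [IsAlgClosed K] (k : ℕ) (f : MvPolynomial σ K)
    (hf : f.IsHomogeneous (k + 2)) (hn : ¬ Degenerate f) :
    ∃ T : MvPolynomial σ K →ₗ[K] K, (∀ p ∈ gradIdeal f, T p = 0) ∧ T (hessian f) = 1 ∧
      (∀ r h, h.IsHomogeneous r → r ≠ Fintype.card σ * k → T h = 0) ∧
      ∀ h, h.IsHomogeneous (Fintype.card σ * k) → T h = 0 → h ∈ gradIdeal f := by
  have hk : (k + 1 : K) ≠ 0 := by exact_mod_cast Nat.succ_ne_zero k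
  set F : σ → MvPolynomial σ K := fun i => pderiv i f with hFdef
  have hF : ∀ i, (F i).IsHomogeneous (k + 1) := fun i => hf.pderiv (i := i)
  obtain ⟨m, A, hA, hAF⟩ := exists_A F hF (fun z hz => by
    by_contra hne
    exact hn ⟨z, hne, hz⟩)
  have hdet : tau (m + k) A (hessB k f).det = 1 :=
    tau_det hA hAF (hessB k f) (hessB_homogeneous k hf) (hessB_mul k hf)
  set c : K := (k + 1 : K)⁻¹ ^ Fintype.card σ with hc
  have hc0 : c ≠ 0 := pow_ne_zero _ (inv_ne_zero hk)
  have hdet2 : c * tau (m + k) A (hessian f) = 1 := by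
    rw [← hdet, hessB_det, ← map_pow, ← smul_eq_C_mul, map_smul, smul_eq_mul]
  refine ⟨c • tau (m + k) A, ?_, ?_, ?_, ?_⟩
  · intro p hp
    rw [LinearMap.smul_apply, kill_ideal (tau (m + k) A) (fun h i => tau_kill hAF h i) p hp, smul_zero]
  · rw [LinearMap.smul_apply, smul_eq_mul, hdet2]
  · intro r h hh hr
    rw [LinearMap.smul_apply, tau_deg hA hh hr, smul_zero]
  · intro h hh h0
    apply mem_of_tau_eq_zero hF hA hAF (hessB k f) (hessB_homogeneous k hf) (hessB_mul k hf) h hh
    rw [LinearMap.smul_apply, smul_eq_mul] at h0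
    exact (mul_eq_zero.1 h0).resolve_left hc0

end hess

end

end Pool.Agent.N84.AF
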