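import Pool.Agent.N84.AF.Grid
import Pool.Agent.N84.AF.Forms

/-!
# A degenerate form whose gradient ideal is as large as possible in the top degree
-/

namespace Pool.Agent.N84.AF

open MvPolynomial

noncomputable section

set_option linter.unusedSectionVars false

variable {K : Type*} [Field K]

/-- coefficients making the quadratic polynomial nonzero at the nonzero points of the grid -/
theorem exists_c [Infinite K] {ι : Type*} [Fintype ι] [DecidableEq ι] (S : Finset K) :
    ∃ c : ι → K, ∀ x : ι → K, (∀ i, x i ∈ S) → x ≠ 0 → ∑ i, c i * x i ^ 2 ≠ 0 := by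
  classical
  set G : Finset (ι → K) := (Fintype.piFinset fun _ => S).filter (fun x => x ≠ 0) with hG
  set p : MvPolynomial ι K := ∏ x ∈ G, ∑ i, C (x i ^ 2) * X i with hp
  have hp0 : p ≠ 0 := by
    rw [hp, Finset.prod_ne_zero_iff]
    intro x hx h0
    rw [hG, Finset.mem_filter] at hx
    obtain ⟨j, hj⟩ := Function.ne_iff.1 hx.2
    have h1 := congrArg (eval (Pi.single j 1)) h0
    rw [map_sum, map_zero, Finset.sum_eq_single j] at h1
    · simp at h1
      exact hj h1
    · intro i _ hi
      simp [hi]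
    · simp
  obtain ⟨c, hc⟩ : ∃ c, eval c p ≠ 0 := by
    by_contra hcon
    push Not at hcon
    apply hp0
    apply MvPolynomial.funext
    intro c
    rw [hcon c, map_zero]
  refine ⟨c, fun x hx hx0 h => hc ?_⟩
  rw [hp, map_prod]
  apply Finset.prod_eq_zero (i := x)
  · rw [hG, Finset.mem_filter, Fintype.mem_piFinset]
    exact ⟨hx, hx0⟩
  · rw [map_sum, ← h]
    exact Finset.sum_congr rfl fun i _ => by simp [mul_comm]

section homog

variable {m : ℕ}

/-- homogenization in the degree `N` -/
def homog (N : ℕ) : MvPolynomial (Fin m) K →ₗ[K] MvPolynomial (Fin (m + 1)) K :=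
  ∑ j ∈ Finset.range (N + 1), (LinearMap.mulLeft K (X 0 ^ (N - j))) ∘ₗ
    (rename Fin.succ).toLinearMap ∘ₗ (homogeneousComponent j)

theorem homog_apply (N : ℕ) (p : MvPolynomial (Fin m) K) :
    homog N p = ∑ j ∈ Finset.range (N + 1), X 0 ^ (N - j) * rename Fin.succ (homogeneousComponent j p) := by
  rw [homog, LinearMap.sum_apply]
  rfl

theorem homog_mul (M b : ℕ) (p q : MvPolynomial (Fin m) K) (hq : q.IsHomogeneous b) :
    homog (M + b) (p * q) = homog M p * rename Fin.succ q := by
  rw [homog_apply, homog_apply, Finset.sum_mul]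
  have h1 : M + b + 1 = b + (M + 1) := by ring
  rw [h1, Finset.sum_range_add]
  have h2 : ∑ x ∈ Finset.range b, (X 0 : MvPolynomial (Fin (m + 1)) K) ^ (M + b - x) *
      rename Fin.succ (homogeneousComponent x (p * q)) = 0 := by
    refine Finset.sum_eq_zero fun j hj => ?_
    rw [hc_mul_of_lt (Finset.mem_range.1 hj) p hq, map_zero, mul_zero]
  rw [h2, zero_add]
  refine Finset.sum_congr rfl fun j hj => ?_
  have h3 : M + b - (b + j) = M - j := by omega
  rw [h3, add_comm b j, hc_mul _ hq, map_mul, mul_assoc]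

theorem homog_add (M r : ℕ) (p : MvPolynomial (Fin m) K) (hp : p.totalDegree ≤ M) :
    homog (M + r) p = X 0 ^ r * homog M p := by
  rw [homog_apply, homog_apply, Finset.mul_sum]
  have h1 : M + r + 1 = (M + 1) + r := by ring
  rw [h1, Finset.sum_range_add]
  have h2 : ∑ x ∈ Finset.range r, (X 0 : MvPolynomial (Fin (m + 1)) K) ^ (M + r - (M + 1 + x)) *
      rename Fin.succ (homogeneousComponent (M + 1 + x) p) = 0 := by
    refine Finset.sum_eq_zero fun j _ => ?_
    rw [homogeneousComponent_eq_zero _ _ (by omega), map_zero, mul_zero]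
  rw [h2, add_zero]
  refine Finset.sum_congr rfl fun j hj => ?_
  have h3 : M + r - j = r + (M - j) := by
    have := Finset.mem_range.1 hj
    omega
  rw [h3, pow_add, mul_assoc]

theorem homog_of_homogeneous (N j : ℕ) (p : MvPolynomial (Fin m) K) (hp : p.IsHomogeneous j)
    (hj : j ≤ N) : homog N p = X 0 ^ (N - j) * rename Fin.succ p := by
  rw [homog_apply, Finset.sum_eq_single j]
  · rw [homogeneousComponent_eq_self hp]
  · intro i _ hi
    rw [homogeneousComponent_of_mem hp, if_neg hi, map_zero, mul_zero]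
  · intro h
    exact absurd (Finset.mem_range.2 (by omega)) h

theorem monomial_eq_homog (N : ℕ) (s : Fin (m + 1) →₀ ℕ) (hs : s.degree = N) :
    (monomial s 1 : MvPolynomial (Fin (m + 1)) K) = homog N (monomial s.tail 1) := by
  have h1 : s.degree = s 0 + s.tail.degree := by
    rw [Finsupp.degree_eq_sum, Finsupp.degree_eq_sum, Fin.sum_univ_succ]
    rfl
  rw [homog_of_homogeneous N s.tail.degree _ (isHomogeneous_monomial 1 rfl) (by omega)]
  have h2 : N - s.tail.degree = s 0 := by omega
  rw [h2, rename_monomial, X_pow_eq_monomial, monomial_mul, one_mul]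
  have h3 : s = Finsupp.single 0 (s 0) + Finsupp.mapDomain Fin.succ s.tail := ?_
  · rw [← h3]
  ext i
  rw [Finsupp.add_apply]
  refine Fin.cases ?_ (fun j => ?_) i
  · rw [Finsupp.single_eq_same, Finsupp.mapDomain_of_notMem_range, add_zero]
    rintro ⟨j, hj⟩
    exact Fin.succ_ne_zero j hj
  · rw [Finsupp.mapDomain_apply (Fin.succ_injective m), Finsupp.single_eq_of_ne (Fin.succ_ne_zero j),
      zero_add]
    rfl

end homog

section form1

variable {m : ℕ}

/-- the form of the example -/
def f1 (k : ℕ) (c : Fin m → K) : MvPolynomial (Fin (m + 1)) K :=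
  ∑ i, C (c i) * (C ((2 : K)⁻¹) * (X 0 ^ k * X i.succ ^ 2) - C ((k + 2 : K)⁻¹) * X i.succ ^ (k + 2))

theorem f1_homogeneous (k : ℕ) (c : Fin m → K) : (f1 k c).IsHomogeneous (k + 2) := by
  refine IsHomogeneous.sum _ _ _ fun i _ => IsHomogeneous.C_mul ?_ _
  refine IsHomogeneous.sub (IsHomogeneous.C_mul ?_ _) (IsHomogeneous.C_mul (isHomogeneous_X_pow _ _) _)
  exact (isHomogeneous_X_pow _ _).mul (isHomogeneous_X_pow _ _)

theorem pderiv_succ_f1 [CharZero K] (k : ℕ) (c : Fin m → K) (j : Fin m) :
    pderiv j.succ (f1 k c) = C (c j) * (X 0 ^ k * X j.succ - X j.succ ^ (k + 1)) := by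
  have hk : (k + 2 : K) ≠ 0 := by exact_mod_cast (Nat.succ_ne_zero (k + 1))
  rw [f1, map_sum, Finset.sum_eq_single j]
  · simp only [map_sub, Derivation.leibniz, Derivation.leibniz_pow, pderiv_X_self, pderiv_C,
      pderiv_X_of_ne (Fin.succ_ne_zero j).symm, smul_zero, smul_eq_mul, mul_one, nsmul_eq_mul, add_zero]
    have h1 : C ((2 : K)⁻¹) * (2 : MvPolynomial (Fin (m + 1)) K) = 1 := by
      have : (2 : MvPolynomial (Fin (m + 1)) K) = C (2 : K) := (map_ofNat C 2).symm
      rw [this, ← map_mul, inv_mul_cancel₀ two_ne_zero, map_one]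
    have h2 : C ((k + 2 : K)⁻¹) * ((k : MvPolynomial (Fin (m + 1)) K) + 2) = 1 := by
      have : ((k : MvPolynomial (Fin (m + 1)) K) + 2) = C (k + 2 : K) := by
        rw [map_add, map_ofNat]; simp
      rw [this, ← map_mul, inv_mul_cancel₀ hk, map_one]
    have e1 : k + 2 - 1 = k + 1 := rfl
    simp only [e1, Nat.add_one_sub_one, pow_one]
    push_cast
    simp only [mul_zero, add_zero]
    linear_combination C (c j) * X 0 ^ k * X j.succ * h1 - C (c j) * X j.succ ^ (k + 1) * h2
  · intro i _ hi
    have hne : i.succ ≠ j.succ := fun h => hi (Fin.succ_injective m h)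
    simp only [map_sub, Derivation.leibniz, Derivation.leibniz_pow, pderiv_C,
      pderiv_X_of_ne hne, pderiv_X_of_ne (Fin.succ_ne_zero j).symm, smul_zero, add_zero, sub_zero]
  · simp

theorem pderiv_zero_f1 (k : ℕ) (c : Fin m → K) :
    pderiv 0 (f1 k c) = C ((k : K) * (2 : K)⁻¹) * (X 0 ^ (k - 1) *
      rename Fin.succ (∑ i, C (c i) * X i ^ 2)) := by
  rw [f1, map_sum, map_sum, Finset.mul_sum, Finset.mul_sum]
  refine Finset.sum_congr rfl fun i _ => ?_
  simp only [map_sub, Derivation.leibniz, Derivation.leibniz_pow, pderiv_X_self, pderiv_C,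
      pderiv_X_of_ne (Fin.succ_ne_zero i), smul_zero, smul_eq_mul, mul_one, nsmul_eq_mul, mul_zero,
      sub_zero, zero_add, map_mul, map_pow, rename_C, rename_X, add_zero]
  simp only [MvPolynomial.C_eq_coe_nat]
  ring

/-- There is a degenerate form whose gradient ideal contains all the monomials of the top degree
but one. -/
theorem example_form [CharZero K] [IsAlgClosed K] (m k : ℕ) (hm : 1 ≤ m) (hk : 1 ≤ k) :
    ∃ f : MvPolynomial (Fin (m + 1)) K, f.IsHomogeneous (k + 2) ∧ Degenerate f ∧
      ∀ s : Fin (m + 1) →₀ ℕ, s.degree = (m + 1) * k → s ≠ Finsupp.single 0 ((m + 1) * k) →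
        monomial s 1 ∈ gradIdeal f := by
  classical
  have : Infinite K := inferInstance
  obtain ⟨S, hSc, hSp⟩ := exists_S (K := K) k hk
  have hSm := mem_S hSp
  obtain ⟨c, hc⟩ := exists_c (ι := Fin m) S
  have h0S : (0 : K) ∈ S := (hSm 0).2 (by simp)
  have h1S : (1 : K) ∈ S := (hSm 1).2 (by simp)
  have hcj : ∀ j, c j ≠ 0 := by
    intro j hj
    apply hc (Pi.single j 1)
    · intro i
      by_cases hi : i = j
      · subst hi; simpa using h1S
      · simpa [hi] using h0S
    · simp
    · rw [Finset.sum_eq_single j]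
      · simp [hj]
      · intro i _ hi
        simp [hi]
      · simp
  have hk0 : (k : K) ≠ 0 := by exact_mod_cast Nat.one_le_iff_ne_zero.1 hk
  refine ⟨f1 k c, f1_homogeneous k c, ⟨Pi.single 0 1, by simp, ?_⟩, ?_⟩
  · intro i
    refine Fin.cases ?_ (fun j => ?_) i
    · rw [pderiv_zero_f1]
      simp only [map_mul, map_sum, map_pow, rename_X, eval_X]
      simp
    · rw [pderiv_succ_f1]
      simp
  · intro s hs hne
    set N := (m + 1) * k with hN
    set a := s.tail with ha
    have hdeg : s.degree = s 0 + a.degree := by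
      rw [Finsupp.degree_eq_sum, Finsupp.degree_eq_sum, Fin.sum_univ_succ]
      rfl
    have ha0 : a ≠ 0 := by
      intro h
      apply hne
      rw [h] at hdeg
      simp only [map_zero, add_zero] at hdeg
      ext i
      refine Fin.cases ?_ (fun j => ?_) i
      · rw [Finsupp.single_eq_same, ← hdeg, hs]
      · rw [Finsupp.single_eq_of_ne (Fin.succ_ne_zero j)]
        have : s j.succ = a j := rfl
        rw [this, h]; rfl
    set g : MvPolynomial (Fin m) K := monomial a 1 with hg
    set Φ : MvPolynomial (Fin m) K := ∑ i, C (c i) * X i ^ 2 with hΦ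
    have hΦh : Φ.IsHomogeneous 2 :=
      IsHomogeneous.sum _ _ _ fun i _ => (isHomogeneous_X_pow _ _).C_mul _
    have hΦe : ∀ x : Fin m → K, eval x Φ = ∑ i, c i * x i ^ 2 := by
      intro x; rw [hΦ, map_sum]; simp
    have hNe : Nonempty (Fin m) := ⟨⟨0, by omega⟩⟩
    obtain ⟨u, hu1, hu2⟩ := exists_interp' hk hSc hSm hNe (fun x => eval x g / eval x Φ)
    rw [Fintype.card_fin] at hu1
    have hmk : N = m * k + k := by rw [hN]; ring
    obtain ⟨M, hM⟩ : ∃ M, M + (k + 1) = N := ⟨N - (k + 1), by
      have : 1 ≤ m * k := Nat.one_le_iff_ne_zero.2 (by positivity)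
      omega⟩
    have hR0 : ∀ x : Fin m → K, (∀ i, x i ∈ S) → eval x (g - u * Φ) = 0 := by
      intro x hx
      by_cases hx0 : x = 0
      · subst hx0
        rw [map_sub, map_mul, hΦe, hg, eval_monomial]
        have h5 : a.prod (fun n e => (0 : Fin m → K) n ^ e) = 0 := by
          obtain ⟨i, hi⟩ : ∃ i, a i ≠ 0 := by
            by_contra hcon
            push Not at hcon
            exact ha0 (Finsupp.ext hcon)
          rw [Finsupp.prod]
          apply Finset.prod_eq_zero (Finsupp.mem_support_iff.2 hi)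
          simp [hi]
        rw [h5]
        simp
      · rw [map_sub, map_mul, hu2 x hx hx0, div_mul_cancel₀, sub_self]
        rw [hΦe]
        exact hc x hx hx0
    have hRdeg : (g - u * Φ).totalDegree ≤ N := by
      refine (totalDegree_sub _ _).trans (max_le ?_ ?_)
      · rw [hg]
        refine (totalDegree_monomial_le _ _).trans ?_
        change a.degree ≤ N
        omega
      · refine (totalDegree_mul _ _).trans ?_
        have := hΦh.totalDegree_le
        omega
    obtain ⟨h, hh1, hh2⟩ := combinatorial_nullstellensatz_exists_linearCombination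
      (fun _ : Fin m => S) (fun _ => ⟨0, h0S⟩) (g - u * Φ) hR0
    have hsum : g = u * Φ + ∑ i, (h i * X i ^ (k + 1) - h i * X i) := by
      rw [Finsupp.linearCombination_apply, Finsupp.sum_fintype _ _ (by intro i; simp)] at hh2
      have : ∑ i, (h i * X i ^ (k + 1) - h i * X i) = ∑ i, h i • ∏ r ∈ S, (X i - C r) := by
        refine Finset.sum_congr rfl fun i _ => ?_
        rw [prod_S_mv hSp, smul_eq_mul]; ring
      rw [this, ← hh2]; ring
    have hhdeg : ∀ i, (h i).totalDegree ≤ M := by
      intro i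
      by_cases hi : h i = 0
      · rw [hi]; simp
      · have h1 := (hh1 i).trans hRdeg
        have h2 : (∏ s ∈ S, (X i - C s) : MvPolynomial (Fin m) K) ≠ 0 := by
          rw [Finset.prod_ne_zero_iff]
          intro r _ h0
          have := congrArg (eval fun _ => r + 1) h0
          simp at this
        rw [totalDegree_mul_of_isDomain h2 hi] at h1
        have h3 : (∏ s ∈ S, (X i - C s) : MvPolynomial (Fin m) K).totalDegree = k + 1 := by
          rw [prod_S_mv hSp]
          have h4 : (- X i : MvPolynomial (Fin m) K).totalDegree < (X i ^ (k + 1) : MvPolynomial (Fin m) K).totalDegree := by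
            rw [totalDegree_neg, totalDegree_X, totalDegree_X_pow]; omega
          rw [sub_eq_add_neg, totalDegree_add_eq_left_of_totalDegree_lt h4, totalDegree_X_pow]
        omega
    rw [monomial_eq_homog N s hs, ← ha, ← hg, hsum, map_add, map_sum]
    have hJ1 : (X 0 ^ (k - 1) * rename Fin.succ Φ : MvPolynomial (Fin (m + 1)) K)
        ∈ gradIdeal (f1 k c) := by
      have h1 : pderiv 0 (f1 k c) ∈ gradIdeal (f1 k c) := Ideal.subset_span ⟨0, rfl⟩
      rw [pderiv_zero_f1, ← hΦ] at h1
      have hne2 : (k : K) * (2 : K)⁻¹ ≠ 0 := mul_ne_zero hk0 (inv_ne_zero two_ne_zero)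
      have h2 := Ideal.mul_mem_left (gradIdeal (f1 k c)) (C ((k : K) * (2 : K)⁻¹)⁻¹) h1
      rwa [← mul_assoc, ← map_mul, inv_mul_cancel₀ hne2, map_one, one_mul] at h2
    have hJ2 : ∀ j : Fin m, (X j.succ ^ (k + 1) - X 0 ^ k * X j.succ : MvPolynomial (Fin (m + 1)) K)
        ∈ gradIdeal (f1 k c) := by
      intro j
      have h1 : pderiv j.succ (f1 k c) ∈ gradIdeal (f1 k c) := Ideal.subset_span ⟨j.succ, rfl⟩
      rw [pderiv_succ_f1] at h1
      have h2 := Ideal.mul_mem_left (gradIdeal (f1 k c)) (- C (c j)⁻¹) h1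
      have h3 : (C (c j)⁻¹ * C (c j) : MvPolynomial (Fin (m + 1)) K) = 1 := by
        rw [← map_mul, inv_mul_cancel₀ (hcj j), map_one]
      have h4 : - C (c j)⁻¹ * (C (c j) * (X 0 ^ k * X j.succ - X j.succ ^ (k + 1)))
          = (X j.succ ^ (k + 1) - X 0 ^ k * X j.succ : MvPolynomial (Fin (m + 1)) K) := by
        linear_combination (-(X 0 ^ k * X j.succ - X j.succ ^ (k + 1))) * h3
      rwa [h4] at h2
    refine Ideal.add_mem _ ?_ (Ideal.sum_mem _ fun i _ => ?_)
    · have e1 : N = (M + (k - 1)) + 2 := by omega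
      rw [e1, homog_mul _ 2 u Φ hΦh, homog_add M (k - 1) u (by omega)]
      have e2 : X 0 ^ (k - 1) * homog M u * rename Fin.succ Φ
          = homog M u * (X 0 ^ (k - 1) * rename Fin.succ Φ) := by ring
      rw [e2]
      exact Ideal.mul_mem_left _ _ hJ1
    · rw [map_sub]
      have e1 : homog N (h i * X i ^ (k + 1)) = homog M (h i) * X i.succ ^ (k + 1) := by
        rw [← hM, homog_mul M (k + 1) _ _ (isHomogeneous_X_pow _ _), map_pow, rename_X]
      have e2 : homog N (h i * X i) = X 0 ^ k * homog M (h i) * X i.succ := by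
        have : N = (M + k) + 1 := by omega
        rw [this, homog_mul (M + k) 1 _ _ (isHomogeneous_X _ _), rename_X, homog_add M k _ (hhdeg i)]
      have e3 : homog M (h i) * X i.succ ^ (k + 1) - X 0 ^ k * homog M (h i) * X i.succ
          = homog M (h i) * (X i.succ ^ (k + 1) - X 0 ^ k * X i.succ) := by ring
      rw [e1, e2, e3]
      exact Ideal.mul_mem_left _ _ (hJ2 i)

end form1

end

end Pool.Agent.N84.AF
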