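import Pool.Agent.N84.AF.Scale

/-!
# No coefficient `μ_i` vanishes identically
-/

namespace Pool.Agent.N84.AF

open MvPolynomial

noncomputable section

set_option linter.unusedSectionVars false

variable {σ : Type*} [Fintype σ] [DecidableEq σ] {K : Type*} [Field K] {k : ℕ}

/-- all the coefficients of degree `r` are positive -/
def Full (r : ℕ) (p : MvPolynomial σ ℕ) : Prop := ∀ s : σ →₀ ℕ, s.degree = r → coeff s p ≠ 0

theorem full_mul (r : ℕ) (p : MvPolynomial σ ℕ) (hp : Full r p) (M : σ → ℕ) (hM : ∀ i, M i ≠ 0) :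
    Full (r + 1) ((∑ i, C (M i) * X i) * p) := by
  intro s hs
  obtain ⟨j, hj⟩ : ∃ j, s j ≠ 0 := by
    by_contra hcon
    push Not at hcon
    have : s = 0 := Finsupp.ext hcon
    rw [this, map_zero] at hs
    omega
  rw [Finset.sum_mul, coeff_sum]
  have h1 : coeff s (C (M j) * X j * p) ≠ 0 := by
    have e1 : C (M j) * X j * p = C (M j) * (p * X j) := by ring
    rw [e1, coeff_C_mul, coeff_mul_X', if_pos (Finsupp.mem_support_iff.2 hj)]
    refine mul_ne_zero (hM j) (hp _ ?_)
    have hle : Finsupp.single j 1 ≤ s := by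
      rw [Finsupp.single_le_iff]; omega
    have e2 : (s - Finsupp.single j 1) + Finsupp.single j 1 = s := tsub_add_cancel_of_le hle
    have e3 := congrArg Finsupp.degree e2
    rw [map_add, Finsupp.degree_single, hs] at e3
    omega
  intro h2
  exact h1 (Finset.sum_eq_zero_iff.1 h2 j (Finset.mem_univ j))

theorem full_one : Full 0 (1 : MvPolynomial σ ℕ) := by
  intro s hs
  rw [Finsupp.degree_eq_zero_iff] at hs
  rw [hs]; simp

theorem full_pow (r e : ℕ) (p : MvPolynomial σ ℕ) (hp : Full r p) (M : σ → ℕ) (hM : ∀ i, M i ≠ 0) :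
    Full (r + e) ((∑ i, C (M i) * X i) ^ e * p) := by
  induction e with
  | zero => simpa using hp
  | succ e ih =>
    have := full_mul (r + e) _ ih M hM
    rw [← add_assoc, pow_succ']
    rwa [mul_assoc]

theorem full_prod (t : Finset σ) (s : σ → ℕ) (M : σ → σ → ℕ) (hM : ∀ i j, M i j ≠ 0) :
    Full (∑ i ∈ t, s i) (∏ i ∈ t, (∑ j, C (M i j) * X j) ^ s i : MvPolynomial σ ℕ) := by
  induction t using Finset.induction_on with
  | empty => simpa using full_one
  | insert a t ha ih =>
    rw [Finset.sum_insert ha, Finset.prod_insert ha, add_comm]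
    exact full_pow _ _ _ ih (M a) (hM a)

/-- the matrix `1 + J` -/
def MJ (σ : Type*) [DecidableEq σ] : σ → σ → ℕ := fun i j => 1 + if i = j then 1 else 0

variable (σ K) in
/-- the substitution of `X i + ∑ X j` for `X i` -/
def subs : MvPolynomial σ K →ₐ[K] MvPolynomial σ K := aeval fun i => X i + ∑ j, X j

variable (σ K) in
/-- the inverse substitution -/
def subsInv : MvPolynomial σ K →ₐ[K] MvPolynomial σ K :=
  aeval fun i => X i - C ((Fintype.card σ + 1 : K)⁻¹) * ∑ j, X j

theorem subs_subsInv [CharZero K] (p : MvPolynomial σ K) : subs σ K (subsInv σ K p) = p := by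
  have hn : (Fintype.card σ + 1 : K) ≠ 0 := by exact_mod_cast Nat.succ_ne_zero (Fintype.card σ)
  have : (subs σ K).comp (subsInv σ K) = AlgHom.id K _ := by
    apply MvPolynomial.algHom_ext
    intro i
    simp only [AlgHom.comp_apply, subsInv, aeval_X, map_sub, map_mul, map_sum, AlgHom.id_apply]
    simp only [subs, aeval_X, algHom_C, MvPolynomial.algebraMap_eq]
    rw [Finset.sum_add_distrib, Finset.sum_const, Finset.card_univ, nsmul_eq_mul]
    have e1 : (Fintype.card σ : MvPolynomial σ K) = C (Fintype.card σ : K) := by simp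
    have e2 : C ((Fintype.card σ + 1 : K)⁻¹) * (1 + C (Fintype.card σ : K)) = (1 : MvPolynomial σ K) := by
      rw [← map_one C, ← map_add, ← map_mul, add_comm (1 : K), inv_mul_cancel₀ hn]
    rw [e1]
    linear_combination (- ∑ j : σ, (X j : MvPolynomial σ K)) * e2
  exact DFunLike.congr_fun this p

theorem subs_monomial (s : σ →₀ ℕ) : subs σ K (monomial s 1) =
    MvPolynomial.map (Nat.castRingHom K) (∏ i, (∑ j, C (MJ σ i j) * X j) ^ s i) := by
  rw [subs, aeval_monomial, map_one, one_mul, Finsupp.prod_fintype _ _ (by intro i; simp), map_prod]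
  refine Finset.prod_congr rfl fun i _ => ?_
  rw [map_pow, map_sum]
  congr 1
  have : ∀ j, MvPolynomial.map (Nat.castRingHom K) (C (MJ σ i j) * X j)
      = X j + (if i = j then X j else 0) := by
    intro j
    rw [map_mul, map_C, map_X, MJ]
    split_ifs
    · rw [map_add, map_one, map_add, map_one]; ring
    · simp
  rw [Finset.sum_congr rfl fun j _ => this j, Finset.sum_add_distrib]
  simp [add_comm]

theorem coeff_subs_monomial [CharZero K] (s : σ →₀ ℕ) (hs : s.degree = Fintype.card σ * k) :
    coeff (tt σ k) (subs σ K (monomial s 1)) ≠ 0 := by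
  rw [subs_monomial, coeff_map]
  have h1 := full_prod Finset.univ (fun i => s i) (MJ σ) (fun i j => by rw [MJ]; omega) (tt σ k)
    (by rw [tt_degree, ← hs, Finsupp.degree_eq_sum])
  intro h2
  apply h1
  rw [eq_natCast] at h2
  exact_mod_cast h2

/-- For every exponent there is a nondegenerate form whose gradient ideal does not contain the
monomial. -/
theorem exists_pos [CharZero K] (s : σ →₀ ℕ) (hs : s.degree = Fintype.card σ * k) :
    ∃ f : MvPolynomial σ K, f.IsHomogeneous (k + 2) ∧ ¬ Degenerate f ∧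
      monomial s 1 ∉ gradIdeal f := by
  set a : K := (Fintype.card σ + 1 : K)⁻¹ with ha
  have hn : (Fintype.card σ + 1 : K) ≠ 0 := by exact_mod_cast Nat.succ_ne_zero (Fintype.card σ)
  have hk2 : (k + 2 : K) ≠ 0 := by exact_mod_cast Nat.succ_ne_zero (k + 1)
  set Y : σ → MvPolynomial σ K := fun i => X i - C a * ∑ j, X j with hY
  have hYh : ∀ i, (Y i).IsHomogeneous 1 := fun i =>
    (isHomogeneous_X _ _).sub ((IsHomogeneous.sum _ _ _ fun j _ => isHomogeneous_X _ _).C_mul _)
  set f : MvPolynomial σ K := ∑ l, Y l ^ (k + 2) with hf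
  have hsY : ∀ l, subs σ K (Y l) = X l := by
    intro l
    have h1 := subs_subsInv (K := K) (X l)
    rw [subsInv, aeval_X] at h1
    exact h1
  have hpY : ∀ l j, pderiv j (Y l) = C ((if l = j then 1 else 0) - a) := by
    intro l j
    rw [hY, map_sub, pderiv_C_mul, map_sum, Finset.sum_eq_single j]
    · rw [pderiv_X_self, mul_one, map_sub]
      congr 1
      split_ifs with h
      · rw [h, pderiv_X_self, map_one]
      · rw [pderiv_X_of_ne h, map_zero]
    · intro i _ hi
      rw [pderiv_X_of_ne hi]
    · simp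
  have hpf : ∀ j, pderiv j f = ∑ l, (C (k + 2 : K) * Y l ^ (k + 1)) * C ((if l = j then 1 else 0) - a) := by
    intro j
    rw [hf, map_sum]
    refine Finset.sum_congr rfl fun l _ => ?_
    rw [Derivation.leibniz_pow, hpY, smul_eq_mul, nsmul_eq_mul]
    have : ((k + 2 : ℕ) : MvPolynomial σ K) = C (k + 2 : K) := by
      rw [map_add, map_ofNat]; simp
    rw [this, mul_assoc]
    rfl
  -- inversion of the matrix `1 - a J`
  have hinv : ∀ g : σ → K, (∀ j, g j - a * ∑ l, g l = 0) → ∀ j, g j = 0 := by
    intro g hg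
    have h1 : ∑ j, (g j - a * ∑ l, g l) = 0 := Finset.sum_eq_zero fun j _ => hg j
    rw [Finset.sum_sub_distrib, Finset.sum_const, Finset.card_univ, nsmul_eq_mul] at h1
    have h2 : (∑ l, g l) * a = 0 := by
      have e1 : a * (Fintype.card σ + 1 : K) = 1 := inv_mul_cancel₀ hn
      linear_combination h1 + (∑ l, g l) * e1
    have ha0 : a ≠ 0 := inv_ne_zero hn
    have h3 := (mul_eq_zero.1 h2).resolve_right ha0
    intro j
    have := hg j
    rw [h3, mul_zero, sub_zero] at this
    exact this
  refine ⟨f, ?_, ?_, ?_⟩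
  · refine IsHomogeneous.sum _ _ _ fun l _ => ?_
    have := (hYh l).pow (k + 2)
    rwa [one_mul] at this
  · rintro ⟨z, hz, h⟩
    apply hz
    set g : σ → K := fun l => (k + 2 : K) * eval z (Y l) ^ (k + 1) with hg
    have h1 : ∀ j, g j - a * ∑ l, g l = 0 := by
      intro j
      have h2 := h j
      rw [hpf, map_sum] at h2
      have h3 : ∀ l, eval z (C (k + 2 : K) * Y l ^ (k + 1) * C ((if l = j then 1 else 0) - a))
          = (if l = j then g l else 0) - a * g l := by
        intro l
        rw [map_mul, map_mul, map_pow, eval_C, eval_C, hg]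
        split_ifs <;> ring
      rw [Finset.sum_congr rfl fun l _ => h3 l, Finset.sum_sub_distrib, ← Finset.mul_sum,
        Finset.sum_ite_eq' Finset.univ j] at h2
      simpa using h2
    have h4 := hinv g h1
    have h5 : ∀ j, z j - a * ∑ l, z l = 0 := by
      intro j
      have h6 := h4 j
      have h7 := pow_eq_zero_iff (Nat.succ_ne_zero k) |>.1 ((mul_eq_zero.1 h6).resolve_left hk2)
      rw [hY] at h7
      simpa using h7
    funext j
    exact hinv z h5 j
  · intro hmem
    have h1 : ∀ p ∈ gradIdeal f, subs σ K p ∈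
        Ideal.span (Set.range fun j : σ => (X j ^ (k + 1) : MvPolynomial σ K)) := by
      intro p hp
      obtain ⟨c, rfl⟩ := Ideal.mem_span_range_iff_exists_fun.1 hp
      rw [map_sum]
      refine Ideal.sum_mem _ fun j _ => ?_
      rw [map_mul, hpf, map_sum]
      refine Ideal.mul_mem_left _ _ (Ideal.sum_mem _ fun l _ => ?_)
      rw [map_mul, map_mul, map_pow, hsY]
      refine Ideal.mul_mem_right _ _ (Ideal.mul_mem_left _ _ (Ideal.subset_span ⟨l, rfl⟩))
    have h2 := coeff_tt_of_mem k _ (k + 1) (by omega) (h1 _ hmem)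
    exact coeff_subs_monomial s hs h2

end

end Pool.Agent.N84.AF
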