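import Pool.Agent.N84.AF.Scale
import Pool.Agent.N84.AF.Disc
import Pool.Agent.N84.AF.Pos

/-!
# The exponents are equal to one
-/

namespace Pool.Agent.N84.AF

open MvPolynomial

noncomputable section

variable {K : Type*} [Field K] [CharZero K] [IsAlgClosed K]

/-- The discriminant, for polynomials in the coefficients. -/
theorem isDiscriminant_iff {σ : Type*} [Fintype σ] [DecidableEq σ] {k : ℕ}
    (Δ : MvPolynomial (Expo σ (k + 2)) K) :
    IsDiscriminant (k + 2) Δ ↔ Irreducible Δ ∧ ∀ c, eval c Δ = 0 ↔ Degenerate (form c) := by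
  constructor
  · rintro ⟨h1, h2⟩
    refine ⟨h1, fun c => ?_⟩
    rw [← value_form]
    exact h2 _ (form_homogeneous c)
  · rintro ⟨h1, h2⟩
    refine ⟨h1, fun f hf => ?_⟩
    have := h2 fun m => coeff m.1 f
    rwa [form_coeff hf] at this

/-- The value of `μ_i`. -/
def mu {σ : Type*} [Fintype σ] [DecidableEq σ] (k : ℕ) (i : Expo σ (Fintype.card σ * k))
    (f : MvPolynomial σ K) : K :=
  open Classical in
  if h : f.IsHomogeneous (k + 2) ∧ ¬ Degenerate f then (exists_mu h.1 h.2).choose i else 0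

theorem isMu_mu {σ : Type*} [Fintype σ] [DecidableEq σ] {k : ℕ} {f : MvPolynomial σ K}
    (hf : f.IsHomogeneous (k + 2)) (hn : ¬ Degenerate f) : IsMu k f (fun i => mu k i f) := by
  have h : (fun i => mu k i f) = (exists_mu hf hn).choose := by
    funext i
    rw [mu, dif_pos ⟨hf, hn⟩]
  rw [h]
  exact (exists_mu hf hn).choose_spec.1

theorem mu_iff {σ : Type*} [Fintype σ] [DecidableEq σ] {k : ℕ} {f : MvPolynomial σ K}
    (hf : f.IsHomogeneous (k + 2)) (hn : ¬ Degenerate f) (i : Expo σ (Fintype.card σ * k)) (c : K) :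
    monomial i.1 1 - C c * hessian f ∈ gradIdeal f ↔ c = mu k i f := by
  have hv := isMu_mu hf hn
  constructor
  · intro h
    have := hv.1 _ h
    rw [map_sub, ← smul_eq_C_mul, map_smul, hv.2, smul_eq_mul, mul_one, Lf_monomial, mul_one,
      sub_eq_zero] at this
    exact this.symm
  · rintro rfl
    exact (isMu_iff hf hn _).1 hv i

theorem isLeast_one (m k : ℕ) (hm : 1 ≤ m) (hk : 1 ≤ k)
    (Δ : MvPolynomial (Expo (Fin (m + 1)) (k + 2)) K) (hΔ : IsDiscriminant (k + 2) Δ)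
    (i : Expo (Fin (m + 1)) (Fintype.card (Fin (m + 1)) * k)) :
    IsLeast {p : ℤ | ∃ P : MvPolynomial (Expo (Fin (m + 1)) (k + 2)) K,
      ∀ f, f.IsHomogeneous (k + 2) → ¬ Degenerate f → value P f = value Δ f ^ p * mu k i f} 1 := by
  obtain ⟨hirr, hzero⟩ := (isDiscriminant_iff Δ).1 hΔ
  constructor
  · obtain ⟨R, hR⟩ := main_poly m hm hk Δ hirr hzero i
    refine ⟨R, fun f hf hn => ?_⟩
    rw [zpow_one]
    have h1 := hR (fun e => coeff e.1 f)
    rw [form_coeff hf] at h1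
    exact h1 hn _ (isMu_mu hf hn)
  · rintro p ⟨P, hP⟩
    by_contra hcon
    have hp : p ≤ 0 := by omega
    obtain ⟨f, hf, hn, hmem⟩ := exists_pos (K := K) i.1 i.2
    apply hmem
    have hkey : ∀ g : MvPolynomial (Fin (m + 1)) K, g.IsHomogeneous (k + 2) → ¬ Degenerate g →
        value (Δ ^ (-p).toNat * P) g = mu k i g := by
      intro g hg hgn
      have h0 : value Δ g ≠ 0 := fun h => hgn ((hΔ.2 g hg).1 h)
      have h1 := hP g hg hgn
      rw [value, map_mul, map_pow]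
      change value Δ g ^ (-p).toNat * value P g = _
      rw [h1, ← mul_assoc, ← zpow_natCast, ← zpow_add₀ h0, Int.toNat_of_nonneg (by omega)]
      simp
    have h2 := no_poly (by simp) i (Δ ^ (-p).toNat * P) (by
      intro c hc v hv
      rw [← value_form, hkey _ (form_homogeneous c) hc]
      exact congrFun (isMu_unique (form_homogeneous c) hc (isMu_mu (form_homogeneous c) hc) hv) i)
      (fun e => coeff e.1 f) (by rw [form_coeff hf]; exact hn) (fun j => mu k j f) (by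
        rw [form_coeff hf]; exact isMu_mu hf hn)
    have h3 := (mu_iff hf hn i 0).2 h2.symm
    rwa [map_zero, zero_mul, sub_zero] at h3

theorem final_aux (m k N : ℕ) (hm : 1 ≤ m) (hk : 1 ≤ k)
    (hN : N = Fintype.card (Fin (m + 1)) * k) :
    ∃ μ : Expo (Fin (m + 1)) N → MvPolynomial (Fin (m + 1)) K → K,
      (∀ f, f.IsHomogeneous (k + 2) → ¬ Degenerate f → ∀ i c,
        (monomial i.1 1 - C c * hessian f ∈ gradIdeal f ↔ c = μ i f)) ∧
      ∀ Δ : MvPolynomial (Expo (Fin (m + 1)) (k + 2)) K, IsDiscriminant (k + 2) Δ → ∀ i,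
        IsLeast {p : ℤ | ∃ P : MvPolynomial (Expo (Fin (m + 1)) (k + 2)) K,
          ∀ f, f.IsHomogeneous (k + 2) → ¬ Degenerate f →
            value P f = value Δ f ^ p * μ i f} 1 := by
  subst hN
  exact ⟨mu k, fun f hf hn i c => mu_iff hf hn i c, fun Δ hΔ i => isLeast_one m k hm hk Δ hΔ i⟩

theorem final (n d : ℕ) (hn : 2 ≤ n) (hd : 3 ≤ d) :
    (∃ Δ : MvPolynomial (Expo (Fin n) d) K, IsDiscriminant d Δ) ∧
    (∀ Δ Δ' : MvPolynomial (Expo (Fin n) d) K, IsDiscriminant d Δ → IsDiscriminant d Δ' →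
      Associated Δ Δ') ∧
    ∃ μ : Expo (Fin n) (n * (d - 2)) → MvPolynomial (Fin n) K → K,
      (∀ f, f.IsHomogeneous d → ¬ Degenerate f → ∀ i c,
        (monomial i.1 1 - C c * hessian f ∈ gradIdeal f ↔ c = μ i f)) ∧
      ∀ Δ : MvPolynomial (Expo (Fin n) d) K, IsDiscriminant d Δ → ∀ i,
        IsLeast {p : ℤ | ∃ P : MvPolynomial (Expo (Fin n) d) K,
          ∀ f, f.IsHomogeneous d → ¬ Degenerate f → value P f = value Δ f ^ p * μ i f} 1 := by
  obtain ⟨m, rfl⟩ : ∃ m, n = m + 1 := ⟨n - 1, by omega⟩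
  obtain ⟨k, rfl⟩ : ∃ k, d = k + 2 := ⟨d - 2, by omega⟩
  refine ⟨?_, ?_, ?_⟩
  · obtain ⟨Δ, h1, h2⟩ := exists_disc (σ := Fin (m + 1)) (K := K) (k := k) (by simp)
    exact ⟨Δ, (isDiscriminant_iff Δ).2 ⟨h1, h2⟩⟩
  · intro Δ Δ' h h'
    obtain ⟨h1, h2⟩ := (isDiscriminant_iff Δ).1 h
    obtain ⟨h1', h2'⟩ := (isDiscriminant_iff Δ').1 h'
    exact disc_unique Δ Δ' h1 h1' fun c => (h2 c).trans (h2' c).symm
  · exact final_aux m k _ (by omega) (by omega) (by rw [Fintype.card_fin, Nat.add_sub_cancel])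

end

end Pool.Agent.N84.AF
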