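import Pool.Agent.N84.AF.Local

/-!
# The first order argument at a nodal form
-/

namespace Pool.Agent.N84.AF

open MvPolynomial Matrix

noncomputable section

set_option linter.unusedSectionVars false

variable {σ : Type*} [Fintype σ] [DecidableEq σ] {K : Type*} [Field K] {k : ℕ}

theorem pderiv_comm' (i j : σ) (f : MvPolynomial σ K) :
    pderiv i (pderiv j f) = pderiv j (pderiv i f) := by
  have h : ⁅(pderiv i : Derivation K (MvPolynomial σ K) (MvPolynomial σ K)),
      (pderiv j : Derivation K (MvPolynomial σ K) (MvPolynomial σ K))⁆ = 0 := by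
    apply MvPolynomial.derivation_ext
    intro l
    rw [Derivation.commutator_apply]
    have h3 : ∀ a b : σ, pderiv a (pderiv b (X l : MvPolynomial σ K)) = 0 := by
      intro a b
      rw [pderiv_X]
      by_cases h : l = b
      · subst h; rw [Pi.single_eq_same, pderiv_one]
      · rw [Pi.single_eq_of_ne (Ne.symm (Ne.symm h)), map_zero]
    rw [h3, h3, sub_zero, Derivation.zero_apply]
  have h2 := DFunLike.congr_fun h f
  rw [Derivation.commutator_apply, Derivation.zero_apply, sub_eq_zero] at h2
  exact h2

/-- substitution of multiples of one polynomial into a form -/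
theorem aeval_scaled {τ : Type*} (a : σ → K) (p : MvPolynomial τ K) (r : ℕ) (F : MvPolynomial σ K)
    (hF : F.IsHomogeneous r) :
    aeval (fun l => C (a l) * p) F = C (eval a F) * p ^ r := by
  rw [F.as_sum, map_sum, map_sum, map_sum, Finset.sum_mul]
  refine Finset.sum_congr rfl fun s hs => ?_
  have hdeg : s.degree = r := by
    by_contra h
    exact (mem_support_iff.1 hs) (hF.coeff_eq_zero h)
  rw [aeval_monomial, eval_monomial, Finsupp.prod_fintype _ _ (by intro i; simp),
    Finsupp.prod_fintype _ _ (by intro i; simp), MvPolynomial.algebraMap_eq, map_mul, map_prod]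
  simp only [mul_pow, Finset.prod_mul_distrib, map_pow]
  rw [Finset.prod_pow_eq_pow_sum, ← hdeg, Finsupp.degree_eq_sum, mul_assoc]

theorem bez_diag (F : MvPolynomial σ K) (b : σ → MvPolynomial (σ ⊕ σ) K)
    (hb : ∑ j, b j * (X (Sum.inl j) - X (Sum.inr j)) = rename Sum.inl F - rename Sum.inr F)
    (z : σ → K) (a : σ) : eval (Sum.elim z z) (b a) = eval z (pderiv a F) := by
  have h1 := congrArg (fun q => eval (Sum.elim z z) (pderiv (Sum.inl a) q)) hb
  simp only [map_sum, map_sub, Derivation.leibniz, smul_eq_mul, map_add, map_mul] at h1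
  have h2 : pderiv (Sum.inl a) (rename (R := K) (τ := σ ⊕ σ) Sum.inr F) = 0 := by
    apply pderiv_eq_zero_of_notMem_vars
    intro h
    have := vars_rename Sum.inr F h
    simp at this
  have h3 : pderiv (Sum.inl a) (rename (R := K) (τ := σ ⊕ σ) Sum.inl F) = rename Sum.inl (pderiv a F) :=
    pderiv_rename Sum.inl_injective a F
  rw [h2, h3, map_zero, sub_zero, eval_rename, Finset.sum_eq_single a] at h1
  · simpa using h1
  · intro l _ hl
    simp [pderiv_X, hl]
  · simp

section kernel

variable {N : ℕ}

/-- the derivative at a point in a direction, as a functional on the forms of degree `N` -/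
def dvv (N : ℕ) (z w : σ → K) : Expo σ N → K := fun m => ∑ j, w j * eval z (pderiv j (monomial m.1 1))

theorem Lf_dvv (z w : σ → K) (h : MvPolynomial σ K) :
    Lf (dvv N z w) h = ∑ j, w j * eval z (pderiv j (homogeneousComponent N h)) := by
  induction h using MvPolynomial.induction_on' with
  | monomial s c =>
    by_cases hs : s.degree = N
    · rw [Lf_monomial _ ⟨s, hs⟩, homogeneousComponent_eq_self (isHomogeneous_monomial c hs), dvv,
        Finset.sum_mul]
      refine Finset.sum_congr rfl fun j _ => ?_
      have : (monomial s c : MvPolynomial σ K) = C c * monomial s 1 := by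
        rw [C_mul_monomial, mul_one]
      rw [this, pderiv_C_mul, map_mul, eval_C]
      ring
    · rw [homogeneousComponent_of_mem (isHomogeneous_monomial c rfl), if_neg (Ne.symm hs),
        Lf_apply]
      simp only [map_zero, mul_zero, Finset.sum_const_zero]
      refine Finset.sum_eq_zero fun m _ => ?_
      rw [coeff_monomial, if_neg, mul_zero]
      intro h
      exact hs (h ▸ m.2)
  | add p q hp hq =>
    rw [map_add, map_add, hp, hq, ← Finset.sum_add_distrib]
    exact Finset.sum_congr rfl fun j _ => by rw [map_add, map_add, mul_add]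

theorem dvv_kill (f : MvPolynomial σ K) (hf : f.IsHomogeneous (k + 2)) (z w : σ → K)
    (h : ∀ i, eval z (pderiv i f) = 0) (hw : ∀ i, ∑ j, w j * eval z (pderiv j (pderiv i f)) = 0)
    (p : MvPolynomial σ K) (hp : p ∈ gradIdeal f) : Lf (dvv N z w) p = 0 := by
  obtain ⟨c, rfl⟩ := Ideal.mem_span_range_iff_exists_fun.1 hp
  rw [map_sum]
  refine Finset.sum_eq_zero fun i _ => ?_
  rw [Lf_dvv]
  have h2 : (pderiv i f).IsHomogeneous (k + 1) := hf.pderiv (i := i)
  by_cases hN : k + 1 ≤ N
  · obtain ⟨r, rfl⟩ := Nat.exists_eq_add_of_le' hN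
    rw [hc_mul _ h2]
    have h3 : ∀ j, w j * eval z (pderiv j (homogeneousComponent r (c i) * pderiv i f))
        = eval z (homogeneousComponent r (c i)) * (w j * eval z (pderiv j (pderiv i f))) := by
      intro j
      rw [Derivation.leibniz, smul_eq_mul, smul_eq_mul, map_add, map_mul, map_mul, h i]
      ring
    rw [Finset.sum_congr rfl fun j _ => h3 j, ← Finset.mul_sum, hw i, mul_zero]
  · rw [hc_mul_of_lt (by omega) _ h2]
    simp

end kernel

/-- The set of the forms where the functionals killing the gradient ideal form a space of dimension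
at most one contains a principal open set. -/
theorem exists_Q {N : ℕ} (c₁ : Expo σ (k + 2) → K) (m₀ : Expo σ N)
    (h1 : ∀ m : Expo σ N, m ≠ m₀ → monomial m.1 1 ∈ gradIdeal (form c₁)) :
    ∃ Q : MvPolynomial (Expo σ (k + 2)) K, eval c₁ Q = 1 ∧
      ∀ c, eval c Q ≠ 0 → ∀ v : Expo σ N → K, (∀ p ∈ gradIdeal (form c), Lf v p = 0) →
        v m₀ = 0 → v = 0 := by
  classical
  have h2 : ∀ m : Expo σ N, ∃ g : σ → MvPolynomial σ K,
      m ≠ m₀ → ∑ i, g i * pderiv i (form c₁) = monomial m.1 1 := by
    intro m
    by_cases hm : m = m₀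
    · exact ⟨0, fun h => absurd hm h⟩
    · obtain ⟨g, hg⟩ := Ideal.mem_span_range_iff_exists_fun.1 (h1 m hm)
      exact ⟨g, fun _ => hg⟩
  choose g hg using h2
  obtain ⟨U, hU⟩ := exists_matrix (k := k) N (Equiv.refl _) 0 g
  simp only [Equiv.refl_apply, Pi.zero_apply, map_zero, zero_mul, zero_add] at hU
  set V : Matrix (Expo σ N) (Expo σ N) (MvPolynomial (Expo σ (k + 2)) K) :=
    U.updateRow m₀ (Pi.single m₀ 1) with hV
  refine ⟨V.det, ?_, ?_⟩
  · rw [eval_det]
    have : V.map (eval c₁) = 1 := by
      ext a b
      rw [Matrix.map_apply, hV, Matrix.one_apply]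
      by_cases ha : a = m₀
      · subst ha
        rw [Matrix.updateRow_self]
        by_cases hb : a = b
        · subst hb; simp
        · rw [Pi.single_eq_of_ne (Ne.symm hb), map_zero, if_neg hb]
      · rw [Matrix.updateRow_ne ha, hU, hg a ha, coeff_monomial]
        by_cases hab : a = b
        · rw [if_pos (by rw [hab]), if_pos hab]
        · rw [if_neg (fun h => hab (Subtype.ext h)), if_neg hab]
    rw [this, Matrix.det_one]
  · intro c hc v hv hv0
    by_contra hne
    apply hc
    rw [eval_det]
    refine Matrix.exists_mulVec_eq_zero_iff.1 ⟨v, hne, ?_⟩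
    ext a
    by_cases ha : a = m₀
    · subst ha
      simp only [Matrix.mulVec, dotProduct, Matrix.map_apply, hV, Matrix.updateRow_self]
      rw [Finset.sum_eq_single a]
      · simp [hv0]
      · intro b _ hb
        rw [Pi.single_eq_of_ne hb, map_zero, zero_mul]
      · simp
    · simp only [Matrix.mulVec, dotProduct, Matrix.map_apply, hV, Matrix.updateRow_ne ha, hU]
      have h3 : Lf v (∑ i, g a i * pderiv i (form c)) = 0 := by
        apply hv
        exact Ideal.sum_mem _ fun i _ => Ideal.mul_mem_left _ _ (Ideal.subset_span ⟨i, rfl⟩)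
      rw [Lf_apply] at h3
      rw [Pi.zero_apply, ← h3]
      exact Finset.sum_congr rfl fun b _ => mul_comm _ _

end

end Pool.Agent.N84.AF
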