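import Mathlib

/-!
# Interpolation on a grid by polynomials of small degree
-/

namespace Pool.Agent.N84.AF

open MvPolynomial

noncomputable section

variable {K : Type*} [Field K]

/-- the roots of `X ^ (k + 1) - X` -/
theorem exists_S [CharZero K] [IsAlgClosed K] (k : ℕ) (hk : 1 ≤ k) :
    ∃ S : Finset K, S.card = k + 1 ∧
      (∏ s ∈ S, (Polynomial.X - Polynomial.C s) : Polynomial K) = Polynomial.X ^ (k + 1) - Polynomial.X := by
  classical
  set p : Polynomial K := Polynomial.X ^ (k + 1) - Polynomial.X with hp
  have hk0 : (k : K) ≠ 0 := by exact_mod_cast Nat.one_le_iff_ne_zero.1 hk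
  have hdeg : p.natDegree = k + 1 := by
    rw [hp, Polynomial.natDegree_sub_eq_left_of_natDegree_lt] <;> simp
    omega
  have hmonic : p.Monic := by
    rw [hp]
    apply Polynomial.monic_X_pow_sub
    rw [Polynomial.degree_X]
    exact_mod_cast Nat.lt_succ_of_le hk
  have hsep : p.Separable := by
    obtain ⟨r, rfl⟩ := Nat.exists_eq_add_of_le' hk
    have hder : Polynomial.derivative p
        = Polynomial.C ((r + 1 : ℕ) + 1 : K) * Polynomial.X ^ (r + 1) - 1 := by
      rw [hp]
      simp
    rw [Polynomial.Separable, hder]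
    refine ⟨- Polynomial.C (((r + 1 : ℕ) + 1 : K) ^ 2 * ((r + 1 : ℕ) : K)⁻¹) * Polynomial.X ^ r,
      Polynomial.C (((r + 1 : ℕ) + 1 : K) * ((r + 1 : ℕ) : K)⁻¹) * Polynomial.X ^ (r + 1) - 1, ?_⟩
    have h1 : Polynomial.C (((r + 1 : ℕ) : K)⁻¹) * Polynomial.C ((r + 1 : ℕ) : K) = 1 := by
      rw [← map_mul, inv_mul_cancel₀ hk0, map_one]
    rw [hp]
    simp only [map_mul, map_pow, map_add, map_one] at h1 ⊢
    set a : Polynomial K := Polynomial.C ((r + 1 : ℕ) : K)
    set b : Polynomial K := Polynomial.C (((r + 1 : ℕ) : K)⁻¹)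
    linear_combination (a + 1) * Polynomial.X ^ (r + 1) * h1
  have hnd := Polynomial.nodup_roots hsep
  have hsp : p.Splits := IsAlgClosed.splits p
  refine ⟨p.roots.toFinset, ?_, ?_⟩
  · rw [Multiset.toFinset_card_of_nodup hnd, ← hdeg, Polynomial.splits_iff_card_roots.1 hsp]
  · have h1 := hsp.eq_prod_roots_of_monic hmonic
    conv_rhs => rw [h1]
    rw [Finset.prod, Multiset.toFinset_val, hnd.dedup]

theorem mem_S {k : ℕ} {S : Finset K}
    (hS : (∏ s ∈ S, (Polynomial.X - Polynomial.C s) : Polynomial K)
      = Polynomial.X ^ (k + 1) - Polynomial.X) (x : K) : x ∈ S ↔ x ^ (k + 1) = x := by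
  have h := congrArg (Polynomial.eval x) hS
  rw [Polynomial.eval_prod] at h
  simp only [Polynomial.eval_sub, Polynomial.eval_X, Polynomial.eval_C, Polynomial.eval_pow] at h
  rw [← sub_eq_zero (a := x ^ (k + 1)), ← h, Finset.prod_eq_zero_iff]
  constructor
  · intro hx; exact ⟨x, hx, sub_self x⟩
  · rintro ⟨a, ha, h2⟩
    rw [sub_eq_zero.1 h2]; exact ha

theorem prod_S_mv {k : ℕ} {S : Finset K}
    (hS : (∏ s ∈ S, (Polynomial.X - Polynomial.C s) : Polynomial K)
      = Polynomial.X ^ (k + 1) - Polynomial.X) {ι : Type*} (i : ι) :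
    (∏ s ∈ S, (X i - C s) : MvPolynomial ι K) = X i ^ (k + 1) - X i := by
  have h := congrArg (Polynomial.aeval (X i : MvPolynomial ι K)) hS
  rw [map_prod] at h
  simpa [MvPolynomial.algebraMap_eq] using h

section interp

variable {ι : Type*} [Fintype ι] [DecidableEq ι] {k : ℕ} {S : Finset K}

/-- the polynomial with given coefficients, of degree at most `k` in every variable -/
def redP (k : ℕ) (a : (ι → Fin (k + 1)) → K) : MvPolynomial ι K :=
  ∑ r, monomial (Finsupp.equivFunOnFinite.symm fun i => (r i : ℕ)) (a r)

theorem redP_support (a : (ι → Fin (k + 1)) → K) (s : ι →₀ ℕ) (hs : coeff s (redP k a) ≠ 0) (i : ι) :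
    s i ≤ k := by
  by_contra hi
  apply hs
  rw [redP, coeff_sum]
  refine Finset.sum_eq_zero fun r _ => ?_
  rw [coeff_monomial, if_neg]
  rintro rfl
  apply hi
  have := (r i).2
  simp only [Finsupp.equivFunOnFinite_symm_apply_apply]
  omega

theorem coeff_redP (a : (ι → Fin (k + 1)) → K) (r : ι → Fin (k + 1)) :
    coeff (Finsupp.equivFunOnFinite.symm fun i => (r i : ℕ)) (redP k a) = a r := by
  rw [redP, coeff_sum, Finset.sum_eq_single r]
  · rw [coeff_monomial, if_pos rfl]
  · intro r' _ hne
    rw [coeff_monomial, if_neg]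
    intro h
    apply hne
    have h2 := Finsupp.equivFunOnFinite.symm.injective h
    funext i
    exact Fin.ext (congrFun h2 i)
  · simp

/-- Every function on the grid is given by a polynomial of degree at most `k` in every variable. -/
theorem exists_interp (hc : S.card = k + 1) (w : (ι → S) → K) :
    ∃ a : (ι → Fin (k + 1)) → K, ∀ x : ι → S, eval (fun i => (x i : K)) (redP k a) = w x := by
  let T : ((ι → Fin (k + 1)) → K) →ₗ[K] ((ι → S) → K) :=
    { toFun := fun a x => eval (fun i => (x i : K)) (redP k a)
      map_add' := by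
        intro a b
        funext x
        have : redP k (a + b) = redP k a + redP k b := by
          rw [redP, redP, redP, ← Finset.sum_add_distrib]
          exact Finset.sum_congr rfl fun r _ => by rw [Pi.add_apply, map_add]
        rw [this, map_add]; rfl
      map_smul' := by
        intro c a
        funext x
        have : redP k (c • a) = c • redP k a := by
          rw [redP, redP, Finset.smul_sum]
          exact Finset.sum_congr rfl fun r _ => by rw [Pi.smul_apply, smul_monomial]
        rw [this, smul_eval]; rfl }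
  have hinj : Function.Injective T := by
    rw [← LinearMap.ker_eq_bot, LinearMap.ker_eq_bot']
    intro a ha
    have h0 : redP k a = 0 := by
      apply eq_zero_of_eval_zero_at_prod_finset (redP k a) (fun _ => S)
      · intro i
        rw [hc]
        rw [degreeOf_lt_iff (Nat.succ_pos k)]
        intro s hs
        have := redP_support a s (mem_support_iff.1 hs) i
        omega
      · intro x hx
        exact congrFun ha fun i => ⟨x i, hx i⟩
    funext r
    rw [← coeff_redP a r, h0, coeff_zero]; rfl
  have hfin : Module.finrank K ((ι → Fin (k + 1)) → K) = Module.finrank K ((ι → S) → K) := by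
    rw [Module.finrank_pi, Module.finrank_pi, Fintype.card_fun, Fintype.card_fun, Fintype.card_fin,
      Fintype.card_coe, hc]
  obtain ⟨a, ha⟩ := (LinearMap.injective_iff_surjective_of_finrank_eq_finrank hfin).1 hinj w
  exact ⟨a, fun x => congrFun ha x⟩

/-- the indicator polynomial of the origin -/
def oneP (ι : Type*) [Fintype ι] (K : Type*) [Field K] (k : ℕ) : MvPolynomial ι K :=
  ∏ i, (1 - X i ^ k)

theorem oneP_eq (k : ℕ) : oneP ι K k = ∑ t : Finset ι,
    monomial (Finsupp.equivFunOnFinite.symm fun i => if i ∈ t then k else 0) ((-1 : K) ^ t.card) := by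
  have h1 : oneP ι K k = ∏ i, (- X i ^ k + 1) := by
    rw [oneP]; exact Finset.prod_congr rfl fun i _ => by ring
  rw [h1, Finset.prod_add, Finset.powerset_univ]
  refine Finset.sum_congr rfl fun t _ => ?_
  rw [Finset.prod_const_one, mul_one, Finset.prod_neg]
  rw [monomial_eq, Finsupp.prod_fintype _ _ (by intro i; simp)]
  rw [map_pow, map_neg, map_one]
  congr 1
  rw [← Finset.prod_subset (Finset.subset_univ t)]
  · refine Finset.prod_congr rfl fun i hi => ?_
    simp [hi]
  · intro i _ hi
    simp [hi]

theorem oneP_support (s : ι →₀ ℕ) (hs : coeff s (oneP ι K k) ≠ 0) (i : ι) : s i ≤ k := by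
  by_contra hi
  apply hs
  rw [oneP_eq, coeff_sum]
  refine Finset.sum_eq_zero fun t _ => ?_
  rw [coeff_monomial, if_neg]
  rintro rfl
  apply hi
  simp only [Finsupp.equivFunOnFinite_symm_apply_apply]
  split_ifs <;> omega

theorem coeff_top_oneP (hk : 1 ≤ k) :
    coeff (Finsupp.equivFunOnFinite.symm fun _ : ι => k) (oneP ι K k) = (-1) ^ Fintype.card ι := by
  rw [oneP_eq, coeff_sum, Finset.sum_eq_single Finset.univ]
  · rw [coeff_monomial, if_pos]
    · rw [Finset.card_univ]
    · simp
  · intro t _ ht
    rw [coeff_monomial, if_neg]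
    intro h
    apply ht
    ext i
    have h2 := DFunLike.congr_fun h i
    simp only [Finsupp.equivFunOnFinite_symm_apply_apply] at h2
    simp only [Finset.mem_univ, iff_true]
    by_contra hi
    rw [if_neg hi] at h2
    omega
  · simp

/-- Interpolation away from the origin, by polynomials of total degree less than
`card ι * k`. -/
theorem exists_interp' (hk : 1 ≤ k) (hc : S.card = k + 1)
    (hS : ∀ x : K, x ∈ S ↔ x ^ (k + 1) = x) (hι : Nonempty ι) (w : (ι → K) → K) :
    ∃ u : MvPolynomial ι K, u.totalDegree + 1 ≤ Fintype.card ι * k ∧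
      ∀ x : ι → K, (∀ i, x i ∈ S) → x ≠ 0 → eval x u = w x := by
  obtain ⟨a, ha⟩ := exists_interp (ι := ι) hc (fun x => w fun i => (x i : K))
  set top : ι →₀ ℕ := Finsupp.equivFunOnFinite.symm fun _ : ι => k with htop
  set c : K := coeff top (redP k a) * (-1) ^ Fintype.card ι with hcdef
  refine ⟨redP k a - C c * oneP ι K k, ?_, ?_⟩
  · have hlt : (redP k a - C c * oneP ι K k).totalDegree < Fintype.card ι * k := by
      have hpos : 0 < Fintype.card ι * k := Nat.mul_pos Fintype.card_pos hk
      rw [totalDegree, Finset.sup_lt_iff hpos]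
      intro s hs
      change s.degree < _
      rw [mem_support_iff, coeff_sub, coeff_C_mul] at hs
      have hle : ∀ i, s i ≤ k := by
        intro i
        by_contra hi
        apply hs
        have h1 : coeff s (redP k a) = 0 := by
          by_contra h; exact hi (redP_support a s h i)
        have h2 : coeff s (oneP ι K k) = 0 := by
          by_contra h; exact hi (oneP_support s h i)
        rw [h1, h2, mul_zero, sub_zero]
      have hne : s ≠ top := by
        rintro rfl
        apply hs
        rw [htop, coeff_top_oneP hk, hcdef, mul_assoc, ← mul_pow]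
        simp [htop]
      rw [Finsupp.degree_eq_sum]
      have h3 : ∃ j, s j < k := by
        by_contra hcon
        push Not at hcon
        apply hne
        ext i
        have h5 : top i = k := rfl
        rw [h5]
        exact le_antisymm (hle i) (hcon i)
      obtain ⟨j, hj⟩ := h3
      calc ∑ i, s i < ∑ _i : ι, k := Finset.sum_lt_sum (fun i _ => hle i) ⟨j, Finset.mem_univ j, hj⟩
        _ = Fintype.card ι * k := by simp
    omega
  · intro x hx hx0
    rw [map_sub, map_mul, eval_C]
    have h1 : eval x (redP k a) = w x := ha fun i => ⟨x i, hx i⟩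
    have h2 : eval x (oneP ι K k) = 0 := by
      obtain ⟨j, hj⟩ := Function.ne_iff.1 hx0
      rw [oneP, map_prod]
      apply Finset.prod_eq_zero (Finset.mem_univ j)
      have h3 := (hS (x j)).1 (hx j)
      rw [pow_succ] at h3
      have h4 : x j ^ k = 1 := mul_right_cancel₀ hj (by rw [h3, one_mul])
      simp [h4]
    rw [h1, h2, mul_zero, sub_zero]

end interp

end

end Pool.Agent.N84.AF
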