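import Pool.Agent.N84.AF.Bez

/-!
# The product of two functionals
-/

namespace Pool.Agent.N84.AF

open MvPolynomial Matrix

noncomputable section

variable {σ : Type*} [DecidableEq σ] {K : Type*} [Field K]

set_option linter.unusedSectionVars false

/-- the part of an exponent on the first set of variables -/
def lpart (s : σ ⊕ σ →₀ ℕ) : σ →₀ ℕ := s.comapDomain Sum.inl Sum.inl_injective.injOn

/-- the part of an exponent on the second set of variables -/
def rpart (s : σ ⊕ σ →₀ ℕ) : σ →₀ ℕ := s.comapDomain Sum.inr Sum.inr_injective.injOn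

@[simp] theorem lpart_apply (s : σ ⊕ σ →₀ ℕ) (i : σ) : lpart s i = s (Sum.inl i) := rfl

@[simp] theorem rpart_apply (s : σ ⊕ σ →₀ ℕ) (i : σ) : rpart s i = s (Sum.inr i) := rfl

theorem parts_eq (s : σ ⊕ σ →₀ ℕ) :
    (lpart s).mapDomain Sum.inl + (rpart s).mapDomain Sum.inr = s := by
  ext i
  rcases i with i | i
  · rw [Finsupp.add_apply, Finsupp.mapDomain_apply Sum.inl_injective,
      Finsupp.mapDomain_of_notMem_range _ _ (by simp)]
    simp
  · rw [Finsupp.add_apply, Finsupp.mapDomain_apply Sum.inr_injective,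
      Finsupp.mapDomain_of_notMem_range _ _ (by simp)]
    simp

theorem lpart_mk (a b : σ →₀ ℕ) : lpart (a.mapDomain Sum.inl + b.mapDomain Sum.inr) = a := by
  ext i
  rw [lpart_apply, Finsupp.add_apply, Finsupp.mapDomain_apply Sum.inl_injective,
      Finsupp.mapDomain_of_notMem_range _ _ (by simp), add_zero]

theorem rpart_mk (a b : σ →₀ ℕ) : rpart (a.mapDomain Sum.inl + b.mapDomain Sum.inr) = b := by
  ext i
  rw [rpart_apply, Finsupp.add_apply, Finsupp.mapDomain_apply Sum.inr_injective,
      Finsupp.mapDomain_of_notMem_range _ _ (by simp), zero_add]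

theorem degree_parts (s : σ ⊕ σ →₀ ℕ) : (lpart s).degree + (rpart s).degree = s.degree := by
  conv_rhs => rw [← parts_eq s]
  rw [map_add, Finsupp.degree_mapDomain, Finsupp.degree_mapDomain]

theorem monomial_parts (s : σ ⊕ σ →₀ ℕ) (c : K) :
    monomial s c = rename Sum.inl (monomial (lpart s) c) * rename Sum.inr (monomial (rpart s) 1) := by
  rw [rename_monomial, rename_monomial, monomial_mul, parts_eq, mul_one]

/-- the product of two functionals -/
def Lam (L M : MvPolynomial σ K →ₗ[K] K) : MvPolynomial (σ ⊕ σ) K →ₗ[K] K :=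
  (basisMonomials (σ ⊕ σ) K).constr K
    (fun s => L (monomial (lpart s) 1) * M (monomial (rpart s) 1))

theorem Lam_monomial (L M : MvPolynomial σ K →ₗ[K] K) (s : σ ⊕ σ →₀ ℕ) (c : K) :
    Lam L M (monomial s c) = c * (L (monomial (lpart s) 1) * M (monomial (rpart s) 1)) := by
  have h : (monomial s c : MvPolynomial (σ ⊕ σ) K) = c • basisMonomials (σ ⊕ σ) K s := by
    rw [coe_basisMonomials, smul_monomial, smul_eq_mul, mul_one]
  rw [h, map_smul, Lam, Module.Basis.constr_basis, smul_eq_mul]

theorem Lam_mul (L M : MvPolynomial σ K →ₗ[K] K) (p q : MvPolynomial σ K) :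
    Lam L M (rename Sum.inl p * rename Sum.inr q) = L p * M q := by
  induction p using MvPolynomial.induction_on' with
  | monomial a c =>
    induction q using MvPolynomial.induction_on' with
    | monomial b d =>
      rw [rename_monomial, rename_monomial, monomial_mul, Lam_monomial, lpart_mk, rpart_mk]
      have h1 : (monomial a c : MvPolynomial σ K) = c • monomial a 1 := by
        rw [smul_monomial, smul_eq_mul, mul_one]
      have h2 : (monomial b d : MvPolynomial σ K) = d • monomial b 1 := by
        rw [smul_monomial, smul_eq_mul, mul_one]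
      rw [h1, h2, map_smul, map_smul, smul_eq_mul, smul_eq_mul]
      ring
    | add p q hp hq => rw [map_add, mul_add, map_add, hp, hq, map_add, mul_add]
  | add p p' hp hp' => rw [map_add, add_mul, map_add, hp, hp', map_add, add_mul]

/-- it kills the multiples of the elements of the kernels -/
theorem Lam_left (L M : MvPolynomial σ K →ₗ[K] K) (F : MvPolynomial σ K)
    (hL : ∀ h, L (h * F) = 0) (q : MvPolynomial (σ ⊕ σ) K) :
    Lam L M (q * rename Sum.inl F) = 0 := by
  induction q using MvPolynomial.induction_on' with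
  | monomial s c =>
    rw [monomial_parts, mul_right_comm, ← map_mul, Lam_mul, hL, zero_mul]
  | add p q hp hq => rw [add_mul, map_add, hp, hq, add_zero]

theorem Lam_right (L M : MvPolynomial σ K →ₗ[K] K) (F : MvPolynomial σ K)
    (hM : ∀ h, M (h * F) = 0) (q : MvPolynomial (σ ⊕ σ) K) :
    Lam L M (q * rename Sum.inr F) = 0 := by
  induction q using MvPolynomial.induction_on' with
  | monomial s c =>
    rw [monomial_parts, mul_assoc, ← map_mul, Lam_mul, hM, mul_zero]
  | add p q hp hq => rw [add_mul, map_add, hp, hq, add_zero]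

/-- setting the first set of variables equal to zero -/
def ev0l : MvPolynomial (σ ⊕ σ) K →ₐ[K] MvPolynomial σ K := aeval (Sum.elim 0 X)

/-- setting the second set of variables equal to zero -/
def ev0r : MvPolynomial (σ ⊕ σ) K →ₐ[K] MvPolynomial σ K := aeval (Sum.elim X 0)

theorem ev0l_inl (j : σ) : ev0l (K := K) (X (Sum.inl j)) = 0 := by simp [ev0l]
theorem ev0l_inr (j : σ) : ev0l (K := K) (X (Sum.inr j)) = X j := by simp [ev0l]
theorem ev0r_inl (j : σ) : ev0r (K := K) (X (Sum.inl j)) = X j := by simp [ev0r]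
theorem ev0r_inr (j : σ) : ev0r (K := K) (X (Sum.inr j)) = 0 := by simp [ev0r]

theorem ev0l_rename_inr (p : MvPolynomial σ K) : ev0l (rename Sum.inr p) = p := by
  rw [ev0l, aeval_rename]
  exact aeval_X_left_apply p

theorem ev0r_rename_inl (p : MvPolynomial σ K) : ev0r (rename Sum.inl p) = p := by
  rw [ev0r, aeval_rename]
  exact aeval_X_left_apply p

theorem ev0l_rename_inl (p : MvPolynomial σ K) : ev0l (rename Sum.inl p) = C (coeff 0 p) := by
  rw [ev0l, aeval_rename]
  have : (Sum.elim (0 : σ → MvPolynomial σ K) X ∘ Sum.inl) = 0 := by ext; simp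
  rw [this]
  induction p using MvPolynomial.induction_on' with
  | monomial s c =>
    by_cases h : s = 0
    · subst h; simp [MvPolynomial.algebraMap_eq]
    · rw [aeval_monomial, coeff_monomial, if_neg h, map_zero]
      obtain ⟨i, hi⟩ : ∃ i, s i ≠ 0 := by
        by_contra hc
        push Not at hc
        exact h (Finsupp.ext hc)
      rw [Finsupp.prod, Finset.prod_eq_zero (Finsupp.mem_support_iff.2 hi), mul_zero]
      simp [hi]
  | add p q hp hq => rw [map_add, hp, hq, coeff_add, map_add]

theorem ev0r_rename_inr (p : MvPolynomial σ K) : ev0r (rename Sum.inr p) = C (coeff 0 p) := by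
  rw [ev0r, aeval_rename]
  have : (Sum.elim X (0 : σ → MvPolynomial σ K) ∘ Sum.inr) = 0 := by ext; simp
  rw [this]
  have h := ev0l_rename_inl p
  rw [ev0l, aeval_rename] at h
  have : (Sum.elim (0 : σ → MvPolynomial σ K) X ∘ Sum.inl) = 0 := by ext; simp
  rwa [this] at h

theorem ev0l_monomial (s : σ ⊕ σ →₀ ℕ) (c : K) :
    ev0l (monomial s c) = if lpart s = 0 then monomial (rpart s) c else 0 := by
  rw [monomial_parts, map_mul, ev0l_rename_inl, ev0l_rename_inr, coeff_monomial]
  split_ifs <;> simp [C_mul_monomial]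

theorem ev0r_monomial (s : σ ⊕ σ →₀ ℕ) (c : K) :
    ev0r (monomial s c) = if rpart s = 0 then monomial (lpart s) c else 0 := by
  rw [monomial_parts, map_mul, ev0r_rename_inr, ev0r_rename_inl, coeff_monomial]
  split_ifs <;> simp

end

end Pool.Agent.N84.AF
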