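import Pool.Agent.N84.AF.Pres

/-!
# Local presentations, and the reduced global presentation
-/

namespace Pool.Agent.N84.AF

open MvPolynomial Matrix

noncomputable section

set_option linter.unusedSectionVars false

variable {σ : Type*} [Fintype σ] [DecidableEq σ] {K : Type*} [Field K] {k : ℕ}

/-- the action of the matrix of `exists_matrix` on a functional killing the ideal -/
theorem matrix_action {N : ℕ} (μ : Expo σ N → K) (g : Expo σ N → σ → MvPolynomial σ K)
    (U : Matrix (Expo σ N) (Expo σ N) (MvPolynomial (Expo σ (k + 2)) K))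
    (hU : ∀ c : Expo σ (k + 2) → K, ∀ a b, eval c (U a b) =
        coeff b.1 (C (μ a) * hessian (form c) + ∑ i, g a i * pderiv i (form c)))
    (c : Expo σ (k + 2) → K) (v : Expo σ N → K) (hv : ∀ p ∈ gradIdeal (form c), Lf v p = 0) :
    U.map (eval c) *ᵥ v = Lf v (hessian (form c)) • μ := by
  ext a
  have h1 : (U.map (eval c) *ᵥ v) a
      = Lf v (C (μ a) * hessian (form c) + ∑ i, g a i * pderiv i (form c)) := by
    rw [Lf_apply]
    simp only [Matrix.mulVec, dotProduct, Matrix.map_apply, hU]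
    exact Finset.sum_congr rfl fun b _ => mul_comm _ _
  have h2 : Lf v (∑ i, g a i * pderiv i (form c)) = 0 := by
    apply hv
    exact Ideal.sum_mem _ fun i _ => Ideal.mul_mem_left _ _ (Ideal.subset_span ⟨i, rfl⟩)
  rw [h1, map_add, h2, add_zero, ← smul_eq_C_mul, map_smul, Pi.smul_apply, smul_eq_mul, smul_eq_mul,
    mul_comm]

variable [CharZero K] [IsAlgClosed K]

/-- Near a nondegenerate form the coefficients `μ_i` are regular functions. -/
theorem local_pres (c₂ : Expo σ (k + 2) → K) (hn : ¬ Degenerate (form c₂)) :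
    ∃ (P : Expo σ (Fintype.card σ * k) → MvPolynomial (Expo σ (k + 2)) K)
      (D : MvPolynomial (Expo σ (k + 2)) K), eval c₂ D = 1 ∧
      (∀ c, ¬ Degenerate (form c) → ∀ v, IsMu k (form c) v → ∀ m, eval c D * v m = eval c (P m)) ∧
      (∀ c, Degenerate (form c) → eval c D = 0) := by
  classical
  obtain ⟨v₂, hv₂, -⟩ := exists_mu (form_homogeneous c₂) hn
  have h1 := (isMu_iff (form_homogeneous c₂) hn v₂).1 hv₂
  choose g hg using fun m => Ideal.mem_span_range_iff_exists_fun.1 (h1 m)
  obtain ⟨U, hU⟩ := exists_matrix (k := k) (Fintype.card σ * k) (Equiv.refl _) v₂ g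
  simp only [Equiv.refl_apply] at hU
  refine ⟨fun m => ∑ m', U.adjugate m m' * C (v₂ m'), U.det, ?_, ?_, ?_⟩
  · rw [eval_det]
    have : U.map (eval c₂) = 1 := by
      ext a b
      rw [Matrix.map_apply, hU, hg a, add_sub_cancel, coeff_monomial, Matrix.one_apply]
      by_cases hab : a = b
      · rw [if_pos (by rw [hab]), if_pos hab]
      · rw [if_neg (fun h => hab (Subtype.ext h)), if_neg hab]
    rw [this, Matrix.det_one]
  · intro c hc v hv m
    have h2 := matrix_action v₂ g U hU c v hv.1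
    rw [hv.2, one_smul] at h2
    have h3 : (U.map (eval c)).adjugate *ᵥ (U.map (eval c) *ᵥ v) = (U.map (eval c)).det • v := by
      rw [Matrix.mulVec_mulVec, Matrix.adjugate_mul, Matrix.smul_mulVec, Matrix.one_mulVec]
    rw [h2, ← eval_det] at h3
    have h4 := congrFun h3 m
    rw [Pi.smul_apply, smul_eq_mul] at h4
    rw [← h4, map_sum]
    have h5 : (U.map (eval c)).adjugate = U.adjugate.map (eval c) :=
      (RingHom.map_adjugate (eval c) U).symm
    rw [h5]
    simp only [Matrix.mulVec, dotProduct, Matrix.map_apply, map_mul, eval_C]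
  · rintro c ⟨z, hz, hz2⟩
    have hc := form_homogeneous c
    have h2 := matrix_action v₂ g U hU c (evv _ z) (evv_kill _ (form c) hc z hz2)
    rw [Lf_evv, homogeneousComponent_eq_self (hessian_homogeneous k hc),
      hess_eval_zero (form c) hc z hz hz2, zero_smul] at h2
    rw [eval_det]
    exact Matrix.exists_mulVec_eq_zero_iff.1 ⟨_, evv_ne_zero _ hz, h2⟩

/-- A polynomial function vanishing at the nondegenerate forms is zero. -/
theorem eq_zero_of_nondeg (c₂ : Expo σ (k + 2) → K) (hn : ¬ Degenerate (form c₂))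
    (R : MvPolynomial (Expo σ (k + 2)) K) (hR : ∀ c, ¬ Degenerate (form c) → eval c R = 0) : R = 0 := by
  obtain ⟨P, D, h1, -, h3⟩ := local_pres c₂ hn
  have h4 : D * R = 0 := by
    apply MvPolynomial.funext
    intro c
    rw [map_mul, map_zero]
    by_cases hc : Degenerate (form c)
    · rw [h3 c hc, zero_mul]
    · rw [hR c hc, mul_zero]
  rcases mul_eq_zero.1 h4 with h | h
  · rw [h, map_zero] at h1
    exact absurd h1 zero_ne_one
  · exact h

theorem dvd_of_forall {A ι : Type*} [CommRing A] [IsDomain A] [UniqueFactorizationMonoid A]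
    (P : ι → A) (hP : ∀ q : A, Prime q → ∃ m, ¬ q ∣ P m) (D : A) (hD : D ≠ 0) :
    ∀ a : A, (∀ m, D ∣ a * P m) → D ∣ a := by
  classical
  induction D using UniqueFactorizationMonoid.induction_on_prime with
  | h₁ => exact absurd rfl hD
  | h₂ u hu => intro a _; exact hu.dvd
  | h₃ D q hD0 hq ih =>
    intro a ha
    obtain ⟨m, hm⟩ := hP q hq
    have h1 : q ∣ a := by
      have := (Dvd.intro _ rfl : q ∣ q * D).trans (ha m)
      exact (hq.dvd_or_dvd this).resolve_right hm
    obtain ⟨a', rfl⟩ := h1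
    have h2 : D ∣ a' := by
      apply ih hD0
      intro m
      have := ha m
      rw [mul_assoc] at this
      exact (mul_dvd_mul_iff_left hq.ne_zero).1 this
    exact mul_dvd_mul_left q h2

/-- The reduced presentation of the coefficients `μ_i`. -/
theorem global_pres (c₂ : Expo σ (k + 2) → K) (hn : ¬ Degenerate (form c₂)) :
    ∃ (P : Expo σ (Fintype.card σ * k) → MvPolynomial (Expo σ (k + 2)) K)
      (D : MvPolynomial (Expo σ (k + 2)) K),
      (∀ q, Prime q → ∃ m, ¬ q ∣ P m) ∧
      (∀ c, ¬ Degenerate (form c) → eval c D ≠ 0) ∧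
      (∀ c, ¬ Degenerate (form c) → ∀ v, IsMu k (form c) v → ∀ m, eval c D * v m = eval c (P m)) ∧
      (∀ c, ∀ p ∈ gradIdeal (form c), Lf (fun m => eval c (P m)) p = 0) ∧
      (∀ c, Lf (fun m => eval c (P m)) (hessian (form c)) = eval c D) := by
  classical
  obtain ⟨P₂, D₂, h1, h2, h3⟩ := local_pres c₂ hn
  have hD₂ : D₂ ≠ 0 := by
    rintro rfl
    rw [map_zero] at h1
    exact zero_ne_one h1
  -- the pairs proportional to the given one
  let S : Set ℕ := {r | ∃ (P : Expo σ (Fintype.card σ * k) → MvPolynomial (Expo σ (k + 2)) K)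
      (D : MvPolynomial (Expo σ (k + 2)) K), D ≠ 0 ∧ (∀ m, D * P₂ m = D₂ * P m) ∧ D.totalDegree = r}
  have hS : S.Nonempty := ⟨_, P₂, D₂, hD₂, fun m => rfl, rfl⟩
  obtain ⟨P, D, hD, hPD, hdeg⟩ := Nat.sInf_mem hS
  -- the value at the Hessian, for the generic form
  have hA : ∀ (P' : Expo σ (Fintype.card σ * k) → MvPolynomial (Expo σ (k + 2)) K)
      (D' : MvPolynomial (Expo σ (k + 2)) K), (∀ m, D' * P₂ m = D₂ * P' m) →
      ∀ c, ¬ Degenerate (form c) → ∀ v, IsMu k (form c) v → ∀ m, eval c D' * v m = eval c (P' m) := by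
    intro P' D' hPD' c hc v hv m
    obtain ⟨P₃, D₃, g1, g2, -⟩ := local_pres c hc
    have e1 : D₃ * P₂ m = D₂ * P₃ m := by
      rw [← sub_eq_zero]
      apply eq_zero_of_nondeg c₂ hn
      intro c' hc'
      obtain ⟨w, hw, -⟩ := exists_mu (form_homogeneous c') hc'
      rw [map_sub, map_mul, map_mul, ← h2 c' hc' w hw m, ← g2 c' hc' w hw m]
      ring
    have e2 : D₃ * P' m = D' * P₃ m := by
      have : D₂ * (D₃ * P' m) = D₂ * (D' * P₃ m) := by
        linear_combination D' * e1 - D₃ * hPD' m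
      exact mul_left_cancel₀ hD₂ this
    have e3 := congrArg (eval c) e2
    rw [map_mul, map_mul, g1, one_mul, ← g2 c hc v hv m, g1, one_mul] at e3
    exact e3.symm
  have hA1 := hA P D hPD
  have hgenker : ∀ (P' : Expo σ (Fintype.card σ * k) → MvPolynomial (Expo σ (k + 2)) K)
      (D' : MvPolynomial (Expo σ (k + 2)) K),
      (∀ c, ¬ Degenerate (form c) → ∀ v, IsMu k (form c) v → ∀ m, eval c D' * v m = eval c (P' m)) →
      (∀ (i : σ) (p : MvPolynomial σ K), Lf P' (map C p * pderiv i (gen σ K k)) = 0) ∧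
      Lf P' (hessian (gen σ K k)) = D' := by
    intro P' D' hP'
    have hsc : ∀ c, ¬ Degenerate (form c) → ∀ v, IsMu k (form c) v → ∀ h : MvPolynomial σ K,
        Lf (fun m => eval c (P' m)) h = eval c D' * Lf v h := by
      intro c hc v hv h
      rw [Lf_apply, Lf_apply, Finset.mul_sum]
      exact Finset.sum_congr rfl fun m _ => by rw [← hP' c hc v hv m]; ring
    constructor
    · intro i p
      apply eq_zero_of_nondeg c₂ hn
      intro c hc
      obtain ⟨v, hv, -⟩ := exists_mu (form_homogeneous c) hc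
      rw [Lf_map, map_mul, map_map_C, map_pderiv_gen, hsc c hc v hv,
        hv.1 _ (Ideal.mul_mem_left _ _ (Ideal.subset_span ⟨i, rfl⟩)), mul_zero]
    · rw [← sub_eq_zero]
      apply eq_zero_of_nondeg c₂ hn
      intro c hc
      obtain ⟨v, hv, -⟩ := exists_mu (form_homogeneous c) hc
      rw [map_sub, Lf_map, map_hessian_gen, hsc c hc v hv, hv.2, mul_one, sub_self]
  obtain ⟨hk1, hk2⟩ := hgenker P D hA1
  have hprim : ∀ q, Prime q → ∃ m, ¬ q ∣ P m := by
    intro q hq
    by_contra hcon
    push Not at hcon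
    choose P' hP' using hcon
    -- then `q` divides `D` too
    have hqD : q ∣ D := by
      rw [← hk2, Lf_apply]
      exact Finset.dvd_sum fun m _ => Dvd.dvd.mul_right ⟨P' m, hP' m⟩ _
    obtain ⟨D', rfl⟩ := hqD
    have hD' : D' ≠ 0 := right_ne_zero_of_mul hD
    have hmem : D'.totalDegree ∈ S := by
      refine ⟨P', D', hD', fun m => ?_, rfl⟩
      have := hPD m
      rw [hP' m] at this
      have h5 : q * (D' * P₂ m) = q * (D₂ * P' m) := by linear_combination this
      exact mul_left_cancel₀ hq.ne_zero h5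
    have hle := Nat.sInf_le hmem
    rw [← hdeg, totalDegree_mul_of_isDomain hq.ne_zero hD'] at hle
    have hq0 : q.totalDegree = 0 := by omega
    have ha := (totalDegree_eq_zero_iff_eq_C).1 hq0
    apply hq.not_isUnit
    rw [ha]
    have ha0 : coeff 0 q ≠ 0 := by
      intro h0
      apply hq.ne_zero
      rw [ha, h0, map_zero]
    exact (isUnit_iff_ne_zero.2 ha0).map C
  have hDne : ∀ c, ¬ Degenerate (form c) → eval c D ≠ 0 := by
    intro c hc h0
    obtain ⟨P₃, D₃, g1, g2, -⟩ := local_pres c hc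
    have e1 : ∀ m, D₃ * P m = D * P₃ m := by
      intro m
      rw [← sub_eq_zero]
      apply eq_zero_of_nondeg c₂ hn
      intro c' hc'
      obtain ⟨w, hw, -⟩ := exists_mu (form_homogeneous c') hc'
      rw [map_sub, map_mul, map_mul, ← hA1 c' hc' w hw m, ← g2 c' hc' w hw m]
      ring
    have h6 : D ∣ D₃ := dvd_of_forall P hprim D hD D₃ fun m => ⟨P₃ m, e1 m⟩
    obtain ⟨E, rfl⟩ := h6
    rw [map_mul, h0, zero_mul] at g1
    exact zero_ne_one g1
  refine ⟨P, D, hprim, hDne, hA1, ?_, ?_⟩
  · intro c p hp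
    obtain ⟨g, rfl⟩ := Ideal.mem_span_range_iff_exists_fun.1 hp
    rw [map_sum]
    refine Finset.sum_eq_zero fun i _ => ?_
    have := congrArg (eval c) (hk1 i (g i))
    rw [Lf_map, map_mul, map_map_C, map_pderiv_gen, map_zero] at this
    exact this
  · intro c
    rw [← map_hessian_gen, ← Lf_map, hk2]

end

end Pool.Agent.N84.AF
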