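import Pool.Agent.N84.AF.Forms

/-!
# Local presentations of the coefficients of the associated form
-/

namespace Pool.Agent.N84.AF

open MvPolynomial Matrix

noncomputable section

set_option linter.unusedSectionVars false

variable {σ : Type*} [Fintype σ] [DecidableEq σ] {K : Type*} [Field K]

/-- `v` is the vector of the coefficients `μ_i (f)`. -/
def IsMu (k : ℕ) (f : MvPolynomial σ K) (v : Expo σ (Fintype.card σ * k) → K) : Prop :=
  (∀ p ∈ gradIdeal f, Lf v p = 0) ∧ Lf v (hessian f) = 1

theorem eq_Lf (N : ℕ) (T : MvPolynomial σ K →ₗ[K] K)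
    (hT : ∀ r h, h.IsHomogeneous r → r ≠ N → T h = 0) (h : MvPolynomial σ K) :
    Lf (fun m : Expo σ N => T (monomial m.1 1)) h = T h := by
  induction h using MvPolynomial.induction_on' with
  | monomial s c =>
    by_cases hs : s.degree = N
    · rw [Lf_monomial _ ⟨s, hs⟩]
      have : (monomial s c : MvPolynomial σ K) = c • monomial s 1 := by
        rw [smul_monomial, smul_eq_mul, mul_one]
      rw [this, map_smul, smul_eq_mul, mul_comm]
    · rw [hT _ _ (isHomogeneous_monomial c rfl) hs, Lf_apply]
      refine Finset.sum_eq_zero fun m _ => ?_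
      rw [coeff_monomial, if_neg, mul_zero]
      intro h
      exact hs (h ▸ m.2)
  | add p q hp hq => rw [map_add, map_add, hp, hq]

section nondeg

variable [CharZero K] [IsAlgClosed K] {k : ℕ} {f : MvPolynomial σ K}

theorem exists_mu (hf : f.IsHomogeneous (k + 2)) (hn : ¬ Degenerate f) :
    ∃ v : Expo σ (Fintype.card σ * k) → K, IsMu k f v ∧
      ∀ h, h.IsHomogeneous (Fintype.card σ * k) → Lf v h = 0 → h ∈ gradIdeal f := by
  obtain ⟨T, h1, h2, h3, h4⟩ := exists_functional k f hf hn
  refine ⟨fun m => T (monomial m.1 1), ⟨fun p hp => ?_, ?_⟩, fun h hh h0 => ?_⟩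
  · rw [eq_Lf _ T h3, h1 p hp]
  · rw [eq_Lf _ T h3, h2]
  · rw [eq_Lf _ T h3] at h0
    exact h4 h hh h0

theorem sub_mem_of_isMu (hf : f.IsHomogeneous (k + 2)) (hn : ¬ Degenerate f)
    {v : Expo σ (Fintype.card σ * k) → K} (hv : IsMu k f v) (h : MvPolynomial σ K)
    (hh : h.IsHomogeneous (Fintype.card σ * k)) : h - C (Lf v h) * hessian f ∈ gradIdeal f := by
  obtain ⟨w, ⟨hw1, hw2⟩, hw3⟩ := exists_mu hf hn
  have key : ∀ h : MvPolynomial σ K, h.IsHomogeneous (Fintype.card σ * k) →
      h - C (Lf w h) * hessian f ∈ gradIdeal f := by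
    intro h hh
    apply hw3 _ (hh.sub ((hessian_homogeneous k hf).C_mul _))
    rw [map_sub, ← smul_eq_C_mul, map_smul, hw2, smul_eq_mul, mul_one, sub_self]
  have h1 : Lf v h = Lf w h := by
    have := hv.1 _ (key h hh)
    rw [map_sub, ← smul_eq_C_mul, map_smul, hv.2, smul_eq_mul, mul_one, sub_eq_zero] at this
    exact this
  rw [h1]
  exact key h hh

theorem isMu_unique (hf : f.IsHomogeneous (k + 2)) (hn : ¬ Degenerate f)
    {v w : Expo σ (Fintype.card σ * k) → K} (hv : IsMu k f v) (hw : IsMu k f w) : v = w := by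
  funext m
  have h1 := sub_mem_of_isMu hf hn hv (monomial m.1 1) (isHomogeneous_monomial 1 m.2)
  have h2 := hw.1 _ h1
  rw [map_sub, ← smul_eq_C_mul, map_smul, hw.2, smul_eq_mul, mul_one, sub_eq_zero, Lf_monomial,
    Lf_monomial, mul_one, mul_one] at h2
  exact h2.symm

/-- the defining property of the coefficients `μ_i (f)` -/
theorem isMu_iff (hf : f.IsHomogeneous (k + 2)) (hn : ¬ Degenerate f)
    (v : Expo σ (Fintype.card σ * k) → K) :
    IsMu k f v ↔ ∀ m, monomial m.1 1 - C (v m) * hessian f ∈ gradIdeal f := by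
  constructor
  · intro hv m
    have := sub_mem_of_isMu hf hn hv (monomial m.1 1) (isHomogeneous_monomial 1 m.2)
    rwa [Lf_monomial, mul_one] at this
  · intro hv
    obtain ⟨w, hw, -⟩ := exists_mu hf hn
    have : v = w := by
      funext m
      have h2 := hw.1 _ (hv m)
      rw [map_sub, ← smul_eq_C_mul, map_smul, hw.2, smul_eq_mul, mul_one, sub_eq_zero, Lf_monomial,
        mul_one] at h2
      exact h2.symm
    rw [this]; exact hw

end nondeg

/-- the generic form of degree `k + 2` -/
def gen (σ : Type*) [Fintype σ] [DecidableEq σ] (K : Type*) [Field K] (k : ℕ) :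
    MvPolynomial σ (MvPolynomial (Expo σ (k + 2)) K) := form (fun m => X m)

variable {k : ℕ}

theorem map_gen (c : Expo σ (k + 2) → K) : map (eval c) (gen σ K k) = form c := by
  rw [gen, map_form]
  simp

theorem map_pderiv_gen (c : Expo σ (k + 2) → K) (i : σ) :
    map (eval c) (pderiv i (gen σ K k)) = pderiv i (form c) := by
  rw [← pderiv_map, map_gen]

theorem map_hessian_gen (c : Expo σ (k + 2) → K) :
    map (eval c) (hessian (gen σ K k)) = hessian (form c) := by
  rw [map_hessian, map_gen]

theorem map_map_C (c : Expo σ (k + 2) → K) (p : MvPolynomial σ K) :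
    map (eval c) (map (C : K →+* MvPolynomial (Expo σ (k + 2)) K) p) = p := by
  rw [MvPolynomial.map_map]
  have : (eval c).comp (C : K →+* MvPolynomial (Expo σ (k + 2)) K) = RingHom.id K := by
    ext a; simp
  rw [this, MvPolynomial.map_id]

/-- A vector with entries in the ring of polynomial functions, obtained from relations valid at one
form. -/
theorem exists_matrix {ι : Type*} [Fintype ι] [DecidableEq ι] (N : ℕ) (e : ι ≃ Expo σ N)
    (μ : ι → K) (g : ι → σ → MvPolynomial σ K) :
    ∃ U : Matrix ι ι (MvPolynomial (Expo σ (k + 2)) K),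
      (∀ c : Expo σ (k + 2) → K, ∀ a b, eval c (U a b) =
        coeff (e b).1 (C (μ a) * hessian (form c) + ∑ i, g a i * pderiv i (form c))) := by
  refine ⟨fun a b => coeff (e b).1 (C (C (μ a)) * hessian (gen σ K k) +
    ∑ i, map C (g a i) * pderiv i (gen σ K k)), fun c a b => ?_⟩
  rw [← coeff_map]
  congr 1
  rw [map_add, map_mul, map_C, eval_C, map_hessian_gen, map_sum]
  congr 1
  exact Finset.sum_congr rfl fun i _ => by rw [map_mul, map_map_C, map_pderiv_gen]

theorem eval_det {τ ι : Type*} [Fintype ι] [DecidableEq ι] (c : τ → K)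
    (U : Matrix ι ι (MvPolynomial τ K)) : eval c U.det = (U.map (eval c)).det := by
  rw [RingHom.map_det]; rfl

/-- the value of a vector of polynomial functions -/
theorem hess_eval_zero (f : MvPolynomial σ K) (hf : f.IsHomogeneous (k + 2)) (z : σ → K) (hz : z ≠ 0)
    (h : ∀ i, eval z (pderiv i f) = 0) : eval z (hessian f) = 0 := by
  rw [hessian, RingHom.map_det]
  rw [← Matrix.exists_mulVec_eq_zero_iff]
  refine ⟨z, hz, ?_⟩
  ext i
  have h2 : (pderiv i f).IsHomogeneous (k + 1) := hf.pderiv (i := i)
  have h3 := congrArg (eval z) h2.sum_X_mul_pderiv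
  rw [map_sum, map_nsmul, h i, smul_zero] at h3
  rw [Pi.zero_apply, ← h3]
  simp only [Matrix.mulVec, dotProduct, RingHom.mapMatrix_apply, Matrix.map_apply, Matrix.of_apply,
    map_mul, eval_X]
  exact Finset.sum_congr rfl fun j _ => mul_comm _ _

/-- evaluation at a point, as a functional on the forms of degree `N` -/
def evv (N : ℕ) (z : σ → K) : Expo σ N → K := fun m => eval z (monomial m.1 1)

theorem Lf_evv (N : ℕ) (z : σ → K) (h : MvPolynomial σ K) :
    Lf (evv N z) h = eval z (homogeneousComponent N h) := by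
  induction h using MvPolynomial.induction_on' with
  | monomial s c =>
    by_cases hs : s.degree = N
    · rw [Lf_monomial _ ⟨s, hs⟩, homogeneousComponent_eq_self (isHomogeneous_monomial c hs), evv,
        eval_monomial, eval_monomial]
      ring
    · rw [homogeneousComponent_of_mem (isHomogeneous_monomial c rfl), if_neg (Ne.symm hs), map_zero,
        Lf_apply]
      refine Finset.sum_eq_zero fun m _ => ?_
      rw [coeff_monomial, if_neg, mul_zero]
      intro h
      exact hs (h ▸ m.2)
  | add p q hp hq => rw [map_add, map_add, hp, hq, map_add]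

theorem evv_kill (N : ℕ) (f : MvPolynomial σ K) (hf : f.IsHomogeneous (k + 2)) (z : σ → K)
    (h : ∀ i, eval z (pderiv i f) = 0) (p : MvPolynomial σ K) (hp : p ∈ gradIdeal f) :
    Lf (evv N z) p = 0 := by
  obtain ⟨c, rfl⟩ := Ideal.mem_span_range_iff_exists_fun.1 hp
  rw [map_sum]
  refine Finset.sum_eq_zero fun i _ => ?_
  rw [Lf_evv]
  have h2 : (pderiv i f).IsHomogeneous (k + 1) := hf.pderiv (i := i)
  by_cases hN : k + 1 ≤ N
  · obtain ⟨r, rfl⟩ := Nat.exists_eq_add_of_le' hN
    rw [hc_mul _ h2, map_mul, h i, mul_zero]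
  · have : homogeneousComponent N (c i * pderiv i f) = 0 := by
      ext s
      rw [coeff_homogeneousComponent, coeff_zero]
      split_ifs with hs
      · rw [coeff_mul]
        refine Finset.sum_eq_zero fun x hx => ?_
        rw [h2.coeff_eq_zero, mul_zero]
        intro h3
        have := Finset.HasAntidiagonal.mem_antidiagonal.1 hx
        have h4 : x.1.degree + x.2.degree = s.degree := by rw [← this, map_add]
        omega
      · rfl
    rw [this, map_zero]

theorem evv_ne_zero (N : ℕ) {z : σ → K} (hz : z ≠ 0) : evv N z ≠ 0 := by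
  obtain ⟨j, hj⟩ := Function.ne_iff.1 hz
  intro h
  have h1 := congrFun h ⟨Finsupp.single j N, Finsupp.degree_single j N⟩
  rw [evv, eval_monomial] at h1
  simp at h1
  exact hj h1.1

end

end Pool.Agent.N84.AF
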