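import Pool.Agent.N84.AF.Core
import Pool.Agent.N84.AF.Example

/-!
# The exponent of the discriminant is one
-/

namespace Pool.Agent.N84.AF

open MvPolynomial Matrix

noncomputable section

set_option linter.unusedSectionVars false

variable {σ : Type*} [Fintype σ] [DecidableEq σ] {K : Type*} [Field K] {k : ℕ}

theorem form_smul (t : K) (c : Expo σ (k + 2) → K) : form (fun m => t * c m) = C t * form c := by
  rw [form, form, Finset.mul_sum]
  exact Finset.sum_congr rfl fun m _ => by rw [C_mul_monomial]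

theorem hessian_C_mul (t : K) (f : MvPolynomial σ K) :
    hessian (C t * f) = C (t ^ Fintype.card σ) * hessian f := by
  have : (Matrix.of fun i j => pderiv j (pderiv i (C t * f)) : Matrix σ σ (MvPolynomial σ K))
      = (C t : MvPolynomial σ K) • Matrix.of fun i j => pderiv j (pderiv i f) := by
    ext i j
    simp
  rw [hessian, hessian, this, Matrix.det_smul, map_pow]

theorem gradIdeal_C_mul_le (t : K) (f : MvPolynomial σ K) : gradIdeal (C t * f) ≤ gradIdeal f := by
  rw [gradIdeal, Ideal.span_le]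
  rintro _ ⟨i, rfl⟩
  simp only [pderiv_C_mul]
  exact Ideal.mul_mem_left _ _ (Ideal.subset_span ⟨i, rfl⟩)

theorem nondeg_C_mul {t : K} (ht : t ≠ 0) {f : MvPolynomial σ K} (hf : ¬ Degenerate f) :
    ¬ Degenerate (C t * f) := by
  rintro ⟨z, hz, h⟩
  apply hf
  refine ⟨z, hz, fun i => ?_⟩
  have := h i
  rw [pderiv_C_mul, map_mul, eval_C] at this
  exact (mul_eq_zero.1 this).resolve_left ht

theorem isMu_C_mul {t : K} (ht : t ≠ 0) {f : MvPolynomial σ K}
    {v : Expo σ (Fintype.card σ * k) → K} (hv : IsMu k f v) :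
    IsMu k (C t * f) (fun m => (t ^ Fintype.card σ)⁻¹ * v m) := by
  have h1 : ∀ p, Lf (fun m => (t ^ Fintype.card σ)⁻¹ * v m) p = (t ^ Fintype.card σ)⁻¹ * Lf v p := by
    intro p
    rw [Lf_apply, Lf_apply, Finset.mul_sum]
    exact Finset.sum_congr rfl fun m _ => by ring
  refine ⟨fun p hp => ?_, ?_⟩
  · rw [h1, hv.1 p (gradIdeal_C_mul_le t f hp), mul_zero]
  · rw [h1, hessian_C_mul, ← smul_eq_C_mul, map_smul, hv.2, smul_eq_mul, mul_one,
      inv_mul_cancel₀ (pow_ne_zero _ ht)]

/-- The coefficients `μ_i` are not polynomial functions, unless they vanish. -/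
theorem no_poly [Infinite K] (hσ : 1 ≤ Fintype.card σ) (i : Expo σ (Fintype.card σ * k))
    (R : MvPolynomial (Expo σ (k + 2)) K)
    (hR : ∀ c, ¬ Degenerate (form c) → ∀ v, IsMu k (form c) v → eval c R = v i)
    (c : Expo σ (k + 2) → K) (hc : ¬ Degenerate (form c)) (v : Expo σ (Fintype.card σ * k) → K)
    (hv : IsMu k (form c) v) : v i = 0 := by
  set r : Polynomial K := aeval (fun m => Polynomial.C (c m) * Polynomial.X) R with hr
  have hre : ∀ t, Polynomial.eval t r = eval (fun m => t * c m) R := by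
    intro t
    have : (Polynomial.evalRingHom t).comp
        (aeval (fun m => Polynomial.C (c m) * Polynomial.X) : MvPolynomial _ K →ₐ[K] _).toRingHom
        = eval (fun m => t * c m) := by
      apply MvPolynomial.ringHom_ext
      · intro a; simp
      · intro m
        simp only [AlgHom.toRingHom_eq_coe, RingHom.coe_comp, RingHom.coe_coe, Function.comp_apply,
          aeval_X, Polynomial.coe_evalRingHom, Polynomial.eval_mul, Polynomial.eval_C,
          Polynomial.eval_X, eval_X]
        ring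
    exact DFunLike.congr_fun this R
  have h1 : Polynomial.X * (Polynomial.X ^ Fintype.card σ * r - Polynomial.C (v i)) = 0 := by
    apply Polynomial.funext
    intro t
    rw [Polynomial.eval_mul, Polynomial.eval_X, Polynomial.eval_zero]
    by_cases ht : t = 0
    · rw [ht, zero_mul]
    · have h2 := hR (fun m => t * c m) (by rw [form_smul]; exact nondeg_C_mul ht hc) _ (by
        rw [form_smul]; exact isMu_C_mul ht hv)
      rw [Polynomial.eval_sub, Polynomial.eval_mul, Polynomial.eval_pow, Polynomial.eval_X,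
        Polynomial.eval_C, hre, h2, ← mul_assoc, mul_inv_cancel₀ (pow_ne_zero _ ht), one_mul, sub_self,
        mul_zero]
  have h2 := (mul_eq_zero.1 h1).resolve_left Polynomial.X_ne_zero
  have h3 := congrArg (Polynomial.eval 0) h2
  rw [Polynomial.eval_sub, Polynomial.eval_mul, Polynomial.eval_pow, Polynomial.eval_X,
    Polynomial.eval_C, zero_pow (by omega), zero_mul, zero_sub, Polynomial.eval_zero, neg_eq_zero] at h3
  exact h3

/-- The Fermat form is nondegenerate. -/
theorem fermat [CharZero K] : ∃ c : Expo σ (k + 2) → K, ¬ Degenerate (form c) := by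
  set f : MvPolynomial σ K := ∑ i, X i ^ (k + 2) with hf
  have hfh : f.IsHomogeneous (k + 2) := IsHomogeneous.sum _ _ _ fun i _ => isHomogeneous_X_pow _ _
  refine ⟨fun m => coeff m.1 f, ?_⟩
  rw [form_coeff hfh]
  rintro ⟨z, hz, h⟩
  obtain ⟨j, hj⟩ := Function.ne_iff.1 hz
  apply hj
  have h1 := h j
  have h2 : pderiv j f = (k + 2 : MvPolynomial σ K) * X j ^ (k + 1) := by
    rw [hf, map_sum, Finset.sum_eq_single j]
    · rw [Derivation.leibniz_pow, pderiv_X_self]
      simp
    · intro i _ hi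
      rw [Derivation.leibniz_pow, pderiv_X_of_ne hi]; simp
    · simp
  rw [h2] at h1
  simp only [map_mul, map_add, map_pow, eval_X, map_natCast, map_ofNat] at h1
  have hk2 : (k + 2 : K) ≠ 0 := by exact_mod_cast Nat.succ_ne_zero (k + 1)
  exact pow_eq_zero_iff (Nat.succ_ne_zero k) |>.1 ((mul_eq_zero.1 h1).resolve_left hk2)

theorem dvd_of_vanish {τ : Type*} [Finite τ] [IsAlgClosed K] (Δ R : MvPolynomial τ K)
    (hΔ : Prime Δ) (h : ∀ c, eval c Δ = 0 → eval c R = 0) : Δ ∣ R := by
  have h1 : R ∈ (Ideal.span {Δ}).radical := by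
    rw [← vanishingIdeal_zeroLocus_eq_radical (K := K)]
    intro c hc
    have : eval c Δ = 0 := hc Δ (Ideal.subset_span rfl)
    exact h c this
  have h2 : (Ideal.span {Δ}).IsPrime := (Ideal.span_singleton_prime hΔ.ne_zero).2 hΔ
  rw [h2.radical] at h1
  exact Ideal.mem_span_singleton.1 h1

/-- The main theorem: the product of the discriminant and of the coefficients `μ_i` is polynomial. -/
theorem main_poly [CharZero K] [IsAlgClosed K] (m : ℕ) (hm : 1 ≤ m) (hk : 1 ≤ k)
    (Δ : MvPolynomial (Expo (Fin (m + 1)) (k + 2)) K) (hΔ : Irreducible Δ)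
    (hΔ0 : ∀ c, eval c Δ = 0 ↔ Degenerate (form c)) (i : Expo (Fin (m + 1)) (Fintype.card (Fin (m + 1)) * k)) :
    ∃ R : MvPolynomial (Expo (Fin (m + 1)) (k + 2)) K, ∀ c, ¬ Degenerate (form c) →
      ∀ v, IsMu k (form c) v → eval c R = eval c Δ * v i := by
  classical
  obtain ⟨c₂, hc₂⟩ := fermat (σ := Fin (m + 1)) (K := K) (k := k)
  obtain ⟨P, D, hprim, hD, hPD, hker, hval⟩ := global_pres c₂ hc₂
  have hD0 : D ≠ 0 := by
    rintro rfl
    exact hD c₂ hc₂ (map_zero _)
  have hΔp : Prime Δ := UniqueFactorizationMonoid.irreducible_iff_prime.1 hΔ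
  -- `D` divides a power of `Δ`
  have h1 : Δ ∈ (Ideal.span {D}).radical := by
    rw [← vanishingIdeal_zeroLocus_eq_radical (K := K)]
    intro c hc
    have h2 : eval c D = 0 := hc D (Ideal.subset_span rfl)
    have h3 : eval c Δ = 0 := by
      rw [hΔ0]
      by_contra hn
      exact hD c hn h2
    exact h3
  obtain ⟨M, hM⟩ := h1
  rw [Ideal.mem_span_singleton] at hM
  obtain ⟨κ, -, hκ⟩ := (dvd_prime_pow hΔp M).1 hM
  -- the exponent is at most one
  have hκ1 : κ ≤ 1 := by
    by_contra hcon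
    obtain ⟨f, hfh, hfd, hfm⟩ := example_form (K := K) m k hm hk
    set c₁ : Expo (Fin (m + 1)) (k + 2) → K := fun e => coeff e.1 f with hc₁
    have hf : form c₁ = f := form_coeff hfh
    have hN : Fintype.card (Fin (m + 1)) * k = (m + 1) * k := by rw [Fintype.card_fin]
    set m₀ : Expo (Fin (m + 1)) (Fintype.card (Fin (m + 1)) * k) :=
      ⟨Finsupp.single 0 ((m + 1) * k), by rw [Finsupp.degree_single, hN]⟩ with hm₀
    obtain ⟨Q, hQ1, hQ2⟩ := exists_Q c₁ m₀ (by
      intro e he
      rw [hf]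
      apply hfm
      · rw [e.2, hN]
      · intro h; exact he (Subtype.ext h))
    obtain ⟨m', hm'⟩ := hprim Δ hΔp
    have hΔQ : ¬ Δ ∣ Q := by
      rintro ⟨E, hE⟩
      have h4 : eval c₁ Δ = 0 := (hΔ0 c₁).2 (by rw [hf]; exact hfd)
      rw [hE, map_mul, h4, zero_mul] at hQ1
      exact zero_ne_one hQ1
    have h5 : ¬ Δ ∣ Q * P m' := by
      intro h
      rcases hΔp.dvd_or_dvd h with h | h
      · exact hΔQ h
      · exact hm' h
    have h6 : ∃ c₀, eval c₀ Δ = 0 ∧ eval c₀ (Q * P m') ≠ 0 := by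
      by_contra hno
      push Not at hno
      exact h5 (dvd_of_vanish Δ _ hΔp hno)
    obtain ⟨c₀, hc0, hc0'⟩ := h6
    rw [map_mul] at hc0'
    refine not_sq_dvd hk rfl P D hker hval c₀ ((hΔ0 c₀).1 hc0) m₀ (hQ2 c₀ (left_ne_zero_of_mul hc0'))
      (fun h => ?_) Δ hc0 ?_
    · exact (right_ne_zero_of_mul hc0') (congrFun h m')
    · exact (pow_dvd_pow Δ (by omega : 2 ≤ κ)).trans hκ.symm.dvd
  -- the exponent is not zero
  have hκ0 : κ ≠ 0 := by
    rintro rfl
    rw [pow_zero] at hκ
    have hu : IsUnit D := hκ.symm.isUnit isUnit_one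
    obtain ⟨a, ha, haD⟩ := (MvPolynomial.isUnit_iff_eq_C_of_isReduced).1 hu
    obtain ⟨v, hv, -⟩ := exists_mu (form_homogeneous c₂) hc₂
    have hv0 : ∀ j, v j = 0 := by
      intro j
      apply no_poly (by simp) j (C a⁻¹ * P j) _ c₂ hc₂ v hv
      intro c hc w hw
      rw [map_mul, eval_C, ← hPD c hc w hw j, haD, eval_C, ← mul_assoc, inv_mul_cancel₀ ha.ne_zero,
        one_mul]
    have := hv.2
    rw [Lf_apply, Finset.sum_eq_zero fun j _ => by rw [hv0 j, zero_mul]] at this
    exact zero_ne_one this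
  have hκe : κ = 1 := by omega
  rw [hκe, pow_one] at hκ
  obtain ⟨u, hu⟩ := hκ
  obtain ⟨a, ha, hau⟩ := (MvPolynomial.isUnit_iff_eq_C_of_isReduced).1 u.isUnit
  refine ⟨C a * P i, fun c hc v hv => ?_⟩
  rw [map_mul, eval_C, ← hPD c hc v hv i, ← hu, map_mul, hau, eval_C]
  ring

end

end Pool.Agent.N84.AF
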